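import Pool.Agent.Lib.MP_a785c8_co.Faces

/-!
Adjacency of quadrangular faces across an edge, uniqueness, and invariance under symmetries.
-/

set_option autoImplicit false

namespace Pool.Agent.Lib.MP_a785c8_co

open Finset

variable {η : Fin 3 → Fin 3 → ℝ}

/-- after a rotation of the labels, the first two vertices lie on the supporting line through
two distinct points of the face -/
theorem exists_pair {w : Fin 3 → ℝ} {P : Z3 → Z3 → Z3 → Z3 → Prop}
    (hrot : ∀ a b c d, P a b c d → P b c d a)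
    (hQ : ∀ a b c d, P a b c d → QV η w a b c d)
    (hI : ∀ a b c d, P a b c d → ∀ x, Pos η x → lf w x = 1 → InQ a b c d x)
    {a b c d u v z : Z3} (h : P a b c d) (pu : Pos η u) (pv : Pos η v)
    (lu : lf w u = 1) (lv : lf w v = 1) (huv : u ≠ v)
    (hg : ∀ x, Pos η x → lf w x = 1 → 0 ≤ dt u v x) (hz : dt u v z ≠ 0) :
    ∃ a' b' c' d', P a' b' c' d' ∧ dt u v a' = 0 ∧ dt u v b' = 0 := by
  have hq := hQ _ _ _ _ h
  have ga := hg a hq.pa hq.la
  have gb := hg b hq.pb hq.lb
  have gc := hg c hq.pc hq.lc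
  have gd := hg d hq.pd hq.ld
  have r1 := hrot _ _ _ _ h
  have r2 := hrot _ _ _ _ r1
  have r3 := hrot _ _ _ _ r2
  -- the case where only the first vertex can be on the line
  have sing : ∀ a b c d, P a b c d → 0 ≤ dt u v a → 0 < dt u v b → 0 < dt u v c →
      0 < dt u v d → False := by
    intro a b c d h ga gb gc gd
    have hq := hQ _ _ _ _ h
    have e1 := hq.single (hI _ _ _ _ h u pu lu) lu ga gb gc gd (dt_self3 u v)
    have e2 := hq.single (hI _ _ _ _ h v pv lv) lv ga gb gc gd (dt_self2 u v)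
    exact huv (e1.trans e2.symm)
  rcases lt_or_eq_of_le ga with ga' | ga'
  · rcases lt_or_eq_of_le gb with gb' | gb'
    · rcases lt_or_eq_of_le gc with gc' | gc'
      · exact (sing _ _ _ _ r3 gd ga' gb' gc').elim
      · rcases lt_or_eq_of_le gd with gd' | gd'
        · exact (sing _ _ _ _ r2 gc gd' ga' gb').elim
        · exact ⟨_, _, _, _, r2, gc'.symm, gd'.symm⟩
    · rcases lt_or_eq_of_le gc with gc' | gc'
      · rcases lt_or_eq_of_le gd with gd' | gd'
        · exact (sing _ _ _ _ r1 gb gc' gd' ga').elim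
        · exact ((hQ _ _ _ _ r1).opposite gc ga gb'.symm gd'.symm hz).elim
      · exact ⟨_, _, _, _, r1, gb'.symm, gc'.symm⟩
  · rcases lt_or_eq_of_le gb with gb' | gb'
    · rcases lt_or_eq_of_le gd with gd' | gd'
      · rcases lt_or_eq_of_le gc with gc' | gc'
        · exact (sing _ _ _ _ h ga gb' gc' gd').elim
        · exact ((hQ _ _ _ _ h).opposite gb gd ga'.symm gc'.symm hz).elim
      · exact ⟨_, _, _, _, r3, gd'.symm, ga'.symm⟩
    · exact ⟨_, _, _, _, h, ga'.symm, gb'.symm⟩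

/-- **Adjacency.** -/
theorem Quad.adj (hC : Cone η) (hAll : AllQuad η) {ℓ a b c d : Z3} (h : Quad η ℓ a b c d) :
    ∃ ℓ' e f, Quad η ℓ' b a e f ∧ ∃ t : ℝ, 0 < t ∧
      ∀ x, lf (rc ℓ') x = lf (rc ℓ) x + t * ((dt a b x : ℤ) : ℝ) := by
  obtain ⟨hmin, hq, hin⟩ := h
  obtain ⟨lam, hlam⟩ := hC.exists_comb (rc ℓ)
  obtain ⟨mu, hmu⟩ := hC.exists_comb (crs a b)
  have hmux : ∀ x, lf (comb η mu) x = ((dt a b x : ℤ) : ℝ) := by
    intro x
    rw [← hmu, lf_crs]
  have hmin' : ∀ x, Pos η x → 1 ≤ lf (comb η lam) x := by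
    rw [← hlam]; exact hmin
  obtain ⟨t, ht0, hmin2, xs, hxs, hneg, hval⟩ := hC.rotate hmin'
    (exists_neg (x := c) hq.pa (by rw [hmux, dt_self3, Int.cast_zero]) (by
      rw [hmux]
      exact_mod_cast hq.abc.ne'))
  rw [← hlam] at hval hmin2
  rw [hmux] at hval hneg
  have hneg' : dt a b xs < 0 := by exact_mod_cast hneg
  -- the rotation is proper
  have ht : 0 < t := by
    rcases lt_or_eq_of_le ht0 with h1 | h1
    · exact h1
    · exfalso
      rw [← h1, zero_mul, add_zero] at hval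
      have := (hin xs hxs hval).abx
      omega
  set w' : Fin 3 → ℝ := fun j => rc ℓ j + t * crs a b j with hw'
  have hw'x : ∀ x, lf w' x = lf (rc ℓ) x + t * ((dt a b x : ℤ) : ℝ) := by
    intro x
    rw [hw', lf_add_form, lf_crs]
  have hminw : ∀ x, Pos η x → 1 ≤ lf w' x := by
    intro x hx
    have := hmin2 x hx
    rw [hmux] at this
    rw [hw'x]
    exact this
  have la' : lf w' a = 1 := by rw [hw'x, dt_self3, hq.la]; simp
  have lb' : lf w' b = 1 := by rw [hw'x, dt_self2, hq.lb]; simp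
  have lx' : lf w' xs = 1 := by rw [hw'x]; exact hval
  obtain ⟨a', b', c', d', hq', hin'⟩ := hAll w' hminw a b xs hq.pa hq.pb hxs la' lb' lx' hneg'.ne
  obtain ⟨ℓ', hℓ'⟩ := exists_int_form (integral_of_quad hminw hq')
  -- the line through `b, a` supports the new face
  have hg : ∀ x, Pos η x → lf w' x = 1 → 0 ≤ dt b a x := by
    intro x hx h1
    rw [dt_swap a b x]
    by_contra hcon
    have hpos : 0 < dt a b x := by omega
    have hpos' : (0 : ℝ) < ((dt a b x : ℤ) : ℝ) := by exact_mod_cast hpos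
    have h2 := hmin x hx
    rw [hw'x] at h1
    have := mul_pos ht hpos'
    linarith
  have hba : b ≠ a := by
    rintro rfl
    have := hq.abc
    rw [dt_self1] at this
    exact lt_irrefl _ this
  obtain ⟨p, q, r, s, hP, gp, gq⟩ := exists_pair (η := η) (w := w')
    (P := fun a b c d => QV η w' a b c d ∧ ∀ x, Pos η x → lf w' x = 1 → InQ a b c d x)
    (fun a b c d h => ⟨h.1.rot, fun x h1 h2 => (h.2 x h1 h2).rot⟩)
    (fun a b c d h => h.1) (fun a b c d h => h.2) ⟨hq', hin'⟩ hq.pb hq.pa lb' la' hba hg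
    (z := c) (by rw [dt_swap a b c]; have := hq.abc; omega)
  obtain ⟨hqP, hinP⟩ := hP
  -- the vertices p, q lie on the old face and its edge
  have gp' : dt a b p = 0 := by have := dt_swap a b p; omega
  have gq' : dt a b q = 0 := by have := dt_swap a b q; omega
  have lp : lf (rc ℓ) p = 1 := by
    have := hw'x p
    rw [hqP.la, gp', Int.cast_zero, mul_zero, add_zero] at this
    exact this.symm
  have lq : lf (rc ℓ) q = 1 := by
    have := hw'x q
    rw [hqP.lb, gq', Int.cast_zero, mul_zero, add_zero] at this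
    exact this.symm
  obtain ⟨P1, Q1, hP1, hQ1, hPQ1, e1⟩ := hq.on_edge (hin p hqP.pa lp) lp gp'
  obtain ⟨P2, Q2, hP2, hQ2, hPQ2, e2⟩ := hq.on_edge (hin q hqP.pb lq) lq gq'
  -- `a` and `b` lie on the new edge
  have hline : ∀ x, dt b a x = 0 → dt p q x = 0 := by
    intro x hx
    -- p, q, x all lie in the plane spanned by a and b
    have k1 : dt a b c * dt a b c * dt p q x = 0 := by
      have hx' : dt a b x = 0 := by have := dt_swap a b x; omega
      have c1 := cramer a b c p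
      have c2 := cramer a b c q
      have c3 := cramer a b c x
      rw [gp', zero_smul, add_zero] at c1
      rw [gq', zero_smul, add_zero] at c2
      rw [hx', zero_smul, add_zero] at c3
      have : dt (dt a b c • p) (dt a b c • q) (dt a b c • x) = 0 := by
        rw [c1, c2, c3]
        simp only [dt, Pi.add_apply, Pi.smul_apply, smul_eq_mul]
        ring
      rw [dt_smul1, dt_smul2, dt_smul3] at this
      have h3 : dt a b c * (dt a b c * dt a b c * dt p q x) = 0 := by linarith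
      exact (mul_eq_zero.1 h3).resolve_left hq.abc.ne'
    have h4 : dt a b c * dt a b c ≠ 0 := mul_ne_zero hq.abc.ne' hq.abc.ne'
    exact (mul_eq_zero.1 k1).resolve_left h4
  have zpa : dt p q a = 0 := hline a (dt_self2 b a)
  have zpb : dt p q b = 0 := hline b (dt_self3 b a)
  obtain ⟨p1, q1, hp1, hq1, hpq1, f1⟩ := hqP.on_edge (hinP a hq.pa la') la' zpa
  obtain ⟨p2, q2, hp2, hq2, hpq2, f2⟩ := hqP.on_edge (hinP b hq.pb lb') lb' zpb
  have hb := endpoint (a := a) (b := b) (c := c) hq.abc.ne' hq.abc hqP.abc hp2 hq2 hpq2 f2 hP1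
    hPQ1 e1 hP2 hPQ2 e2
  have ha := endpoint (a := b) (b := a) (c := c) (by rw [dt_swap a b c]; have := hq.abc; omega)
    hq.abc hqP.abc hp1 hq1 hpq1 f1 hQ1 (by omega : Q1 + P1 = dt a b c)
    (by rw [e1, add_comm]) hQ2 (by omega : Q2 + P2 = dt a b c) (by rw [e2, add_comm])
  -- orientation
  have hrpos : 0 ≤ dt b a r := hg r hqP.pc hqP.lc
  have hbp : b = p := by
    rcases hb with h1 | h1
    · exact h1
    · exfalso
      rcases ha with h2 | h2
      · have h3 := hqP.abc
        rw [← h1, ← h2, dt_swap b a r] at h3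
        omega
      · exact hba (h1.trans h2.symm)
  have haq : a = q := by
    rcases ha with h1 | h1
    · exact absurd (hbp.trans h1.symm) hba
    · exact h1
  subst hbp
  subst haq
  refine ⟨ℓ', r, s, ⟨?_, ?_, ?_⟩, t, ht, ?_⟩
  · rw [← hℓ']; exact hminw
  · rw [← hℓ']; exact hqP
  · rw [← hℓ']; exact hinP
  · rw [← hℓ']; exact hw'x

/-- two faces with a common oriented edge coincide -/
theorem Quad.unique {ℓ ℓ' a b c d c' d' : Z3} (h : Quad η ℓ a b c d)
    (h' : Quad η ℓ' a b c' d') : c = c' ∧ d = d' ∧ ∀ x, lf (rc ℓ) x = lf (rc ℓ') x := by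
  obtain ⟨hmin, hq, hin⟩ := h
  obtain ⟨hmin', hq', hin'⟩ := h'
  -- the forms agree at c
  have hc1 : lf (rc ℓ') c = 1 := by
    have k1 := lf_cramer (rc ℓ) a b c c'
    have k2 := lf_cramer (rc ℓ') a b c c'
    rw [hq.la, hq.lb, hq.lc] at k1
    rw [hq'.la, hq'.lb, hq'.lc] at k2
    have m1 := hmin c' hq'.pc
    have m2 := hmin' c hq.pc
    have p1 : (0 : ℝ) < ((dt a b c : ℤ) : ℝ) := by exact_mod_cast hq.abc
    have p2 : (0 : ℝ) < ((dt a b c' : ℤ) : ℝ) := by exact_mod_cast hq'.abc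
    have k3 : ((dt a b c' : ℤ) : ℝ) * (lf (rc ℓ') c - 1) =
        ((dt a b c : ℤ) : ℝ) * (1 - lf (rc ℓ) c') := by linarith
    have k4 : ((dt a b c : ℤ) : ℝ) * (1 - lf (rc ℓ) c') ≤ 0 :=
      mul_nonpos_of_nonneg_of_nonpos p1.le (by linarith)
    have k5 := mul_nonneg p2.le (by linarith : 0 ≤ lf (rc ℓ') c - 1)
    have k6 : ((dt a b c' : ℤ) : ℝ) * (lf (rc ℓ') c - 1) = 0 := by linarith
    have := (mul_eq_zero.1 k6).resolve_left p2.ne'
    linarith
  have hforms : ∀ x, lf (rc ℓ) x = lf (rc ℓ') x := by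
    intro x
    have k1 := lf_cramer (rc ℓ) a b c x
    have k2 := lf_cramer (rc ℓ') a b c x
    rw [hq.la, hq.lb, hq.lc] at k1
    rw [hq'.la, hq'.lb, hc1] at k2
    have p1 : ((dt a b c : ℤ) : ℝ) ≠ 0 := by exact_mod_cast hq.abc.ne'
    exact mul_left_cancel₀ p1 (k1.trans k2.symm)
  have hq'' : QV η (rc ℓ) a b c' d' := by
    refine ⟨hq'.pa, hq'.pb, hq'.pc, hq'.pd, ?_, ?_, ?_, ?_, hq'.abc, hq'.bcd, hq'.cda, hq'.dab⟩
    · rw [hforms]; exact hq'.la
    · rw [hforms]; exact hq'.lb
    · rw [hforms]; exact hq'.lc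
    · rw [hforms]; exact hq'.ld
  have hin'' : ∀ x, Pos η x → lf (rc ℓ) x = 1 → InQ a b c' d' x := by
    intro x hx h1
    rw [hforms] at h1
    exact hin' x hx h1
  have hcc : c = c' := by
    have z1 := (hin c' hq''.pc hq''.lc).bcx
    have z2 := (hin'' c hq.pc hq.lc).bcx
    have z3 : dt b c' c = - dt b c c' := dt_swap' b c c'
    have z4 : dt b c c' = 0 := by omega
    have z5 : dt b c' c = 0 := by omega
    obtain ⟨p, q, hp, hq1, hpq, e⟩ := hq.rot.on_edge (hin c' hq''.pc hq''.lc).rot hq''.lc z4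
    obtain ⟨p', q', hp', hq1', hpq', e'⟩ := hq''.rot.on_edge (hin'' c hq.pc hq.lc).rot hq.lc z5
    -- combine
    have h1 : (dt b c d * p' + q' * p) • b + (q' * q - dt b c d * dt b c' d') • c = 0 := by
      have e1 : (dt b c d * dt b c' d') • c = dt b c d • (p' • b) + q' • (dt b c d • c') := by
        rw [mul_smul, e', smul_add, smul_comm q' (dt b c d)]
      rw [e] at e1
      have : (dt b c d * p' + q' * p) • b + (q' * q - dt b c d * dt b c' d') • c =
          (dt b c d • (p' • b) + q' • (p • b + q • c)) - (dt b c d * dt b c' d') • c := by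
        module
      rw [this, ← e1, sub_self]
    have h2 := (indep_of_dt hq.bcd.ne' h1).1
    have g1 := mul_nonneg hq.bcd.le hp'
    have g2 := mul_nonneg hq1' hp
    have hp0 : p' = 0 := by
      have : dt b c d * p' = 0 := by omega
      exact (mul_eq_zero.1 this).resolve_left hq.bcd.ne'
    rw [hp0, zero_smul, zero_add] at e'
    have hq0 : q' = dt b c' d' := by omega
    rw [hq0] at e'
    exact smul_right_injective Z3 hq''.bcd.ne' e'
  have hdd : d = d' := by
    have z1 := (hin d' hq''.pd hq''.ld).dax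
    have z2 := (hin'' d hq.pd hq.ld).dax
    have z3 : dt d' a d = - dt d a d' := by simp only [dt]; ring
    have z4 : dt d a d' = 0 := by omega
    have z5 : dt d' a d = 0 := by omega
    obtain ⟨p, q, hp, hq1, hpq, e⟩ := hq.rot.rot.rot.on_edge
      (hin d' hq''.pd hq''.ld).rot.rot.rot hq''.ld z4
    obtain ⟨p', q', hp', hq1', hpq', e'⟩ := hq''.rot.rot.rot.on_edge
      (hin'' d hq.pd hq.ld).rot.rot.rot hq.ld z5
    have h1 : (p' * p - dt d a b * dt d' a b) • d + (p' * q + dt d a b * q') • a = 0 := by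
      have e1 : (dt d a b * dt d' a b) • d = p' • (dt d a b • d') + dt d a b • (q' • a) := by
        rw [mul_smul, e', smul_add, smul_comm p' (dt d a b)]
      rw [e] at e1
      have : (p' * p - dt d a b * dt d' a b) • d + (p' * q + dt d a b * q') • a =
          (p' • (p • d + q • a) + dt d a b • (q' • a)) - (dt d a b * dt d' a b) • d := by
        module
      rw [this, ← e1, sub_self]
    have h2 := (indep_of_dt hq.dab.ne' h1).2
    have g1 := mul_nonneg hq.dab.le hq1'
    have g2 := mul_nonneg hp' hq1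
    have hp0 : q' = 0 := by
      have : dt d a b * q' = 0 := by omega
      exact (mul_eq_zero.1 this).resolve_left hq.dab.ne'
    rw [hp0, zero_smul, add_zero] at e'
    have hq0 : p' = dt d' a b := by omega
    rw [hq0] at e'
    exact smul_right_injective Z3 hq''.dab.ne' e'
  exact ⟨hcc, hdd, hforms⟩

theorem InGam.pos_iff {f : Z3 ≃+ Z3} {cc : Fin 3 → ℝ} (h : InGam η f cc) (x : Z3) :
    Pos η (f x) ↔ Pos η x := by
  constructor
  · intro hx i
    have := hx i
    rw [h.scale] at this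
    exact (mul_pos_iff_of_pos_left (h.pos i)).1 this
  · intro hx i
    rw [h.scale]
    exact mul_pos (h.pos i) (hx i)

/-- every additive map to the integers is a form -/
theorem exists_form (φ : Z3 →+ ℤ) : ∃ ℓ : Z3, ∀ x, ((φ x : ℤ) : ℝ) = lf (rc ℓ) x := by
  refine ⟨![φ ![1, 0, 0], φ ![0, 1, 0], φ ![0, 0, 1]], fun x => ?_⟩
  have hx : x = x 0 • (![1, 0, 0] : Z3) + x 1 • (![0, 1, 0] : Z3) + x 2 • (![0, 0, 1] : Z3) := by
    apply ext3 <;> simp
  have h1 : φ x = x 0 * φ ![1, 0, 0] + x 1 * φ ![0, 1, 0] + x 2 * φ ![0, 0, 1] := by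
    conv_lhs => rw [hx]
    rw [map_add, map_add, map_zsmul, map_zsmul, map_zsmul]
    simp only [smul_eq_mul]
  rw [h1]
  simp only [lf, rc_apply, Matrix.cons_val_zero, Matrix.cons_val_one, Matrix.cons_val]
  push_cast
  ring

theorem exists_transport (ℓ : Z3) (f : Z3 ≃+ Z3) : ∃ ℓ' : Z3, ∀ x,
    lf (rc ℓ') x = lf (rc ℓ) (f.symm x) := by
  let φ : Z3 →+ ℤ :=
    { toFun := fun x => ℓ 0 * f.symm x 0 + ℓ 1 * f.symm x 1 + ℓ 2 * f.symm x 2
      map_zero' := by simp
      map_add' := by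
        intro x y
        simp only [map_add, Pi.add_apply]
        ring }
  obtain ⟨ℓ', h⟩ := exists_form φ
  refine ⟨ℓ', fun x => ?_⟩
  rw [← h]
  simp only [φ, AddMonoidHom.coe_mk, ZeroHom.coe_mk, lf, rc_apply]
  push_cast
  ring

theorem Quad.map {ℓ a b c d : Z3} (h : Quad η ℓ a b c d) {f : Z3 ≃+ Z3} {cc : Fin 3 → ℝ}
    (hf : InGam η f cc) : ∃ ℓ', Quad η ℓ' (f a) (f b) (f c) (f d) := by
  obtain ⟨ℓ', hℓ'⟩ := exists_transport ℓ f
  obtain ⟨hmin, hq, hin⟩ := h
  have hpos : ∀ x, Pos η x → Pos η (f.symm x) := by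
    intro x hx
    rw [← hf.pos_iff, AddEquiv.apply_symm_apply]
    exact hx
  have hval : ∀ x, lf (rc ℓ') (f x) = lf (rc ℓ) x := by
    intro x
    rw [hℓ', AddEquiv.symm_apply_apply]
  refine ⟨ℓ', ?_, ?_, ?_⟩
  · intro x hx
    rw [hℓ']
    exact hmin _ (hpos x hx)
  · refine ⟨(hf.pos_iff _).2 hq.pa, (hf.pos_iff _).2 hq.pb, (hf.pos_iff _).2 hq.pc,
      (hf.pos_iff _).2 hq.pd, ?_, ?_, ?_, ?_, ?_, ?_, ?_, ?_⟩
    · rw [hval]; exact hq.la
    · rw [hval]; exact hq.lb
    · rw [hval]; exact hq.lc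
    · rw [hval]; exact hq.ld
    · rw [hf.det]; exact hq.abc
    · rw [hf.det]; exact hq.bcd
    · rw [hf.det]; exact hq.cda
    · rw [hf.det]; exact hq.dab
  · intro x hx h1
    rw [hℓ'] at h1
    have h2 := hin _ (hpos x hx) h1
    have e : ∀ u v, dt (f u) (f v) x = dt u v (f.symm x) := by
      intro u v
      have := hf.det u v (f.symm x)
      rw [AddEquiv.apply_symm_apply] at this
      exact this
    refine ⟨?_, ?_, ?_, ?_⟩
    · rw [e]; exact h2.abx
    · rw [e]; exact h2.bcx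
    · rw [e]; exact h2.cdx
    · rw [e]; exact h2.dax

end Pool.Agent.Lib.MP_a785c8_co
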