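import Pool.Agent.Lib.MP_a785c8_co.Adj

/-!
The cochain on lattice segments of a face and its closedness.
-/

set_option autoImplicit false

namespace Pool.Agent.Lib.MP_a785c8_co

open Finset

variable {η : Fin 3 → Fin 3 → ℝ}

/-- primitive vectors -/
def Prim (d : Z3) : Prop := ∃ u : Z3, u 0 * d 0 + u 1 * d 1 + u 2 * d 2 = 1

theorem Prim.neg {d : Z3} (h : Prim d) : Prim (-d) := by
  obtain ⟨u, hu⟩ := h
  refine ⟨-u, ?_⟩
  simp only [Pi.neg_apply]
  linarith

theorem exists_prim (d : Z3) (hd : d ≠ 0) : ∃ (g : ℕ) (d' : Z3), 0 < g ∧ Prim d' ∧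
    d = (g : ℤ) • d' := by
  set g1 := Int.gcd (d 1) (d 2) with hg1
  set g := Int.gcd (d 0) g1 with hg
  have b1 : (g1 : ℤ) = d 1 * Int.gcdA (d 1) (d 2) + d 2 * Int.gcdB (d 1) (d 2) :=
    Int.gcd_eq_gcd_ab _ _
  have b2 : (g : ℤ) = d 0 * Int.gcdA (d 0) g1 + g1 * Int.gcdB (d 0) g1 :=
    Int.gcd_eq_gcd_ab _ _
  have k0 : (g : ℤ) ∣ d 0 := Int.gcd_dvd_left _ _
  have k1 : (g : ℤ) ∣ g1 := Int.gcd_dvd_right _ _
  have k2 : (g1 : ℤ) ∣ d 1 := Int.gcd_dvd_left _ _
  have k3 : (g1 : ℤ) ∣ d 2 := Int.gcd_dvd_right _ _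
  obtain ⟨x0, h0⟩ := k0
  obtain ⟨x1, h1⟩ := k1.trans k2
  obtain ⟨x2, h2⟩ := k1.trans k3
  have hgpos : 0 < g := by
    rcases Nat.eq_zero_or_pos g with h | h
    · exfalso
      apply hd
      rw [h] at h0 h1 h2
      simp only [Nat.cast_zero, zero_mul] at h0 h1 h2
      exact ext3 h0 h1 h2
    · exact h
  refine ⟨g, ![x0, x1, x2], hgpos, ⟨![Int.gcdA (d 0) g1,
    Int.gcdB (d 0) g1 * Int.gcdA (d 1) (d 2), Int.gcdB (d 0) g1 * Int.gcdB (d 1) (d 2)], ?_⟩, ?_⟩
  · have hg0 : (g : ℤ) ≠ 0 := by exact_mod_cast hgpos.ne'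
    apply mul_left_cancel₀ hg0
    simp only [Matrix.cons_val_zero, Matrix.cons_val_one, Matrix.cons_val]
    generalize Int.gcdA (d 0) g1 = s at *
    generalize Int.gcdB (d 0) g1 = t at *
    generalize Int.gcdA (d 1) (d 2) = x at *
    generalize Int.gcdB (d 1) (d 2) = y at *
    calc (g : ℤ) * (s * x0 + t * x * x1 + t * y * x2)
        = (g * x0) * s + ((g * x1) * x + (g * x2) * y) * t := by ring
      _ = d 0 * s + (d 1 * x + d 2 * y) * t := by rw [← h0, ← h1, ← h2]
      _ = d 0 * s + g1 * t := by rw [← b1]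
      _ = g * 1 := by rw [← b2, mul_one]
  · apply ext3
    · simpa using h0
    · simpa using h1
    · simpa using h2

theorem prim_unique {g h : ℕ} {d e : Z3} (hg : 0 < g) (hh : 0 < h) (hd : Prim d) (he : Prim e)
    (hde : (g : ℤ) • d = (h : ℤ) • e) : g = h ∧ d = e := by
  obtain ⟨u, hu⟩ := hd
  obtain ⟨v, hv⟩ := he
  have e0 : (g : ℤ) * d 0 = h * e 0 := congrFun hde 0
  have e1 : (g : ℤ) * d 1 = h * e 1 := congrFun hde 1
  have e2 : (g : ℤ) * d 2 = h * e 2 := congrFun hde 2
  have d1 : (h : ℤ) ∣ g := by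
    refine ⟨u 0 * e 0 + u 1 * e 1 + u 2 * e 2, ?_⟩
    calc (g : ℤ) = g * (u 0 * d 0 + u 1 * d 1 + u 2 * d 2) := by rw [hu, mul_one]
      _ = u 0 * (g * d 0) + u 1 * (g * d 1) + u 2 * (g * d 2) := by ring
      _ = _ := by rw [e0, e1, e2]; ring
  have d2 : (g : ℤ) ∣ h := by
    refine ⟨v 0 * d 0 + v 1 * d 1 + v 2 * d 2, ?_⟩
    calc (h : ℤ) = h * (v 0 * e 0 + v 1 * e 1 + v 2 * e 2) := by rw [hv, mul_one]
      _ = v 0 * (h * e 0) + v 1 * (h * e 1) + v 2 * (h * e 2) := by ring
      _ = _ := by rw [← e0, ← e1, ← e2]; ring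
  have hgh : g = h := Nat.dvd_antisymm (Int.natCast_dvd_natCast.1 d2) (Int.natCast_dvd_natCast.1 d1)
  refine ⟨hgh, ?_⟩
  subst hgh
  exact smul_right_injective Z3 (by exact_mod_cast hg.ne' : (g : ℤ) ≠ 0) hde

open Classical in
/-- sum of a function over the primitive steps of a lattice segment -/
noncomputable def seg (F : Z3 → Z3 → ℝ) (p q : Z3) : ℝ :=
  if h : q - p ≠ 0 then
    ∑ i ∈ range (exists_prim (q - p) h).choose,
      F (p + (i : ℤ) • (exists_prim (q - p) h).choose_spec.choose)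
        (p + ((i : ℤ) + 1) • (exists_prim (q - p) h).choose_spec.choose)
  else 0

theorem seg_self (F : Z3 → Z3 → ℝ) (p : Z3) : seg F p p = 0 := by
  unfold seg
  rw [dif_neg]
  simp

theorem seg_eq (F : Z3 → Z3 → ℝ) (p d : Z3) (m : ℕ) (hd : Prim d) :
    seg F p (p + (m : ℤ) • d) =
      ∑ i ∈ range m, F (p + (i : ℤ) • d) (p + ((i : ℤ) + 1) • d) := by
  rcases Nat.eq_zero_or_pos m with rfl | hm
  · simp [seg_self]
  · have hd0 : d ≠ 0 := by
      rintro rfl
      obtain ⟨u, hu⟩ := hd
      simp at hu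
    have hne : p + (m : ℤ) • d - p ≠ 0 := by
      rw [add_sub_cancel_left]
      exact smul_ne_zero (by exact_mod_cast hm.ne') hd0
    unfold seg
    rw [dif_pos hne]
    obtain ⟨h1, h2, h3⟩ := (exists_prim _ hne).choose_spec.choose_spec
    have h4 : p + (m : ℤ) • d - p = (m : ℤ) • d := add_sub_cancel_left _ _
    obtain ⟨e1, e2⟩ := prim_unique hm h1 hd h2 (h4.symm.trans h3)
    have hgen : ∀ (g : ℕ) (d' : Z3), m = g → d = d' →
        ∑ i ∈ range g, F (p + (i : ℤ) • d') (p + ((i : ℤ) + 1) • d') =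
        ∑ i ∈ range m, F (p + (i : ℤ) • d) (p + ((i : ℤ) + 1) • d) := by
      rintro _ _ rfl rfl
      rfl
    exact hgen _ _ e1 e2

theorem seg_anti {F : Z3 → Z3 → ℝ} (hF : ∀ p q, F q p = - F p q) (p q : Z3) :
    seg F q p = - seg F p q := by
  by_cases hpq : q = p
  · subst hpq
    rw [seg_self, neg_zero]
  · obtain ⟨g, d, hg, hd, he⟩ := exists_prim (q - p) (sub_ne_zero.2 hpq)
    have hq : q = p + (g : ℤ) • d := by rw [← he]; abel
    have hp : p = q + (g : ℤ) • (-d) := by rw [hq]; simp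
    have h1 : seg F p q = ∑ i ∈ range g, F (p + (i : ℤ) • d) (p + ((i : ℤ) + 1) • d) := by
      rw [hq]; exact seg_eq F p d g hd
    have h2 : seg F q p = ∑ i ∈ range g, F (q + (i : ℤ) • (-d)) (q + ((i : ℤ) + 1) • (-d)) := by
      conv_lhs => rw [hp]
      exact seg_eq F q (-d) g hd.neg
    rw [h1, h2, ← sum_neg_distrib, ← sum_range_reflect]
    refine sum_congr rfl fun i hi => ?_
    rw [mem_range] at hi
    rw [hF]
    congr 1
    have hc : ((g - 1 - i : ℕ) : ℤ) = g - 1 - i := by omega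
    rw [hc, hq]
    congr 1
    · module
    · module

/-- additivity along a line -/
theorem seg_add (F : Z3 → Z3 → ℝ) (p d : Z3) (m n : ℕ) (hd : Prim d) :
    seg F p (p + ((m + n : ℕ) : ℤ) • d) = seg F p (p + (m : ℤ) • d) +
      seg F (p + (m : ℤ) • d) (p + ((m + n : ℕ) : ℤ) • d) := by
  have h1 : p + ((m + n : ℕ) : ℤ) • d = (p + (m : ℤ) • d) + (n : ℤ) • d := by
    push_cast
    module
  rw [seg_eq F p d _ hd, seg_eq F p d m hd, h1, seg_eq F _ d n hd, sum_range_add]
  congr 1
  refine sum_congr rfl fun i _ => ?_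
  congr 1
  · push_cast; module
  · push_cast; module

/-- the sum over a collinear triple vanishes -/
theorem seg_collinear {F : Z3 → Z3 → ℝ} (hF : ∀ p q, F q p = - F p q) {w : Fin 3 → ℝ}
    {p q r : Z3} (lp : lf w p = 1) (lq : lf w q = 1) (lr : lf w r = 1) (h : dt p q r = 0) :
    seg F p q + seg F q r + seg F r p = 0 := by
  by_cases hpq : q = p
  · subst hpq
    rw [seg_self, seg_anti hF q r]
    ring
  · obtain ⟨g, d, hg, hd, he⟩ := exists_prim (q - p) (sub_ne_zero.2 hpq)
    have hq : q = p + (g : ℤ) • d := by rw [← he]; abel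
    have hg0 : (g : ℤ) ≠ 0 := by exact_mod_cast hg.ne'
    have hgR : (g : ℝ) ≠ 0 := by exact_mod_cast hg.ne'
    set e := r - p with hedef
    have ld : lf w d = 0 := by
      have : lf w ((g : ℤ) • d) = 0 := by rw [← he, lf_sub, lp, lq, sub_self]
      rw [lf_smul] at this
      push_cast at this
      exact (mul_eq_zero.1 this).resolve_left hgR
    have le : lf w e = 0 := by rw [hedef, lf_sub, lp, lr, sub_self]
    have hpde : dt d e p = 0 := by
      have h1 : (g : ℤ) * dt d e p = dt p q r := by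
        rw [hq, hedef]
        simp only [dt, Pi.add_apply, Pi.sub_apply, Pi.smul_apply, smul_eq_mul]
        ring
      rw [h] at h1
      exact (mul_eq_zero.1 h1).resolve_left hg0
    have hall : ∀ z, dt d e z = 0 := by
      intro z
      have h1 := lf_cramer w d e z p
      rw [lp, ld, le, hpde] at h1
      simp only [mul_one, mul_zero, zero_add, Int.cast_zero, zero_mul] at h1
      exact_mod_cast h1
    obtain ⟨u, hu⟩ := hd
    have c0 := hall ![1, 0, 0]
    have c1 := hall ![0, 1, 0]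
    have c2 := hall ![0, 0, 1]
    simp only [dt, Matrix.cons_val_zero, Matrix.cons_val_one, Matrix.cons_val] at c0 c1 c2
    set b := u 0 * e 0 + u 1 * e 1 + u 2 * e 2 with hb
    have heb : e = b • d := by
      apply ext3
      · show e 0 = b * d 0
        have h1 : (u 0 * d 0 + u 1 * d 1 + u 2 * d 2) * e 0 = b * d 0 := by
          rw [hb]
          linear_combination (-(u 1)) * c2 + u 2 * c1
        rw [hu, one_mul] at h1
        exact h1
      · show e 1 = b * d 1
        have h1 : (u 0 * d 0 + u 1 * d 1 + u 2 * d 2) * e 1 = b * d 1 := by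
          rw [hb]
          linear_combination u 0 * c2 - u 2 * c0
        rw [hu, one_mul] at h1
        exact h1
      · show e 2 = b * d 2
        have h1 : (u 0 * d 0 + u 1 * d 1 + u 2 * d 2) * e 2 = b * d 2 := by
          rw [hb]
          linear_combination (-(u 0)) * c1 + u 1 * c0
        rw [hu, one_mul] at h1
        exact h1
    have hd : Prim d := ⟨u, hu⟩
    have hr : r = p + b • d := by rw [← heb, hedef]; abel
    -- three positions of `b`
    rcases le_total 0 b with hb0 | hb0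
    · obtain ⟨n, hn⟩ := Int.eq_ofNat_of_zero_le hb0
      rcases le_total g n with hgn | hgn
      · obtain ⟨k, rfl⟩ := Nat.exists_eq_add_of_le hgn
        have h1 := seg_add F p d g k hd
        rw [← hn, ← hr, ← hq] at h1
        rw [seg_anti hF p r]
        linarith
      · obtain ⟨k, hk⟩ := Nat.exists_eq_add_of_le hgn
        have h1 := seg_add F p d n k hd
        rw [← hk, ← hn, ← hr, ← hq] at h1
        rw [seg_anti hF r q, seg_anti hF p r]
        linarith
    · obtain ⟨n, hn⟩ := Int.eq_ofNat_of_zero_le (neg_nonneg.2 hb0)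
      have h1 := seg_add F r d n g hd
      have e1 : r + (n : ℤ) • d = p := by
        rw [← hn, hr]; module
      have e2 : r + ((n + g : ℕ) : ℤ) • d = q := by
        push_cast
        rw [← hn, hr, hq]; module
      rw [e1, e2] at h1
      rw [seg_anti hF r q]
      linarith

/-- the cochain -/
noncomputable def theta (η : Fin 3 → Fin 3 → ℝ) (G : Z3 → Z3 → ℝ) (κ : ℝ) (p q : Z3) : ℝ :=
  G q p - G p q - κ / om η p q

theorem theta_anti (G : Z3 → Z3 → ℝ) (κ : ℝ) (p q : Z3) :
    theta η G κ q p = - theta η G κ p q := by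
  simp only [theta]
  rw [om_anti η p q, div_neg]
  ring

theorem inc_sum {x y z : ℝ} (hx : x ≠ 0) (hy : y ≠ 0) (hz : z ≠ 0)
    (h1 : ¬ (0 < x ∧ 0 < y ∧ 0 < z)) (h2 : ¬ (x < 0 ∧ y < 0 ∧ z < 0)) :
    inc x (-z) + inc y (-x) + inc z (-y) - (x + y + z) * (1 / x + 1 / y + 1 / z) = 0 := by
  have key : ∀ a b c : ℝ, a + b + c = 6 →
      (3 - a - (-z / x + x / -z)) + (3 - b - (-x / y + y / -x)) + (3 - c - (-y / z + z / -y)) -
        (x + y + z) * (1 / x + 1 / y + 1 / z) = 0 := by
    intro a b c habc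
    have h3 : c = 6 - a - b := by linarith
    subst h3
    field_simp
    ring
  simp only [inc]
  apply key
  rcases lt_or_gt_of_ne hx with px | px <;> rcases lt_or_gt_of_ne hy with py | py <;>
    rcases lt_or_gt_of_ne hz with pz | pz
  · exact absurd ⟨px, py, pz⟩ h2
  · rw [if_neg (by nlinarith), if_pos (by nlinarith), if_neg (by nlinarith)]; norm_num
  · rw [if_pos (by nlinarith), if_neg (by nlinarith), if_neg (by nlinarith)]; norm_num
  · rw [if_neg (by nlinarith), if_neg (by nlinarith), if_pos (by nlinarith)]; norm_num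
  · rw [if_neg (by nlinarith), if_neg (by nlinarith), if_pos (by nlinarith)]; norm_num
  · rw [if_pos (by nlinarith), if_neg (by nlinarith), if_neg (by nlinarith)]; norm_num
  · rw [if_neg (by nlinarith), if_pos (by nlinarith), if_neg (by nlinarith)]; norm_num
  · exact absurd ⟨px, py, pz⟩ h1

/-- the potential relation -/
def IsPot (η : Fin 3 → Fin 3 → ℝ) (G : Z3 → Z3 → ℝ) : Prop :=
  ∀ p q q', dt p q q' = 1 → G p q' - G p q = inc (om η p q) (om η p q')

theorem theta_uni (hC : Cone η) {G : Z3 → Z3 → ℝ} (hG : IsPot η G) {ℓ p q r : Z3}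
    (pp : Pos η p) (pq : Pos η q) (pr : Pos η r)
    (lp : lf (rc ℓ) p = 1) (lq : lf (rc ℓ) q = 1) (lr : lf (rc ℓ) r = 1) (h : dt p q r = 1) :
    theta η G (kl η (rc ℓ)) p q + theta η G (kl η (rc ℓ)) q r +
      theta η G (kl η (rc ℓ)) r p = 0 := by
  have c1 : dt q r p = 1 := by rw [dt_cyc p q r, h]
  have c2 : dt r p q = 1 := by rw [dt_cyc q r p, c1]
  have hκ := kl_eq η p q r (rc ℓ)
  rw [lp, lq, lr, h] at hκ
  simp only [Int.cast_one, one_mul, mul_one] at hκ
  have g1 := hG p q r h
  have g2 := hG q r p c1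
  have g3 := hG r p q c2
  have a1 := om_anti η r p
  have a2 := om_anti η p q
  have a3 := om_anti η q r
  rw [a1] at g1
  rw [a2] at g2
  rw [a3] at g3
  have n1 : om η p q ≠ 0 := hC.om_ne p q r (by rw [h]; norm_num)
  have n2 : om η q r ≠ 0 := hC.om_ne q r p (by rw [c1]; norm_num)
  have n3 : om η r p ≠ 0 := hC.om_ne r p q (by rw [c2]; norm_num)
  have mix : yy η 0 p * om η q r + yy η 0 q * om η r p + yy η 0 r * om η p q = 0 := by
    simp only [om]; ring
  have p0 := pp 0
  have q0 := pq 0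
  have r0 := pr 0
  have hs := inc_sum n1 n2 n3
    (by
      rintro ⟨h1, h2, h3⟩
      have := mul_pos p0 h2
      have := mul_pos q0 h3
      have := mul_pos r0 h1
      linarith)
    (by
      rintro ⟨h1, h2, h3⟩
      have := mul_neg_of_pos_of_neg p0 h2
      have := mul_neg_of_pos_of_neg q0 h3
      have := mul_neg_of_pos_of_neg r0 h1
      linarith)
  simp only [theta]
  rw [hκ]
  have e : (om η q r + om η r p + om η p q) / om η p q +
      (om η q r + om η r p + om η p q) / om η q r + (om η q r + om η r p + om η p q) / om η r p =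
      (om η p q + om η q r + om η r p) * (1 / om η p q + 1 / om η q r + 1 / om η r p) := by
    ring
  linarith

theorem prim_of_dt {p q r : Z3} (h : dt p q r = 1) : Prim (q - p) := by
  refine ⟨![r 1 * p 2 - r 2 * p 1, r 2 * p 0 - r 0 * p 2, r 0 * p 1 - r 1 * p 0], ?_⟩
  rw [← h]
  simp only [dt, Matrix.cons_val_zero, Matrix.cons_val_one, Matrix.cons_val, Pi.sub_apply]
  ring

theorem seg_prim (F : Z3 → Z3 → ℝ) {p q : Z3} (h : Prim (q - p)) : seg F p q = F p q := by
  have h1 := seg_eq F p (q - p) 1 h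
  have e : p + ((1 : ℕ) : ℤ) • (q - p) = q := by simp
  rw [e] at h1
  rw [h1]
  simp

/-- a non-unimodular triangle in an integral plane contains another lattice point -/
theorem exists_inner {ℓ p q r : Z3} (lp : lf (rc ℓ) p = 1) (lq : lf (rc ℓ) q = 1)
    (lr : lf (rc ℓ) r = 1) (h : 2 ≤ dt p q r) : ∃ x, lf (rc ℓ) x = 1 ∧ 0 ≤ dt x q r ∧
      0 ≤ dt p x r ∧ 0 ≤ dt p q x ∧ x ≠ p ∧ x ≠ q ∧ x ≠ r := by
  by_contra hcon
  push Not at hcon
  have hgen := empty_generates lp lq lr (by omega) (fun x h1 h2 h3 h4 => by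
    by_contra hne
    push Not at hne
    exact hne.2.2 (hcon x h1 h2 h3 h4 hne.1 hne.2.1))
  have hspan : ∀ z : Z3, ∃ α β γ : ℤ, z = α • p + β • q + γ • r := by
    intro z
    set n := ℓ 0 * z 0 + ℓ 1 * z 1 + ℓ 2 * z 2 with hn
    have hz : lf (rc ℓ) z = n := by
      simp only [lf, rc_apply, hn]
      push_cast
      ring
    obtain ⟨m, k, hmk⟩ := hgen (z + (1 - n) • p) (by
      rw [lf_add, lf_smul, lp, hz]
      push_cast
      ring)
    refine ⟨1 - m - k - (1 - n), m, k, ?_⟩
    calc z = (z + (1 - n) • p) - (1 - n) • p := by abel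
      _ = _ := by rw [hmk]; module
  have hdvd : ∀ x y z : Z3, dt p q r ∣ dt x y z := by
    intro x y z
    obtain ⟨a1, b1, c1, rfl⟩ := hspan x
    obtain ⟨a2, b2, c2, rfl⟩ := hspan y
    obtain ⟨a3, b3, c3, rfl⟩ := hspan z
    refine ⟨a1 * (b2 * c3 - c2 * b3) - b1 * (a2 * c3 - c2 * a3) + c1 * (a2 * b3 - b2 * a3), ?_⟩
    simp only [dt, Pi.add_apply, Pi.smul_apply, smul_eq_mul]
    ring
  have h1 := hdvd ![1, 0, 0] ![0, 1, 0] ![0, 0, 1]
  have h2 : dt (![1, 0, 0] : Z3) ![0, 1, 0] ![0, 0, 1] = 1 := by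
    simp [dt]
  rw [h2] at h1
  have := Int.le_of_dvd one_pos h1
  omega

/-- **Closedness.** -/
theorem closed (hC : Cone η) {G : Z3 → Z3 → ℝ} (hG : IsPot η G) {ℓ : Z3} :
    ∀ (N : ℕ) (p q r : Z3), Pos η p → Pos η q → Pos η r → lf (rc ℓ) p = 1 → lf (rc ℓ) q = 1 →
      lf (rc ℓ) r = 1 → 0 ≤ dt p q r → dt p q r ≤ N →
      seg (theta η G (kl η (rc ℓ))) p q + seg (theta η G (kl η (rc ℓ))) q r +
        seg (theta η G (kl η (rc ℓ))) r p = 0 := by
  intro N
  set F := theta η G (kl η (rc ℓ)) with hFdef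
  have hF : ∀ p q, F q p = - F p q := theta_anti G _
  induction N with
  | zero =>
    intro p q r _ _ _ lp lq lr h0 hN
    exact seg_collinear hF lp lq lr (by omega)
  | succ N ih =>
    intro p q r pp pq pr lp lq lr h0 hN
    rcases lt_trichotomy (dt p q r) 1 with h1 | h1 | h1
    · exact seg_collinear hF lp lq lr (by omega)
    · have c1 : dt q r p = 1 := by rw [dt_cyc p q r, h1]
      have c2 : dt r p q = 1 := by rw [dt_cyc q r p, c1]
      rw [seg_prim F (prim_of_dt h1), seg_prim F (prim_of_dt c1), seg_prim F (prim_of_dt c2)]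
      exact theta_uni hC hG pp pq pr lp lq lr h1
    · obtain ⟨x, lx, k1, k2, k3, n1, n2, n3⟩ := exists_inner lp lq lr (by omega)
      have px := pos_of_triangle lp lq lr lx pp pq pr (by omega) k1 k2 k3
      have hsum := plane4 lp lq lr lx
      have hcr := cramer p q r x
      have d1 : dt q r x = dt x q r := dt_cyc x q r
      have d2 : dt r p x = dt p x r := by
        have := dt_cyc r p x
        rw [← this]
      -- each subtriangle is smaller
      have s1 : dt p q x < dt p q r := by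
        rcases lt_or_eq_of_le (show dt p q x ≤ dt p q r by omega) with h | h
        · exact h
        · exfalso
          have z1 : dt x q r = 0 := by omega
          have z2 : dt p x r = 0 := by omega
          rw [z1, z2, h, zero_smul, zero_smul, zero_add, zero_add] at hcr
          exact n3 (smul_right_injective Z3 (by omega : dt p q r ≠ 0) hcr)
      have s2 : dt x q r < dt p q r := by
        rcases lt_or_eq_of_le (show dt x q r ≤ dt p q r by omega) with h | h
        · exact h
        · exfalso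
          have z1 : dt p q x = 0 := by omega
          have z2 : dt p x r = 0 := by omega
          rw [z1, z2, h, zero_smul, zero_smul, add_zero, add_zero] at hcr
          exact n1 (smul_right_injective Z3 (by omega : dt p q r ≠ 0) hcr)
      have s3 : dt p x r < dt p q r := by
        rcases lt_or_eq_of_le (show dt p x r ≤ dt p q r by omega) with h | h
        · exact h
        · exfalso
          have z1 : dt p q x = 0 := by omega
          have z2 : dt x q r = 0 := by omega
          rw [z1, z2, h, zero_smul, zero_smul, add_zero, zero_add] at hcr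
          exact n2 (smul_right_injective Z3 (by omega : dt p q r ≠ 0) hcr)
      have t1 := ih p q x pp pq px lp lq lx k3 (by omega)
      have t2 := ih q r x pq pr px lq lr lx (by omega) (by omega)
      have t3 := ih r p x pr pp px lr lp lx (by omega) (by omega)
      have a1 := seg_anti hF q x
      have a2 := seg_anti hF r x
      have a3 := seg_anti hF p x
      linarith

/-- the sum over the boundary of a quadrangle vanishes -/
theorem Quad.boundary (hC : Cone η) {G : Z3 → Z3 → ℝ} (hG : IsPot η G) {ℓ a b c d : Z3}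
    (h : Quad η ℓ a b c d) :
    seg (theta η G (kl η (rc ℓ))) a b + seg (theta η G (kl η (rc ℓ))) b c +
      seg (theta η G (kl η (rc ℓ))) c d + seg (theta η G (kl η (rc ℓ))) d a = 0 := by
  have hq := h.2.1
  have t1 := closed hC hG (ℓ := ℓ) (dt a b c).toNat a b c hq.pa hq.pb hq.pc hq.la hq.lb hq.lc
    hq.abc.le (by rw [Int.toNat_of_nonneg hq.abc.le])
  have t2 := closed hC hG (ℓ := ℓ) (dt c d a).toNat c d a hq.pc hq.pd hq.pa hq.lc hq.ld hq.la
    hq.cda.le (by rw [Int.toNat_of_nonneg hq.cda.le])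
  have t3 := seg_anti (theta_anti (η := η) G (kl η (rc ℓ))) a c
  linarith

end Pool.Agent.Lib.MP_a785c8_co
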