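import Pool.Agent.Lib.MP_a785c8_co.Integral
import Mathlib.Data.Pi.Interval
import Mathlib.Data.Int.Interval
import Mathlib.Topology.Order.LocalExtr
import Mathlib.Topology.Instances.Real.Lemmas
import Mathlib.Analysis.SpecialFunctions.Pow.Real

/-!
The cone of an irreducible totally real operator, its group of symmetries, and rotation of
supporting planes.
-/

set_option autoImplicit false

namespace Pool.Agent.Lib.MP_a785c8_co

open Finset Filter Topology

/-- `f` is a unimodular symmetry with scaling factors `c` -/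
structure InGam (η : Fin 3 → Fin 3 → ℝ) (f : Z3 ≃+ Z3) (c : Fin 3 → ℝ) : Prop where
  pos : ∀ i, 0 < c i
  scale : ∀ i p, yy η i (f p) = c i * yy η i p
  det : ∀ p q r, dt (f p) (f q) (f r) = dt p q r

/-- the properties of the cone used in the proof -/
structure Cone (η : Fin 3 → Fin 3 → ℝ) : Prop where
  y_ne : ∀ i p, p ≠ 0 → yy η i p ≠ 0
  om_ne : ∀ p q r : Z3, dt p q r ≠ 0 → om η p q ≠ 0
  hη : dt (η 0) (η 1) (η 2) ≠ 0
  coco : ∃ R : ℝ, 1 ≤ R ∧ ∀ t : Fin 3 → ℝ, (∀ i, 0 < t i) → t 0 * t 1 * t 2 = 1 →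
    ∃ f c, InGam η f c ∧ ∀ i, 1 ≤ R * (c i * t i) ∧ c i * t i ≤ R

variable {η : Fin 3 → Fin 3 → ℝ}

/-- the form with coordinates `lam` -/
def comb (η : Fin 3 → Fin 3 → ℝ) (lam : Fin 3 → ℝ) : Fin 3 → ℝ :=
  fun j => lam 0 * η 0 j + lam 1 * η 1 j + lam 2 * η 2 j

theorem lf_comb (lam : Fin 3 → ℝ) (x : Z3) :
    lf (comb η lam) x = lam 0 * yy η 0 x + lam 1 * yy η 1 x + lam 2 * yy η 2 x := by
  simp only [lf, comb, yy]
  ring

theorem Cone.exists_comb (hC : Cone η) (w : Fin 3 → ℝ) : ∃ lam, w = comb η lam := by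
  have hη := hC.hη
  refine ⟨![dt w (η 1) (η 2) / dt (η 0) (η 1) (η 2), dt (η 0) w (η 2) / dt (η 0) (η 1) (η 2),
    dt (η 0) (η 1) w / dt (η 0) (η 1) (η 2)], ?_⟩
  have h := cramer (η 0) (η 1) (η 2) w
  ext j
  have hj := congrFun h j
  simp only [Pi.smul_apply, Pi.add_apply, smul_eq_mul] at hj
  simp only [comb, Matrix.cons_val_zero, Matrix.cons_val_one, Matrix.cons_val]
  field_simp
  linarith

/-- integer vectors with bounded forms are finitely many -/
theorem Cone.finite_bounded (hC : Cone η) (B : ℝ) :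
    {x : Z3 | ∀ i, |yy η i x| ≤ B}.Finite := by
  have hη := hC.hη
  set Δ := dt (η 0) (η 1) (η 2) with hΔ
  -- coordinates from the forms
  have hco : ∀ j : Fin 3, ∃ u : Fin 3 → ℝ, ∀ x : Z3,
      (x j : ℝ) = u 0 * yy η 0 x + u 1 * yy η 1 x + u 2 * yy η 2 x := by
    intro j
    obtain ⟨lam, hlam⟩ := hC.exists_comb (Pi.single j 1)
    refine ⟨lam, fun x => ?_⟩
    rw [← lf_comb, ← hlam]
    fin_cases j <;> simp [lf]
  choose u hu using hco
  obtain ⟨K, hK⟩ : ∃ K : ℕ, ∀ j, |B| * (|u j 0| + |u j 1| + |u j 2|) ≤ K := by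
    obtain ⟨K0, h0⟩ := exists_nat_ge (|B| * (|u 0 0| + |u 0 1| + |u 0 2|))
    obtain ⟨K1, h1⟩ := exists_nat_ge (|B| * (|u 1 0| + |u 1 1| + |u 1 2|))
    obtain ⟨K2, h2⟩ := exists_nat_ge (|B| * (|u 2 0| + |u 2 1| + |u 2 2|))
    refine ⟨K0 + K1 + K2, fun j => ?_⟩
    have n0 : (0 : ℝ) ≤ K0 := Nat.cast_nonneg _
    have n1 : (0 : ℝ) ≤ K1 := Nat.cast_nonneg _
    have n2 : (0 : ℝ) ≤ K2 := Nat.cast_nonneg _
    push_cast
    fin_cases j
    · simp only [Fin.zero_eta]; linarith
    · simp only [Fin.mk_one]; linarith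
    · simp only [Fin.reduceFinMk]; linarith
  apply (Set.finite_Icc (fun _ : Fin 3 => -(K : ℤ)) (fun _ => (K : ℤ))).subset
  intro x hx
  have hx' : ∀ i, |yy η i x| ≤ |B| := fun i => (hx i).trans (le_abs_self B)
  have key : ∀ j, |(x j : ℝ)| ≤ K := by
    intro j
    rw [hu j x]
    refine le_trans ?_ (hK j)
    calc |u j 0 * yy η 0 x + u j 1 * yy η 1 x + u j 2 * yy η 2 x|
        ≤ |u j 0 * yy η 0 x| + |u j 1 * yy η 1 x| + |u j 2 * yy η 2 x| := abs_add_three _ _ _
      _ ≤ |u j 0| * |B| + |u j 1| * |B| + |u j 2| * |B| := by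
          rw [abs_mul, abs_mul, abs_mul]
          have g0 := mul_le_mul_of_nonneg_left (hx' 0) (abs_nonneg (u j 0))
          have g1 := mul_le_mul_of_nonneg_left (hx' 1) (abs_nonneg (u j 1))
          have g2 := mul_le_mul_of_nonneg_left (hx' 2) (abs_nonneg (u j 2))
          linarith
      _ = _ := by ring
  constructor
  · intro j
    have := (abs_le.1 (key j)).1
    exact_mod_cast this
  · intro j
    have := (abs_le.1 (key j)).2
    exact_mod_cast this

/-- there is a positive integer vector -/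
theorem Cone.exists_pos (hC : Cone η) : ∃ x, Pos η x := by
  have hη := hC.hη
  -- a real vector where all forms are one
  obtain ⟨v, hv⟩ : ∃ v : Fin 3 → ℝ, ∀ i, η i 0 * v 0 + η i 1 * v 1 + η i 2 * v 2 = 1 := by
    set Δ := dt (η 0) (η 1) (η 2) with hΔ
    refine ⟨![(η 1 1 * η 2 2 - η 1 2 * η 2 1 - (η 0 1 * η 2 2 - η 0 2 * η 2 1) +
        (η 0 1 * η 1 2 - η 0 2 * η 1 1)) / Δ,
      -(η 1 0 * η 2 2 - η 1 2 * η 2 0 - (η 0 0 * η 2 2 - η 0 2 * η 2 0) +
        (η 0 0 * η 1 2 - η 0 2 * η 1 0)) / Δ,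
      (η 1 0 * η 2 1 - η 1 1 * η 2 0 - (η 0 0 * η 2 1 - η 0 1 * η 2 0) +
        (η 0 0 * η 1 1 - η 0 1 * η 1 0)) / Δ], ?_⟩
    intro i
    simp only [Matrix.cons_val_zero, Matrix.cons_val_one, Matrix.cons_val]
    rw [← mul_div_assoc, ← mul_div_assoc, ← mul_div_assoc, ← add_div, ← add_div,
      div_eq_one_iff_eq hη, hΔ]
    fin_cases i
    · simp only [Fin.zero_eta, dt]; ring
    · simp only [Fin.mk_one, dt]; ring
    · simp only [Fin.reduceFinMk, dt]; ring
  obtain ⟨N, hN⟩ : ∃ N : ℕ, ∀ i, |η i 0| + |η i 1| + |η i 2| < N := by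
    obtain ⟨K0, h0⟩ := exists_nat_gt (|η 0 0| + |η 0 1| + |η 0 2|)
    obtain ⟨K1, h1⟩ := exists_nat_gt (|η 1 0| + |η 1 1| + |η 1 2|)
    obtain ⟨K2, h2⟩ := exists_nat_gt (|η 2 0| + |η 2 1| + |η 2 2|)
    refine ⟨K0 + K1 + K2, fun j => ?_⟩
    have n0 : (0 : ℝ) ≤ K0 := Nat.cast_nonneg _
    have n1 : (0 : ℝ) ≤ K1 := Nat.cast_nonneg _
    have n2 : (0 : ℝ) ≤ K2 := Nat.cast_nonneg _
    push_cast
    fin_cases j
    · simp only [Fin.zero_eta]; linarith
    · simp only [Fin.mk_one]; linarith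
    · simp only [Fin.reduceFinMk]; linarith
  refine ⟨fun j => ⌊N * v j⌋, fun i => ?_⟩
  have hfl : ∀ j, |(N : ℝ) * v j - ⌊(N : ℝ) * v j⌋| ≤ 1 := by
    intro j
    rw [abs_of_nonneg (sub_nonneg.2 (Int.floor_le _))]
    linarith [Int.lt_floor_add_one ((N : ℝ) * v j)]
  have e : yy η i (fun j => ⌊(N : ℝ) * v j⌋) = N -
      (η i 0 * (N * v 0 - ⌊(N : ℝ) * v 0⌋) + η i 1 * (N * v 1 - ⌊(N : ℝ) * v 1⌋) +
      η i 2 * (N * v 2 - ⌊(N : ℝ) * v 2⌋)) := by
    have := congrArg (fun z => (N : ℝ) * z) (hv i)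
    simp only [mul_one] at this
    simp only [yy, lf]
    linarith
  rw [e]
  have hb : η i 0 * (N * v 0 - ⌊(N : ℝ) * v 0⌋) + η i 1 * (N * v 1 - ⌊(N : ℝ) * v 1⌋) +
      η i 2 * (N * v 2 - ⌊(N : ℝ) * v 2⌋) ≤ |η i 0| + |η i 1| + |η i 2| := by
    have q : ∀ j, η i j * (N * v j - ⌊(N : ℝ) * v j⌋) ≤ |η i j| := by
      intro j
      calc η i j * (N * v j - ⌊(N : ℝ) * v j⌋) ≤ |η i j * (N * v j - ⌊(N : ℝ) * v j⌋)| :=
            le_abs_self _
        _ = |η i j| * |(N : ℝ) * v j - ⌊(N : ℝ) * v j⌋| := abs_mul _ _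
        _ ≤ |η i j| * 1 := mul_le_mul_of_nonneg_left (hfl j) (abs_nonneg _)
        _ = |η i j| := mul_one _
    linarith [q 0, q 1, q 2]
  linarith [hN i]

/-- a form which is at least one on the positive integer vectors has positive coordinates -/
theorem Cone.coord_pos (hC : Cone η) {lam : Fin 3 → ℝ}
    (hmin : ∀ x, Pos η x → 1 ≤ lf (comb η lam) x) (i : Fin 3) : 0 < lam i := by
  obtain ⟨x0, hx0⟩ := hC.exists_pos
  obtain ⟨R, hR1, hR⟩ := hC.coco
  by_contra hcon
  push Not at hcon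
  set K := R * (|lam 0| * yy η 0 x0 + |lam 1| * yy η 1 x0 + |lam 2| * yy η 2 x0) with hK
  have hK0 : 0 ≤ K := by
    have h0 := (hx0 0).le
    have h1 := (hx0 1).le
    have h2 := (hx0 2).le
    positivity
  set ε := 1 / (K + 2) with hε
  have hε0 : 0 < ε := by positivity
  have hεK : ε * K < 1 := by
    rw [hε, one_div, inv_mul_lt_iff₀ (by positivity)]
    linarith
  obtain ⟨f, c, hf, hc⟩ := hR (fun j => if j = i then ε ^ 2 else 1 / ε) (by
    intro j
    split_ifs <;> positivity) (by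
    have e20 : ¬ (2 : Fin 3) = 0 := by decide
    have e21 : ¬ (2 : Fin 3) = 1 := by decide
    have e10 : ¬ (1 : Fin 3) = 0 := by decide
    have e01 : ¬ (0 : Fin 3) = 1 := by decide
    have e02 : ¬ (0 : Fin 3) = 2 := by decide
    have e12 : ¬ (1 : Fin 3) = 2 := by decide
    have hne := hε0.ne'
    have hi : i = 0 ∨ i = 1 ∨ i = 2 := by
      have : ∀ i : Fin 3, i = 0 ∨ i = 1 ∨ i = 2 := by decide
      exact this i
    rcases hi with rfl | rfl | rfl
    · rw [if_pos rfl, if_neg e10, if_neg e20]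
      field_simp
    · rw [if_neg e01, if_pos rfl, if_neg e21]
      field_simp
    · rw [if_neg e02, if_neg e12, if_pos rfl]
      field_simp)
  have hb : ∀ j, j ≠ i → c j ≤ R * ε := by
    intro j hj
    have := (hc j).2
    simp only [if_neg hj] at this
    rw [mul_one_div, div_le_iff₀ hε0] at this
    exact this
  have hpos : Pos η (f x0) := by
    intro j
    rw [hf.scale]
    exact mul_pos (hf.pos j) (hx0 j)
  have h1 := hmin _ hpos
  rw [lf_comb, hf.scale, hf.scale, hf.scale] at h1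
  have hterm : ∀ j, lam j * (c j * yy η j x0) ≤ ε * (R * (|lam j| * yy η j x0)) := by
    intro j
    have hy := hx0 j
    have hcj := hf.pos j
    by_cases hj : j = i
    · subst hj
      have h2 : lam j * (c j * yy η j x0) ≤ 0 :=
        mul_nonpos_of_nonpos_of_nonneg hcon (by positivity)
      have h3 : 0 ≤ ε * (R * (|lam j| * yy η j x0)) := by positivity
      linarith
    · have h2 := hb j hj
      calc lam j * (c j * yy η j x0) ≤ |lam j| * (c j * yy η j x0) := by
            gcongr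
            exact le_abs_self _
        _ ≤ |lam j| * ((R * ε) * yy η j x0) := by gcongr
        _ = ε * (R * (|lam j| * yy η j x0)) := by ring
  have hsum : ε * (R * (|lam 0| * yy η 0 x0)) + ε * (R * (|lam 1| * yy η 1 x0)) +
      ε * (R * (|lam 2| * yy η 2 x0)) = ε * K := by rw [hK]; ring
  linarith [hterm 0, hterm 1, hterm 2]

/-- bounded values of a form with positive coordinates -/
theorem Cone.finite_sub (hC : Cone η) {nu : Fin 3 → ℝ} (hnu : ∀ i, 0 < nu i) (B : ℝ) :
    {x : Z3 | Pos η x ∧ lf (comb η nu) x ≤ B}.Finite := by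
  apply (hC.finite_bounded (B / nu 0 + B / nu 1 + B / nu 2)).subset
  rintro x ⟨hx, hB⟩ i
  rw [lf_comb] at hB
  have h0 := hx 0
  have h1 := hx 1
  have h2 := hx 2
  have p0 := mul_pos (hnu 0) h0
  have p1 := mul_pos (hnu 1) h1
  have p2 := mul_pos (hnu 2) h2
  have hB0 : 0 ≤ B := by linarith
  have q0 := div_nonneg hB0 (hnu 0).le
  have q1 := div_nonneg hB0 (hnu 1).le
  have q2 := div_nonneg hB0 (hnu 2).le
  rw [abs_of_pos (hx i)]
  have key : ∀ j, nu j * yy η j x ≤ B → yy η j x ≤ B / nu j := by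
    intro j hj
    rw [le_div_iff₀ (hnu j)]
    linarith
  fin_cases i
  · have := key 0 (by linarith)
    simp only [Fin.zero_eta]
    linarith
  · have := key 1 (by linarith)
    simp only [Fin.mk_one]
    linarith
  · have := key 2 (by linarith)
    simp only [Fin.reduceFinMk]
    linarith

/-- **Rotation.** -/
theorem Cone.rotate (hC : Cone η) {lam mu : Fin 3 → ℝ}
    (hmin : ∀ x, Pos η x → 1 ≤ lf (comb η lam) x) (hmu : ∃ i, mu i < 0) :
    ∃ t : ℝ, 0 ≤ t ∧ (∀ x, Pos η x → 1 ≤ lf (comb η lam) x + t * lf (comb η mu) x) ∧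
      ∃ x, Pos η x ∧ lf (comb η mu) x < 0 ∧ lf (comb η lam) x + t * lf (comb η mu) x = 1 := by
  classical
  set A : Set ℝ := {t | 0 ≤ t ∧ ∀ x, Pos η x → 1 ≤ lf (comb η lam) x + t * lf (comb η mu) x}
    with hA
  have hadd : ∀ (t : ℝ) (x : Z3), lf (comb η lam) x + t * lf (comb η mu) x =
      lf (comb η (fun i => lam i + t * mu i)) x := by
    intro t x
    simp only [lf_comb]
    ring
  have hA0 : (0 : ℝ) ∈ A := ⟨le_rfl, fun x hx => by rw [zero_mul, add_zero]; exact hmin x hx⟩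
  have hApos : ∀ t ∈ A, ∀ i, 0 < lam i + t * mu i := by
    intro t ht
    apply hC.coord_pos
    intro x hx
    rw [← hadd]
    exact ht.2 x hx
  have hbdd : BddAbove A := by
    obtain ⟨i, hi⟩ := hmu
    refine ⟨lam i / (-mu i), fun t ht => ?_⟩
    have := hApos t ht i
    rw [le_div_iff₀ (by linarith)]
    linarith
  set T := sSup A with hT
  have hT0 : 0 ≤ T := le_csSup hbdd hA0
  have hTA : T ∈ A := by
    refine ⟨hT0, fun x hx => ?_⟩
    rcases le_or_gt 0 (lf (comb η mu) x) with h | h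
    · have := hmin x hx
      have := mul_nonneg hT0 h
      linarith
    · have h1 : T ≤ (lf (comb η lam) x - 1) / (-lf (comb η mu) x) := by
        apply csSup_le ⟨0, hA0⟩
        intro t ht
        have := ht.2 x hx
        rw [le_div_iff₀ (by linarith)]
        linarith
      rw [le_div_iff₀ (by linarith)] at h1
      linarith
  refine ⟨T, hT0, hTA.2, ?_⟩
  by_contra hcon
  push Not at hcon
  have hcon' : ∀ x, Pos η x → lf (comb η mu) x < 0 → 1 < lf (comb η lam) x +
      T * lf (comb η mu) x := by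
    intro x hx h
    exact lt_of_le_of_ne (hTA.2 x hx) (Ne.symm (hcon x hx h))
  set nu : Fin 3 → ℝ := fun i => lam i + T * mu i with hnu
  have hnupos : ∀ i, 0 < nu i := hApos T hTA
  have hE := hC.finite_sub (nu := fun i => nu i / 2) (fun i => half_pos (hnupos i)) 1
  set E := {x : Z3 | Pos η x ∧ lf (comb η (fun i => nu i / 2)) x ≤ 1} with hEdef
  have h1 : ∀ᶠ s in 𝓝[>] (0 : ℝ), ∀ i, nu i / 2 ≤ nu i + s * mu i := by
    rw [eventually_all]
    intro i
    have hcont : Tendsto (fun s : ℝ => nu i + s * mu i) (𝓝[>] 0) (𝓝 (nu i)) := by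
      have : Tendsto (fun s : ℝ => nu i + s * mu i) (𝓝 0) (𝓝 (nu i + 0 * mu i)) :=
        tendsto_const_nhds.add (tendsto_id.mul_const _)
      rw [zero_mul, add_zero] at this
      exact this.mono_left nhdsWithin_le_nhds
    have := hcont.eventually_const_lt (show nu i / 2 < nu i by linarith [hnupos i])
    filter_upwards [this] with s hs using hs.le
  have h2 : ∀ᶠ s in 𝓝[>] (0 : ℝ), ∀ x ∈ E, 1 ≤ lf (comb η lam) x + (T + s) *
      lf (comb η mu) x := by
    rw [hE.eventually_all]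
    intro x hx
    rcases le_or_gt 0 (lf (comb η mu) x) with h | h
    · filter_upwards [self_mem_nhdsWithin] with s hs
      have h3 := hTA.2 x hx.1
      have h4 := mul_nonneg (le_of_lt hs) h
      have h5 : (T + s) * lf (comb η mu) x = T * lf (comb η mu) x + s * lf (comb η mu) x := by
        ring
      rw [h5]
      linarith
    · have h3 := hcon' x hx.1 h
      have hcont : Tendsto (fun s : ℝ => lf (comb η lam) x + (T + s) * lf (comb η mu) x)
          (𝓝[>] 0) (𝓝 (lf (comb η lam) x + T * lf (comb η mu) x)) := by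
        have : Tendsto (fun s : ℝ => lf (comb η lam) x + (T + s) * lf (comb η mu) x) (𝓝 0)
            (𝓝 (lf (comb η lam) x + (T + 0) * lf (comb η mu) x)) :=
          tendsto_const_nhds.add ((tendsto_const_nhds.add tendsto_id).mul_const _)
        rw [add_zero] at this
        exact this.mono_left nhdsWithin_le_nhds
      have := hcont.eventually_const_lt h3
      filter_upwards [this] with s hs using hs.le
  obtain ⟨s, ⟨hs1, hs2⟩, hs0⟩ := ((h1.and h2).and self_mem_nhdsWithin).exists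
  have hs0' : (0 : ℝ) < s := hs0
  have hnot : T + s ∉ A := fun h => by
    have := le_csSup hbdd h
    linarith
  apply hnot
  refine ⟨by linarith, fun x hx => ?_⟩
  by_contra hlt
  push Not at hlt
  have hxE : x ∈ E := by
    refine ⟨hx, ?_⟩
    have h3 : lf (comb η (fun i => nu i / 2)) x ≤ lf (comb η lam) x + (T + s) *
        lf (comb η mu) x := by
      rw [hadd, lf_comb, lf_comb]
      have e : ∀ i, lam i + (T + s) * mu i = nu i + s * mu i := by
        intro i
        simp only [hnu]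
        ring
      simp only [e]
      have g0 := mul_le_mul_of_nonneg_right (hs1 0) (hx 0).le
      have g1 := mul_le_mul_of_nonneg_right (hs1 1) (hx 1).le
      have g2 := mul_le_mul_of_nonneg_right (hs1 2) (hx 2).le
      linarith
    linarith
  have := hs2 x hxE
  linarith

end Pool.Agent.Lib.MP_a785c8_co
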