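import Pool.Agent.Lib.MP_a785c8_co.Potential

/-!
Determinants of triples of vectors, linear forms and the form `om` on pairs.
-/

set_option autoImplicit false

namespace Pool.Agent.Lib.MP_a785c8_co

open Finset

/-- integer vectors -/
abbrev Z3 : Type := Fin 3 → ℤ

/-- the determinant of three vectors -/
def dt {R : Type} [CommRing R] (a b c : Fin 3 → R) : R :=
  a 0 * (b 1 * c 2 - b 2 * c 1) - a 1 * (b 0 * c 2 - b 2 * c 0) + a 2 * (b 0 * c 1 - b 1 * c 0)

section Ring

variable {R : Type} [CommRing R] (a b c d p q r s : Fin 3 → R) (k : R)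

theorem dt_cyc : dt b c a = dt a b c := by simp only [dt]; ring
theorem dt_swap : dt b a c = - dt a b c := by simp only [dt]; ring
theorem dt_swap' : dt a c b = - dt a b c := by simp only [dt]; ring
@[simp] theorem dt_self1 : dt a a b = 0 := by simp only [dt]; ring
@[simp] theorem dt_self2 : dt a b b = 0 := by simp only [dt]; ring
@[simp] theorem dt_self3 : dt a b a = 0 := by simp only [dt]; ring

theorem dt_add3 : dt a b (c + d) = dt a b c + dt a b d := by
  simp only [dt, Pi.add_apply]; ring
theorem dt_sub3 : dt a b (c - d) = dt a b c - dt a b d := by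
  simp only [dt, Pi.sub_apply]; ring
theorem dt_neg3 : dt a b (-c) = - dt a b c := by
  simp only [dt, Pi.neg_apply]; ring
theorem dt_smul3 : dt a b (k • c) = k * dt a b c := by
  simp only [dt, Pi.smul_apply, smul_eq_mul]; ring
theorem dt_add2 : dt a (b + d) c = dt a b c + dt a d c := by
  simp only [dt, Pi.add_apply]; ring
theorem dt_sub2 : dt a (b - d) c = dt a b c - dt a d c := by
  simp only [dt, Pi.sub_apply]; ring
theorem dt_smul2 : dt a (k • b) c = k * dt a b c := by
  simp only [dt, Pi.smul_apply, smul_eq_mul]; ring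
theorem dt_add1 : dt (a + d) b c = dt a b c + dt d b c := by
  simp only [dt, Pi.add_apply]; ring
theorem dt_sub1 : dt (a - d) b c = dt a b c - dt d b c := by
  simp only [dt, Pi.sub_apply]; ring
theorem dt_smul1 : dt (k • a) b c = k * dt a b c := by
  simp only [dt, Pi.smul_apply, smul_eq_mul]; ring

theorem ext3 {a b : Fin 3 → R} (h0 : a 0 = b 0) (h1 : a 1 = b 1) (h2 : a 2 = b 2) : a = b := by
  ext i
  fin_cases i
  · exact h0
  · exact h1
  · exact h2

/-- Cramer's rule -/
theorem cramer (x : Fin 3 → R) :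
    dt a b c • x = dt x b c • a + dt a x c • b + dt a b x • c := by
  apply ext3 <;> simp only [dt, Pi.add_apply, Pi.smul_apply, smul_eq_mul] <;> ring

/-- the Plücker relation -/
theorem plucker : dt p q r * dt p a b = dt p q b * dt p a r - dt p r b * dt p a q := by
  simp only [dt]; ring

end Ring

/-- real vectors of integer vectors -/
def rc (p : Z3) : Fin 3 → ℝ := fun i => (p i : ℝ)

@[simp] theorem rc_apply (p : Z3) (i : Fin 3) : rc p i = (p i : ℝ) := rfl

theorem dt_rc (a b c : Z3) : dt (rc a) (rc b) (rc c) = ((dt a b c : ℤ) : ℝ) := by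
  simp only [dt, rc_apply]
  push_cast
  ring

theorem rc_inj {a b : Z3} (h : rc a = rc b) : a = b := by
  ext i
  have := congrFun h i
  simp only [rc_apply] at this
  exact_mod_cast this

theorem rc_add (a b : Z3) : rc (a + b) = rc a + rc b := by ext i; simp
theorem rc_sub (a b : Z3) : rc (a - b) = rc a - rc b := by ext i; simp
theorem rc_smul (k : ℤ) (a : Z3) : rc (k • a) = (k : ℝ) • rc a := by ext i; simp
theorem rc_zero : rc 0 = 0 := by ext i; simp

/-- linear forms -/
def lf (w : Fin 3 → ℝ) (p : Z3) : ℝ := w 0 * p 0 + w 1 * p 1 + w 2 * p 2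

section Form
variable (w w' : Fin 3 → ℝ) (p q r s : Z3) (k : ℤ)

theorem lf_add : lf w (p + q) = lf w p + lf w q := by
  simp only [lf, Pi.add_apply]; push_cast; ring
theorem lf_sub : lf w (p - q) = lf w p - lf w q := by
  simp only [lf, Pi.sub_apply]; push_cast; ring
theorem lf_smul : lf w (k • p) = k * lf w p := by
  simp only [lf, Pi.smul_apply, smul_eq_mul]; push_cast; ring
@[simp] theorem lf_zero : lf w 0 = 0 := by simp [lf]
theorem lf_neg : lf w (-p) = - lf w p := by
  simp only [lf, Pi.neg_apply]; push_cast; ring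

/-- Cramer's rule for a linear form -/
theorem lf_cramer (x : Z3) : ((dt p q r : ℤ) : ℝ) * lf w x =
    ((dt x q r : ℤ) : ℝ) * lf w p + ((dt p x r : ℤ) : ℝ) * lf w q + ((dt p q x : ℤ) : ℝ) * lf w r := by
  simp only [lf, dt]
  push_cast
  ring

end Form

/-- the three linear forms -/
abbrev yy (η : Fin 3 → Fin 3 → ℝ) (i : Fin 3) (p : Z3) : ℝ := lf (η i) p

/-- the form on pairs -/
def om (η : Fin 3 → Fin 3 → ℝ) (p q : Z3) : ℝ := yy η 0 p * yy η 1 q - yy η 0 q * yy η 1 p

/-- the cross product of the first two forms -/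
def kap (η : Fin 3 → Fin 3 → ℝ) : Fin 3 → ℝ :=
  ![η 0 1 * η 1 2 - η 0 2 * η 1 1, η 0 2 * η 1 0 - η 0 0 * η 1 2,
    η 0 0 * η 1 1 - η 0 1 * η 1 0]

section Om
variable (η : Fin 3 → Fin 3 → ℝ) (p q r s e f : Z3) (w : Fin 3 → ℝ)

theorem om_anti : om η q p = - om η p q := by simp only [om]; ring

theorem om_add_right : om η p (q + r) = om η p q + om η p r := by
  simp only [om, yy, lf_add]; ring

theorem om_self : om η p p = 0 := by simp only [om]; ring

theorem om_smul_right (k : ℤ) : om η p (k • q) = k * om η p q := by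
  simp only [om, yy, lf_smul]; ring

/-- value of a real form at the cross product -/
def kl (η : Fin 3 → Fin 3 → ℝ) (w : Fin 3 → ℝ) : ℝ :=
  w 0 * kap η 0 + w 1 * kap η 1 + w 2 * kap η 2

theorem kl_eq : ((dt p q r : ℤ) : ℝ) * kl η w =
    om η q r * lf w p + om η r p * lf w q + om η p q * lf w r := by
  simp only [kl, kap, om, yy, lf, dt, Matrix.cons_val_zero, Matrix.cons_val_one, Matrix.cons_val]
  push_cast
  ring

theorem om_plane : om η p q * ((dt p e f : ℤ) : ℝ) =
    ((dt p q f : ℤ) : ℝ) * om η p e + ((dt p e q : ℤ) : ℝ) * om η p f := by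
  simp only [om, yy, lf, dt]
  push_cast
  ring

end Om

end Pool.Agent.Lib.MP_a785c8_co
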