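import Pool.Agent.Lib.MP_a785c8_co.Units
import Mathlib.LinearAlgebra.Matrix.NonsingularInverse
import Mathlib.LinearAlgebra.Matrix.Charpoly.Basic
import Mathlib.LinearAlgebra.Matrix.Basis

/-!
The dual basis of a basis of real eigenvectors.
-/

set_option autoImplicit false

namespace Pool.Agent.Lib.MP_a785c8_co

open Finset Matrix

/-- a linear form on real vectors -/
def lr (w X : Fin 3 → ℝ) : ℝ := w 0 * X 0 + w 1 * X 1 + w 2 * X 2

theorem lr_rc (w : Fin 3 → ℝ) (p : Z3) : lr w (rc p) = lf w p := by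
  simp only [lr, lf, rc_apply]

theorem lr_dot (w X : Fin 3 → ℝ) : dotProduct w X = lr w X := by
  simp [dotProduct, lr, Fin.sum_univ_three]

/-- the integer cross product -/
def cz (p q : Z3) : Z3 :=
  ![p 1 * q 2 - p 2 * q 1, p 2 * q 0 - p 0 * q 2, p 0 * q 1 - p 1 * q 0]

theorem om_eq_lf (η : Fin 3 → Fin 3 → ℝ) (p q : Z3) : om η p q = lf (kap η) (cz p q) := by
  simp only [om, yy, lf, kap, cz, Matrix.cons_val_zero, Matrix.cons_val_one, Matrix.cons_val]
  push_cast
  ring

theorem cz_ne {p q r : Z3} (h : dt p q r ≠ 0) : cz p q ≠ 0 := by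
  intro h0
  apply h
  have e0 := congrFun h0 0
  have e1 := congrFun h0 1
  have e2 := congrFun h0 2
  simp only [cz, Matrix.cons_val_zero, Matrix.cons_val_one, Matrix.cons_val, Pi.zero_apply]
    at e0 e1 e2
  have : dt p q r = (p 1 * q 2 - p 2 * q 1) * r 0 + (p 2 * q 0 - p 0 * q 2) * r 1 +
      (p 0 * q 1 - p 1 * q 0) * r 2 := by
    simp only [dt]; ring
  rw [this, e0, e1, e2]
  ring

/-- existence of the dual basis -/
theorem exists_dual {A : Matrix (Fin 3) (Fin 3) ℤ} {v : Fin 3 → Fin 3 → ℝ} {μ : Fin 3 → ℝ}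
    (hirr : Irreducible (A.charpoly.map (Int.castRingHom ℚ))) (hli : LinearIndependent ℝ v)
    (heig : ∀ i, (A.map (fun a : ℤ => (a : ℝ))).mulVec (v i) = μ i • v i) :
    ∃ η : Fin 3 → Fin 3 → ℝ, Cone η ∧ (∀ t : Fin 3 → ℝ, ∀ i, lr (η i) (∑ j, t j • v j) = t i) ∧
      ∀ X : Fin 3 → ℝ, X = ∑ j, lr (η j) X • v j := by
  set V : Matrix (Fin 3) (Fin 3) ℝ := Matrix.of v with hV
  have hunit : IsUnit V := by
    rw [← Matrix.linearIndependent_rows_iff_isUnit]
    exact hli
  have hdetV : IsUnit V.det := (Matrix.isUnit_iff_isUnit_det V).1 hunit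
  set W : Matrix (Fin 3) (Fin 3) ℝ := V⁻¹ with hW
  have hVW : V * W = 1 := Matrix.mul_nonsing_inv V hdetV
  have hWV : W * V = 1 := Matrix.nonsing_inv_mul V hdetV
  set η : Fin 3 → Fin 3 → ℝ := fun i k => W k i with hη
  -- duality
  have hdual : ∀ i j, lr (η i) (v j) = if j = i then 1 else 0 := by
    intro i j
    have h := congrFun (congrFun hVW j) i
    rw [Matrix.mul_apply, Fin.sum_univ_three, Matrix.one_apply] at h
    rw [← h]
    simp only [lr, hη, hV, Matrix.of_apply]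
    ring
  have hdual' : ∀ k l, η 0 k * v 0 l + η 1 k * v 1 l + η 2 k * v 2 l = if k = l then 1 else 0 := by
    intro k l
    have h := congrFun (congrFun hWV k) l
    rw [Matrix.mul_apply, Fin.sum_univ_three, Matrix.one_apply] at h
    rw [← h]
    simp only [hη, hV, Matrix.of_apply]
  have hexp : ∀ (X : Fin 3 → ℝ) (l : Fin 3),
      X l = lr (η 0) X * v 0 l + lr (η 1) X * v 1 l + lr (η 2) X * v 2 l := by
    intro X l
    have h0 := hdual' 0 l
    have h1 := hdual' 1 l
    have h2 := hdual' 2 l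
    have e : lr (η 0) X * v 0 l + lr (η 1) X * v 1 l + lr (η 2) X * v 2 l =
        X 0 * (η 0 0 * v 0 l + η 1 0 * v 1 l + η 2 0 * v 2 l) +
        X 1 * (η 0 1 * v 0 l + η 1 1 * v 1 l + η 2 1 * v 2 l) +
        X 2 * (η 0 2 * v 0 l + η 1 2 * v 1 l + η 2 2 * v 2 l) := by
      simp only [lr]; ring
    rw [e, h0, h1, h2]
    fin_cases l <;> simp
  have hsum : ∀ t : Fin 3 → ℝ, ∀ i, lr (η i) (∑ j, t j • v j) = t i := by
    intro t i
    have e : lr (η i) (∑ j, t j • v j) =
        t 0 * lr (η i) (v 0) + t 1 * lr (η i) (v 1) + t 2 * lr (η i) (v 2) := by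
      simp only [lr, Fin.sum_univ_three, Pi.add_apply, Pi.smul_apply, smul_eq_mul]
      ring
    rw [e, hdual, hdual, hdual]
    fin_cases i <;> simp
  -- eigenforms
  set AR : Matrix (Fin 3) (Fin 3) ℝ := A.map (fun a : ℤ => (a : ℝ)) with hAR
  have hVA : V * ARᵀ = Matrix.diagonal μ * V := by
    ext i k
    have h := congrFun (heig i) k
    rw [Matrix.mul_apply, Matrix.diagonal_mul]
    simp only [Matrix.mulVec, dotProduct, Pi.smul_apply, smul_eq_mul] at h
    simp only [hV, Matrix.of_apply, Matrix.transpose_apply]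
    rw [← h]
    exact Finset.sum_congr rfl fun j _ => mul_comm _ _
  have hAW : ARᵀ * W = W * Matrix.diagonal μ := by
    calc ARᵀ * W = (W * V) * ARᵀ * W := by rw [hWV, Matrix.one_mul]
      _ = W * (V * ARᵀ) * W := by rw [Matrix.mul_assoc W V]
      _ = W * (Matrix.diagonal μ * V) * W := by rw [hVA]
      _ = W * Matrix.diagonal μ * (V * W) := by simp only [Matrix.mul_assoc]
      _ = W * Matrix.diagonal μ := by rw [hVW, Matrix.mul_one]
  have hAη : ∀ i j, (A 0 j : ℝ) * η i 0 + (A 1 j : ℝ) * η i 1 + (A 2 j : ℝ) * η i 2 =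
      μ i * η i j := by
    intro i j
    have h := congrFun (congrFun hAW j) i
    rw [Matrix.mul_apply, Fin.sum_univ_three, Matrix.mul_diagonal] at h
    simp only [Matrix.transpose_apply, hAR, Matrix.map_apply] at h
    simp only [hη]
    rw [h]
    ring
  have heigη : ∀ i (x : Z3), lf (η i) (A.mulVec x) = μ i * lf (η i) x := by
    intro i x
    have h0 := hAη i 0
    have h1 := hAη i 1
    have h2 := hAη i 2
    have e : lf (η i) (A.mulVec x) =
        ((A 0 0 : ℝ) * η i 0 + (A 1 0 : ℝ) * η i 1 + (A 2 0 : ℝ) * η i 2) * x 0 +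
        ((A 0 1 : ℝ) * η i 0 + (A 1 1 : ℝ) * η i 1 + (A 2 1 : ℝ) * η i 2) * x 1 +
        ((A 0 2 : ℝ) * η i 0 + (A 1 2 : ℝ) * η i 1 + (A 2 2 : ℝ) * η i 2) * x 2 := by
      simp only [lf, mulVec_apply3]
      push_cast
      ring
    rw [e, h0, h1, h2]
    simp only [lf]
    ring
  -- the determinant
  have hdt : dt (η 0) (η 1) (η 2) = Wᵀ.det := by
    rw [Matrix.det_fin_three]
    simp only [dt, hη, Matrix.transpose_apply]
    ring
  have hW0 : Wᵀ.det ≠ 0 := by
    rw [Matrix.det_transpose]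
    intro h0
    have h1 := congrArg Matrix.det hVW
    rw [Matrix.det_mul, h0, mul_zero, Matrix.det_one] at h1
    exact zero_ne_one h1
  have hη0 : dt (η 0) (η 1) (η 2) ≠ 0 := by rw [hdt]; exact hW0
  have hEig : Eig A η μ := ⟨hirr, heigη, hη0⟩
  -- the third eigenvector is a form for the transpose
  have hkap : ∀ l, kap η l = dt (η 0) (η 1) (η 2) * v 2 l := by
    intro l
    have h := hexp (kap η) l
    have e0 : lr (η 0) (kap η) = 0 := by
      simp only [lr, kap, Matrix.cons_val_zero, Matrix.cons_val_one, Matrix.cons_val]; ring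
    have e1 : lr (η 1) (kap η) = 0 := by
      simp only [lr, kap, Matrix.cons_val_zero, Matrix.cons_val_one, Matrix.cons_val]; ring
    have e2 : lr (η 2) (kap η) = dt (η 0) (η 1) (η 2) := by
      simp only [lr, kap, dt, Matrix.cons_val_zero, Matrix.cons_val_one, Matrix.cons_val]; ring
    rw [h, e0, e1, e2]
    ring
  have hv2 : v 2 ≠ 0 := hli.ne_zero 2
  have heigT : ∀ x : Z3, lf (v 2) (Aᵀ.mulVec x) = μ 2 * lf (v 2) x := by
    intro x
    have h0 := congrFun (heig 2) 0
    have h1 := congrFun (heig 2) 1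
    have h2 := congrFun (heig 2) 2
    simp only [mulVec_apply3, hAR, Matrix.map_apply, Pi.smul_apply, smul_eq_mul] at h0 h1 h2
    have e : lf (v 2) (Aᵀ.mulVec x) =
        ((A 0 0 : ℝ) * v 2 0 + (A 0 1 : ℝ) * v 2 1 + (A 0 2 : ℝ) * v 2 2) * x 0 +
        ((A 1 0 : ℝ) * v 2 0 + (A 1 1 : ℝ) * v 2 1 + (A 1 2 : ℝ) * v 2 2) * x 1 +
        ((A 2 0 : ℝ) * v 2 0 + (A 2 1 : ℝ) * v 2 1 + (A 2 2 : ℝ) * v 2 2) * x 2 := by
      simp only [lf, mulVec_apply3, Matrix.transpose_apply]
      push_cast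
      ring
    rw [e, h0, h1, h2]
    simp only [lf]
    ring
  have hirrT : Irreducible (Aᵀ.charpoly.map (Int.castRingHom ℚ)) := by
    rw [Matrix.charpoly_transpose]
    exact hirr
  have hom : ∀ p q r : Z3, dt p q r ≠ 0 → om η p q ≠ 0 := by
    intro p q r hpqr h0
    rw [om_eq_lf] at h0
    have e : lf (kap η) (cz p q) = dt (η 0) (η 1) (η 2) * lf (v 2) (cz p q) := by
      simp only [lf, hkap]
      ring
    rw [e] at h0
    rcases mul_eq_zero.1 h0 with h1 | h1
    · exact hη0 h1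
    · exact hv2 (form_eq_zero hirrT heigT (cz_ne hpqr) h1)
  refine ⟨η, ⟨fun i p hp => hEig.y_ne i hp, hom, hη0, cocompact hEig⟩, hsum, ?_⟩
  intro X
  ext l
  rw [Fin.sum_univ_three]
  simp only [Pi.add_apply, Pi.smul_apply, smul_eq_mul]
  exact hexp X l

end Pool.Agent.Lib.MP_a785c8_co
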