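import Pool.Agent.Lib.MP_a785c8_co.Closed

/-!
An equivariant potential, and the final double counting over the quotient.
-/

set_option autoImplicit false

namespace Pool.Agent.Lib.MP_a785c8_co

open Finset

variable {η : Fin 3 → Fin 3 → ℝ}

theorem InGam.refl (η : Fin 3 → Fin 3 → ℝ) : InGam η (AddEquiv.refl Z3) (fun _ => 1) :=
  ⟨fun _ => one_pos, fun i p => by simp, fun p q r => rfl⟩

theorem InGam.symm {f : Z3 ≃+ Z3} {c : Fin 3 → ℝ} (h : InGam η f c) :
    InGam η f.symm (fun i => (c i)⁻¹) := by
  refine ⟨fun i => inv_pos.2 (h.pos i), fun i p => ?_, fun p q r => ?_⟩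
  · have h1 := h.scale i (f.symm p)
    rw [AddEquiv.apply_symm_apply] at h1
    have := (h.pos i).ne'
    rw [h1]
    field_simp
  · have h1 := h.det (f.symm p) (f.symm q) (f.symm r)
    simp only [AddEquiv.apply_symm_apply] at h1
    exact h1.symm

theorem InGam.trans {f g : Z3 ≃+ Z3} {c d : Fin 3 → ℝ} (h : InGam η f c) (h' : InGam η g d) :
    InGam η (f.trans g) (fun i => d i * c i) := by
  refine ⟨fun i => mul_pos (h'.pos i) (h.pos i), fun i p => ?_, fun p q r => ?_⟩
  · rw [AddEquiv.trans_apply, h'.scale, h.scale]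
    ring
  · simp only [AddEquiv.trans_apply]
    rw [h'.det, h.det]

theorem InGam.free (hC : Cone η) {f g : Z3 ≃+ Z3} {c d : Fin 3 → ℝ} (h : InGam η f c)
    (h' : InGam η g d) {r : Z3} (hr : r ≠ 0) (hfg : f r = g r) (q : Z3) : f q = g q := by
  have hcd : c 0 = d 0 := by
    have h1 := h.scale 0 r
    have h2 := h'.scale 0 r
    rw [hfg, h2] at h1
    exact (mul_right_cancel₀ (hC.y_ne 0 r hr) h1).symm
  by_contra hne
  have h3 : f q - g q ≠ 0 := sub_ne_zero.2 hne
  apply hC.y_ne 0 _ h3
  show lf (η 0) (f q - g q) = 0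
  rw [lf_sub]
  have h1 := h.scale 0 q
  have h2 := h'.scale 0 q
  simp only [yy] at h1 h2
  rw [h1, h2, hcd, sub_self]

theorem InGam.om_map {f : Z3 ≃+ Z3} {c : Fin 3 → ℝ} (h : InGam η f c) (p q : Z3) :
    om η (f p) (f q) = c 0 * c 1 * om η p q := by
  simp only [om]
  rw [h.scale, h.scale, h.scale, h.scale]
  ring

/-- the relation of being in the same orbit -/
def orb (η : Fin 3 → Fin 3 → ℝ) : Setoid Z3 where
  r p q := ∃ f c, InGam η f c ∧ f p = q
  iseqv := by
    refine ⟨fun p => ⟨_, _, InGam.refl η, rfl⟩, ?_, ?_⟩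
    · rintro p q ⟨f, c, h, rfl⟩
      exact ⟨_, _, h.symm, by simp⟩
    · rintro p q r ⟨f, c, h, rfl⟩ ⟨g, d, h', rfl⟩
      exact ⟨_, _, h.trans h', by simp⟩

theorem inc_scale {k x y : ℝ} (hk : 0 < k) : inc (k * x) (k * y) = inc x y := by
  unfold inc
  have h1 : (k * x) * (k * y) < 0 ↔ x * y < 0 := by
    have : (k * x) * (k * y) = (k * k) * (x * y) := by ring
    rw [this]
    constructor
    · intro h
      by_contra hcon
      push Not at hcon
      have := mul_nonneg (mul_pos hk hk).le hcon
      linarith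
    · intro h
      exact mul_neg_of_pos_of_neg (mul_pos hk hk) h
  simp only [h1, mul_div_mul_left _ _ hk.ne']

theorem exists_pot_at (hC : Cone η) (p : Z3) : ∃ g : Z3 → ℝ, ∀ q q', dt p q q' = 1 →
    g q' - g q = inc (om η p q) (om η p q') := by
  by_cases hex : ∃ e f, dt p e f = 1
  · obtain ⟨e, f, hef⟩ := hex
    obtain ⟨G, hG⟩ := exists_plane_potential (om η p e) (om η p f) (by
      rintro ⟨a, b⟩ hab
      have h1 : om η p (a • e + b • f) = xi (om η p e) (om η p f) (a, b) := by
        rw [om_add_right, om_smul_right, om_smul_right]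
        simp only [xi]
      rw [← h1]
      by_cases ha : a = 0
      · have hb : b ≠ 0 := by
          rintro rfl
          exact hab (by rw [ha]; rfl)
        apply hC.om_ne p _ e
        rw [dt_add2, dt_smul2, dt_smul2, dt_self2, dt_swap' p e f, hef]
        simpa using hb
      · apply hC.om_ne p _ f
        rw [dt_add2, dt_smul2, dt_smul2, dt_self2, hef]
        simpa using ha)
    refine ⟨fun q => G (dt p q f, dt p e q), fun q q' hqq => ?_⟩
    have hx : ∀ q, xi (om η p e) (om η p f) (dt p q f, dt p e q) = om η p q := by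
      intro q
      have := om_plane η p q e f
      rw [hef, Int.cast_one, mul_one] at this
      simp only [xi]
      exact this.symm
    have := hG (dt p q f, dt p e q) (dt p q' f, dt p e q') (by
      have h1 := plucker e f p q q'
      rw [hqq, hef, mul_one] at h1
      simp only [d2]
      rw [h1]
      ring)
    rw [hx, hx] at this
    exact this
  · refine ⟨fun _ => 0, fun q q' h => ?_⟩
    exact absurd ⟨q, q', h⟩ hex

/-- **The equivariant potential.** -/
theorem exists_pot (hC : Cone η) : ∃ G : Z3 → Z3 → ℝ, IsPot η G ∧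
    ∀ f c, InGam η f c → ∀ p q, p ≠ 0 → G (f p) (f q) = G p q := by
  choose g hg using exists_pot_at hC
  have hrep : ∀ p : Z3, ∃ f c, InGam η f c ∧ f (Quotient.mk (orb η) p).out = p := by
    intro p
    have h : (orb η) (Quotient.mk (orb η) p).out p := Quotient.mk_out p
    exact h
  choose F cc hF hFp using hrep
  refine ⟨fun p q => g (Quotient.mk (orb η) p).out ((F p).symm q), ?_, ?_⟩
  · intro p q q' h
    set r := (Quotient.mk (orb η) p).out with hr
    have h1 := hg r ((F p).symm q) ((F p).symm q') (by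
      have := (hF p).det r ((F p).symm q) ((F p).symm q')
      rw [hFp p, AddEquiv.apply_symm_apply, AddEquiv.apply_symm_apply, h] at this
      exact this.symm)
    rw [h1]
    have h2 := (hF p).om_map r ((F p).symm q)
    have h3 := (hF p).om_map r ((F p).symm q')
    rw [hFp p, AddEquiv.apply_symm_apply] at h2 h3
    rw [h2, h3, inc_scale (mul_pos ((hF p).pos 0) ((hF p).pos 1))]
  · intro f c hf p q hp
    have hq : Quotient.mk (orb η) (f p) = Quotient.mk (orb η) p :=
      (Quotient.sound (s := orb η) ⟨f, c, hf, rfl⟩).symm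
    set r := (Quotient.mk (orb η) p).out with hr
    have hr2 : (Quotient.mk (orb η) (f p)).out = r := by rw [hq]
    have hr0 : r ≠ 0 := by
      intro h0
      apply hp
      have := hFp p
      rw [← hr, h0, map_zero] at this
      exact this.symm
    simp only [hr2]
    congr 1
    -- the two maps agree
    have h1 : F (f p) r = (F p).trans f r := by
      have := hFp (f p)
      rw [hr2] at this
      rw [this, AddEquiv.trans_apply, hFp p]
    have h2 := InGam.free hC (hF (f p)) ((hF p).trans hf) hr0 h1 ((F p).symm q)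
    rw [AddEquiv.trans_apply, AddEquiv.apply_symm_apply] at h2
    rw [← h2, AddEquiv.symm_apply_apply]

theorem Prim.map {d : Z3} (h : Prim d) (f : Z3 ≃+ Z3) : Prim (f d) := by
  obtain ⟨u, hu⟩ := h
  obtain ⟨u', hu'⟩ := exists_transport u f
  refine ⟨u', ?_⟩
  have h1 := hu' (f d)
  rw [AddEquiv.symm_apply_apply] at h1
  simp only [lf, rc_apply] at h1
  have h2 : ((u' 0 * f d 0 + u' 1 * f d 1 + u' 2 * f d 2 : ℤ) : ℝ) =
      ((u 0 * d 0 + u 1 * d 1 + u 2 * d 2 : ℤ) : ℝ) := by
    push_cast
    exact h1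
  have h3 : u' 0 * f d 0 + u' 1 * f d 1 + u' 2 * f d 2 = u 0 * d 0 + u 1 * d 1 + u 2 * d 2 := by
    exact_mod_cast h2
  rw [h3, hu]

/-- segments are transported by symmetries -/
theorem seg_map {F F' : Z3 → Z3 → ℝ} {w : Fin 3 → ℝ} (f : Z3 ≃+ Z3)
    (hFF : ∀ p q, p ≠ 0 → q ≠ 0 → F' (f p) (f q) = F p q) {p q : Z3} (lp : lf w p = 1)
    (lq : lf w q = 1) : seg F' (f p) (f q) = seg F p q := by
  by_cases hpq : q = p
  · subst hpq
    rw [seg_self, seg_self]
  · obtain ⟨g, d, hg, hd, he⟩ := exists_prim (q - p) (sub_ne_zero.2 hpq)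
    have hq : q = p + (g : ℤ) • d := by rw [← he]; abel
    have hgR : (g : ℝ) ≠ 0 := by exact_mod_cast hg.ne'
    have ld : lf w d = 0 := by
      have : lf w ((g : ℤ) • d) = 0 := by rw [← he, lf_sub, lp, lq, sub_self]
      rw [lf_smul] at this
      push_cast at this
      exact (mul_eq_zero.1 this).resolve_left hgR
    have hne : ∀ i : ℤ, p + i • d ≠ 0 := by
      intro i h0
      have : lf w (p + i • d) = 1 := by rw [lf_add, lf_smul, ld, lp]; ring
      rw [h0, lf_zero] at this
      norm_num at this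
    have h1 : f q = f p + (g : ℤ) • f d := by rw [hq, map_add, map_zsmul]
    rw [h1, seg_eq F' (f p) (f d) g (hd.map f), hq, seg_eq F p d g hd]
    refine sum_congr rfl fun i _ => ?_
    rw [← hFF _ _ (hne i) (hne (i + 1)), map_add, map_add, map_zsmul, map_zsmul]

/-- two faces on both sides of an edge -/
theorem seg_pos (G : Z3 → Z3 → ℝ) {κ κ' t : ℝ} {a b c : Z3} (ht : 0 < t)
    (hab : 0 < dt a b c) (hom : om η a b ≠ 0)
    (hκ : κ' = κ + t * om η a b) :
    0 < seg (theta η G κ) a b + seg (theta η G κ') b a := by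
  have hne : b ≠ a := by
    rintro rfl
    rw [dt_self1] at hab
    exact lt_irrefl _ hab
  obtain ⟨g, d, hg, hd, he⟩ := exists_prim (b - a) (sub_ne_zero.2 hne)
  have hb : b = a + (g : ℤ) • d := by rw [← he]; abel
  have hgR : (0 : ℝ) < g := by exact_mod_cast hg
  rw [seg_anti (theta_anti G κ') a b]
  have hs : ∀ κ, seg (theta η G κ) a b = ∑ i ∈ range g,
      theta η G κ (a + (i : ℤ) • d) (a + ((i : ℤ) + 1) • d) := by
    intro κ
    rw [hb, seg_eq _ a d g hd]
  rw [hs, hs, ← sub_eq_add_neg, ← sum_sub_distrib]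
  have hod : om η a b = g * om η a d := by
    rw [hb, om_add_right, om_self, om_smul_right]
    push_cast
    ring
  have hod0 : om η a d ≠ 0 := by
    intro h0
    rw [hod, h0, mul_zero] at hom
    exact hom rfl
  apply sum_pos
  · intro i _
    have h1 : om η (a + (i : ℤ) • d) (a + ((i : ℤ) + 1) • d) = om η a d := by
      simp only [om, yy, lf_add, lf_smul]
      push_cast
      ring
    simp only [theta]
    rw [h1, hκ, hod]
    have : G (a + ((i : ℤ) + 1) • d) (a + (i : ℤ) • d) - G (a + (i : ℤ) • d) (a + ((i : ℤ) + 1) • d) -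
        κ / om η a d - (G (a + ((i : ℤ) + 1) • d) (a + (i : ℤ) • d) -
        G (a + (i : ℤ) • d) (a + ((i : ℤ) + 1) • d) - (κ + t * (g * om η a d)) / om η a d) =
        t * g := by
      field_simp
      ring
    rw [this]
    exact mul_pos ht hgR
  · exact ⟨0, mem_range.2 hg⟩

end Pool.Agent.Lib.MP_a785c8_co
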