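import Pool.Agent.Lib.MP_a785c8_co.Cone

/-!
Quadrangular faces, existence of a face, adjacency and uniqueness.
-/

set_option autoImplicit false

namespace Pool.Agent.Lib.MP_a785c8_co

open Finset

variable {η : Fin 3 → Fin 3 → ℝ}

/-- the cross product, as a real form -/
def crs (a b : Z3) : Fin 3 → ℝ :=
  ![(a 1 * b 2 - a 2 * b 1 : ℤ), (a 2 * b 0 - a 0 * b 2 : ℤ), (a 0 * b 1 - a 1 * b 0 : ℤ)]

theorem lf_crs (a b x : Z3) : lf (crs a b) x = ((dt a b x : ℤ) : ℝ) := by
  simp only [lf, crs, dt, Matrix.cons_val_zero, Matrix.cons_val_one, Matrix.cons_val]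
  push_cast
  ring

theorem lf_add_form (w w' : Fin 3 → ℝ) (t : ℝ) (x : Z3) :
    lf (fun j => w j + t * w' j) x = lf w x + t * lf w' x := by
  simp only [lf]
  ring

/-- a nonzero form vanishing at a positive vector has a negative coordinate -/
theorem exists_neg {mu : Fin 3 → ℝ} {p x : Z3} (hp : Pos η p) (h0 : lf (comb η mu) p = 0)
    (hx : lf (comb η mu) x ≠ 0) : ∃ i, mu i < 0 := by
  by_contra hcon
  push Not at hcon
  apply hx
  rw [lf_comb] at h0 ⊢
  have q0 := mul_nonneg (hcon 0) (hp 0).le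
  have q1 := mul_nonneg (hcon 1) (hp 1).le
  have q2 := mul_nonneg (hcon 2) (hp 2).le
  have z : ∀ i, mu i * yy η i p = 0 → mu i = 0 := by
    intro i hi
    rcases mul_eq_zero.1 hi with h | h
    · exact h
    · exact absurd h (hp i).ne'
  rw [z 0 (by linarith), z 1 (by linarith), z 2 (by linarith)]
  ring

/-- distinct vectors in an affine plane off the origin are independent -/
theorem exists_dt_ne {w : Fin 3 → ℝ} {p q : Z3} (hp : lf w p = 1) (hq : lf w q = 1)
    (hpq : p ≠ q) : ∃ x, dt p q x ≠ 0 := by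
  by_contra hcon
  push Not at hcon
  have h0 := hcon ![1, 0, 0]
  have h1 := hcon ![0, 1, 0]
  have h2 := hcon ![0, 0, 1]
  simp only [dt, Matrix.cons_val_zero, Matrix.cons_val_one, Matrix.cons_val] at h0 h1 h2
  have e0 : p 1 * q 2 - p 2 * q 1 = 0 := by linarith
  have e1 : p 0 * q 2 - p 2 * q 0 = 0 := by linarith
  have e2 : p 0 * q 1 - p 1 * q 0 = 0 := by linarith
  have e0' : (p 1 : ℝ) * q 2 - p 2 * q 1 = 0 := by exact_mod_cast e0
  have e1' : (p 0 : ℝ) * q 2 - p 2 * q 0 = 0 := by exact_mod_cast e1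
  have e2' : (p 0 : ℝ) * q 1 - p 1 * q 0 = 0 := by exact_mod_cast e2
  apply hpq
  simp only [lf] at hp hq
  apply ext3
  · have : (p 0 : ℝ) = q 0 := by
      calc (p 0 : ℝ) = p 0 * (w 0 * q 0 + w 1 * q 1 + w 2 * q 2) := by rw [hq, mul_one]
        _ = q 0 * (w 0 * p 0 + w 1 * p 1 + w 2 * p 2) + w 1 * (p 0 * q 1 - p 1 * q 0) +
            w 2 * (p 0 * q 2 - p 2 * q 0) := by ring
        _ = q 0 := by rw [hp, e1', e2']; ring
    exact_mod_cast this
  · have : (p 1 : ℝ) = q 1 := by
      calc (p 1 : ℝ) = p 1 * (w 0 * q 0 + w 1 * q 1 + w 2 * q 2) := by rw [hq, mul_one]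
        _ = q 1 * (w 0 * p 0 + w 1 * p 1 + w 2 * p 2) - w 0 * (p 0 * q 1 - p 1 * q 0) +
            w 2 * (p 1 * q 2 - p 2 * q 1) := by ring
        _ = q 1 := by rw [hp, e0', e2']; ring
    exact_mod_cast this
  · have : (p 2 : ℝ) = q 2 := by
      calc (p 2 : ℝ) = p 2 * (w 0 * q 0 + w 1 * q 1 + w 2 * q 2) := by rw [hq, mul_one]
        _ = q 2 * (w 0 * p 0 + w 1 * p 1 + w 2 * p 2) - w 0 * (p 0 * q 2 - p 2 * q 0) -
            w 1 * (p 1 * q 2 - p 2 * q 1) := by ring
        _ = q 2 := by rw [hp, e0', e1']; ring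
    exact_mod_cast this

/-- existence of a two-dimensional face -/
theorem Cone.exists_support (hC : Cone η) : ∃ w : Fin 3 → ℝ, (∀ x, Pos η x → 1 ≤ lf w x) ∧
    ∃ x1 x2 x3, Pos η x1 ∧ Pos η x2 ∧ Pos η x3 ∧ lf w x1 = 1 ∧ lf w x2 = 1 ∧ lf w x3 = 1 ∧
      dt x1 x2 x3 ≠ 0 := by
  classical
  -- a first form
  obtain ⟨K, hK⟩ : ∃ K : ℝ, ∀ x, Pos η x → 1 ≤ lf (comb η (fun _ => K)) x := by
    have hfin := hC.finite_sub (nu := fun _ => 1) (fun _ => one_pos) 1
    have hval : ∀ (K : ℝ) (x : Z3), lf (comb η (fun _ => K)) x =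
        K * lf (comb η (fun _ => 1)) x := by
      intro K x
      simp only [lf_comb]
      ring
    have hpos : ∀ x, Pos η x → 0 < lf (comb η (fun _ => 1)) x := by
      intro x hx
      rw [lf_comb]
      have h0 := hx 0
      have h1 := hx 1
      have h2 := hx 2
      linarith
    by_cases hne : {x : Z3 | Pos η x ∧ lf (comb η (fun _ => 1)) x ≤ 1}.Nonempty
    · obtain ⟨x0, hx0, hmin⟩ := Set.exists_min_image _ (fun x => lf (comb η (fun _ => 1)) x)
        hfin hne
      refine ⟨(lf (comb η (fun _ => 1)) x0)⁻¹, fun x hx => ?_⟩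
      have h0 := hpos x0 hx0.1
      rw [hval, inv_mul_eq_div, le_div_iff₀ h0, one_mul]
      rcases le_or_gt (lf (comb η (fun _ => 1)) x) 1 with h | h
      · exact hmin x ⟨hx, h⟩
      · linarith [hx0.2]
    · refine ⟨1, fun x hx => ?_⟩
      by_contra hlt
      push Not at hlt
      exact hne ⟨x, hx, hlt.le⟩
  -- first rotation
  obtain ⟨t, -, hmin1, x1, hx1, -, h1⟩ := hC.rotate (mu := fun _ => -1) hK ⟨0, by norm_num⟩
  have hw1 : ∀ x, lf (comb η (fun _ => K)) x + t * lf (comb η (fun _ => -1)) x =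
      lf (comb η (fun _ => K + t * (-1))) x := by
    intro x
    simp only [lf_comb]
    ring
  simp only [hw1] at hmin1 h1
  -- second rotation
  obtain ⟨t2, -, hmin2, x2, hx2, hneg2, h2⟩ := hC.rotate
    (mu := ![yy η 1 x1, - yy η 0 x1, 0]) hmin1 ⟨1, by simpa using hx1 0⟩
  have hmu1 : lf (comb η ![yy η 1 x1, - yy η 0 x1, 0]) x1 = 0 := by
    rw [lf_comb]
    simp
    ring
  set lam2 : Fin 3 → ℝ := fun i => (K + t * (-1)) + t2 * (![yy η 1 x1, - yy η 0 x1, 0] : Fin 3 → ℝ) i
    with hlam2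
  have hw2 : ∀ x, lf (comb η (fun _ => K + t * (-1))) x +
      t2 * lf (comb η ![yy η 1 x1, - yy η 0 x1, 0]) x = lf (comb η lam2) x := by
    intro x
    simp only [lf_comb, hlam2]
    ring
  have h12 : lf (comb η lam2) x1 = 1 := by
    rw [← hw2, hmu1, mul_zero, add_zero]
    exact h1
  simp only [hw2] at hmin2 h2
  have hne12 : x1 ≠ x2 := by
    rintro rfl
    rw [hmu1] at hneg2
    exact lt_irrefl _ hneg2
  -- third rotation
  obtain ⟨z, hz⟩ := exists_dt_ne h12 h2 hne12
  obtain ⟨mu, hmu⟩ := hC.exists_comb (crs x1 x2)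
  have hmux : ∀ x, lf (comb η mu) x = ((dt x1 x2 x : ℤ) : ℝ) := by
    intro x
    rw [← hmu, lf_crs]
  obtain ⟨t3, -, hmin3, x3, hx3, hneg3, h3⟩ := hC.rotate (mu := mu) hmin2
    (exists_neg (x := z) hx1 (by rw [hmux, dt_self3, Int.cast_zero]) (by
      rw [hmux]
      exact_mod_cast hz))
  refine ⟨fun j => comb η lam2 j + t3 * comb η mu j, ?_, x1, x2, x3, hx1, hx2, hx3, ?_, ?_, ?_,
    ?_⟩
  · intro x hx
    rw [lf_add_form]
    exact hmin3 x hx
  · rw [lf_add_form, hmux, dt_self3, h12]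
    simp
  · rw [lf_add_form, hmux, dt_self2, h2]
    simp
  · rw [lf_add_form]
    exact h3
  · rw [hmux] at hneg3
    have : dt x1 x2 x3 < 0 := by exact_mod_cast hneg3
    exact this.ne

/-- all two-dimensional faces are quadrangles -/
def AllQuad (η : Fin 3 → Fin 3 → ℝ) : Prop :=
  ∀ w : Fin 3 → ℝ, (∀ x, Pos η x → 1 ≤ lf w x) → ∀ x1 x2 x3, Pos η x1 → Pos η x2 → Pos η x3 →
    lf w x1 = 1 → lf w x2 = 1 → lf w x3 = 1 → dt x1 x2 x3 ≠ 0 →
    ∃ a b c d, QV η w a b c d ∧ ∀ x, Pos η x → lf w x = 1 → InQ a b c d x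

/-- quadrangular faces at integer distance one, with an ordering of the vertices -/
def Quad (η : Fin 3 → Fin 3 → ℝ) (ℓ a b c d : Z3) : Prop :=
  (∀ x, Pos η x → 1 ≤ lf (rc ℓ) x) ∧ QV η (rc ℓ) a b c d ∧
    ∀ x, Pos η x → lf (rc ℓ) x = 1 → InQ a b c d x

theorem Quad.rot {ℓ a b c d : Z3} (h : Quad η ℓ a b c d) : Quad η ℓ b c d a :=
  ⟨h.1, h.2.1.rot, fun x h1 h2 => (h.2.2 x h1 h2).rot⟩

theorem exists_int_form {w : Fin 3 → ℝ} (h : ∀ x, ∃ n : ℤ, lf w x = n) : ∃ ℓ : Z3, w = rc ℓ := by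
  obtain ⟨n0, h0⟩ := h ![1, 0, 0]
  obtain ⟨n1, h1⟩ := h ![0, 1, 0]
  obtain ⟨n2, h2⟩ := h ![0, 0, 1]
  simp only [lf, Matrix.cons_val_zero, Matrix.cons_val_one, Matrix.cons_val] at h0 h1 h2
  refine ⟨![n0, n1, n2], ?_⟩
  apply ext3
  · show w 0 = ((n0 : ℤ) : ℝ)
    rw [← h0]; push_cast; ring
  · show w 1 = ((n1 : ℤ) : ℝ)
    rw [← h1]; push_cast; ring
  · show w 2 = ((n2 : ℤ) : ℝ)
    rw [← h2]; push_cast; ring

/-- points of the face on an edge line -/
theorem QV.on_edge {w : Fin 3 → ℝ} {a b c d x : Z3} (h : QV η w a b c d) (hx : InQ a b c d x)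
    (lx : lf w x = 1) (h0 : dt a b x = 0) : ∃ p q : ℤ, 0 ≤ p ∧ 0 ≤ q ∧ p + q = dt a b c ∧
      dt a b c • x = p • a + q • b := by
  have h1 := cramer a b c x
  have h2 := plane4 h.la h.lb h.lc lx
  rw [h0, zero_smul, add_zero] at h1
  rw [h0, add_zero] at h2
  refine ⟨dt x b c, dt a x c, ?_, ?_, h2.symm, h1⟩
  · rw [← dt_cyc x b c]
    exact hx.bcx
  · have i1 : dt a b c * dt d a x = dt a x c * dt d a b + dt a b x * dt d a c := by
      simp only [dt]; ring
    rw [h0, zero_mul, add_zero] at i1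
    have i2 : 0 ≤ dt a x c * dt d a b := by
      rw [← i1]
      exact mul_nonneg h.abc.le hx.dax
    exact nonneg_of_mul_nonneg_left i2 h.dab

theorem indep_of_dt {a b c : Z3} (h : dt a b c ≠ 0) {p q : ℤ} (hpq : p • a + q • b = 0) :
    p = 0 ∧ q = 0 := by
  have h1 : p * dt a b c = 0 := by
    have : dt (p • a + q • b) b c = p * dt a b c := by
      rw [dt_add1, dt_smul1, dt_smul1, dt_self1]
      ring
    rw [← this, hpq]
    simp [dt]
  have h2 : q * dt a b c = 0 := by
    have : dt a (p • a + q • b) c = q * dt a b c := by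
      rw [dt_add2, dt_smul2, dt_smul2, dt_self1]
      ring
    rw [← this, hpq]
    simp [dt]
  exact ⟨(mul_eq_zero.1 h1).resolve_right h, (mul_eq_zero.1 h2).resolve_right h⟩

/-- a point lying in each other's edges is an endpoint -/
theorem endpoint {a b a' b' c : Z3} (hind : dt a b c ≠ 0) {N N' p q P1 Q1 P2 Q2 : ℤ}
    (hN : 0 < N) (hN' : 0 < N') (hp : 0 ≤ p) (hq : 0 ≤ q) (hpq : p + q = N')
    (hb : N' • b = p • a' + q • b') (hP1 : 0 ≤ P1) (hPQ1 : P1 + Q1 = N)
    (ha' : N • a' = P1 • a + Q1 • b) (hP2 : 0 ≤ P2) (hPQ2 : P2 + Q2 = N)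
    (hb' : N • b' = P2 • a + Q2 • b) : b = a' ∨ b = b' := by
  have h1 : (p * P1 + q * P2) • a + (p * Q1 + q * Q2 - N * N') • b = 0 := by
    have e1 : (N * N') • b = p • (N • a') + q • (N • b') := by
      rw [mul_smul, hb, smul_add, smul_comm N p, smul_comm N q]
    rw [ha', hb'] at e1
    have : (p * P1 + q * P2) • a + (p * Q1 + q * Q2 - N * N') • b =
        (p • (P1 • a + Q1 • b) + q • (P2 • a + Q2 • b)) - (N * N') • b := by
      module
    rw [this, ← e1, sub_self]
  have h2 := (indep_of_dt hind h1).1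
  have z1 : p * P1 = 0 := by
    have := mul_nonneg hp hP1
    have := mul_nonneg hq hP2
    omega
  have z2 : q * P2 = 0 := by
    have := mul_nonneg hp hP1
    have := mul_nonneg hq hP2
    omega
  rcases lt_or_eq_of_le hp with hp' | hp'
  · left
    have : P1 = 0 := (mul_eq_zero.1 z1).resolve_left hp'.ne'
    subst this
    rw [zero_smul, zero_add] at ha'
    have hQ : Q1 = N := by omega
    rw [hQ] at ha'
    exact (smul_right_injective Z3 hN.ne' ha').symm
  · right
    have hq' : 0 < q := by omega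
    have : P2 = 0 := (mul_eq_zero.1 z2).resolve_left hq'.ne'
    subst this
    rw [zero_smul, zero_add] at hb'
    have hQ : Q2 = N := by omega
    rw [hQ] at hb'
    exact (smul_right_injective Z3 hN.ne' hb').symm

/-- only one vertex on the line -/
theorem QV.single {w : Fin 3 → ℝ} {a b c d u v x : Z3} (h : QV η w a b c d)
    (hx : InQ a b c d x) (lx : lf w x = 1) (ga : 0 ≤ dt u v a) (gb : 0 < dt u v b)
    (gc : 0 < dt u v c) (gd : 0 < dt u v d) (gx : dt u v x = 0) : x = a := by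
  rcases le_total 0 (dt a x c) with h0 | h0
  · have h1 := cramer a b c x
    have i1 : dt a b c * dt u v x = dt x b c * dt u v a + dt a x c * dt u v b +
        dt a b x * dt u v c := by
      have := congrArg (dt u v) h1
      rw [dt_smul3, dt_add3, dt_add3, dt_smul3, dt_smul3, dt_smul3] at this
      exact this
    have h2 : 0 ≤ dt x b c := by
      rw [← dt_cyc x b c]
      exact hx.bcx
    rw [gx, mul_zero] at i1
    have q1 := mul_nonneg h2 ga
    have q2 := mul_nonneg h0 gb.le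
    have q3 := mul_nonneg hx.abx gc.le
    have z2 : dt a x c = 0 := by
      have : dt a x c * dt u v b = 0 := by omega
      exact (mul_eq_zero.1 this).resolve_right gb.ne'
    have z3 : dt a b x = 0 := by
      have : dt a b x * dt u v c = 0 := by omega
      exact (mul_eq_zero.1 this).resolve_right gc.ne'
    have h3 := plane4 h.la h.lb h.lc lx
    rw [z2, z3, zero_smul, zero_smul, add_zero, add_zero] at h1
    rw [z2, z3, add_zero, add_zero] at h3
    rw [← h3] at h1
    exact smul_right_injective Z3 h.abc.ne' h1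
  · have h1 := cramer a c d x
    have i1 : dt a c d * dt u v x = dt x c d * dt u v a + dt a x d * dt u v c +
        dt a c x * dt u v d := by
      have := congrArg (dt u v) h1
      rw [dt_smul3, dt_add3, dt_add3, dt_smul3, dt_smul3, dt_smul3] at this
      exact this
    have h2 : 0 ≤ dt x c d := by
      rw [← dt_cyc x c d]
      exact hx.cdx
    have h3 : 0 ≤ dt a x d := by
      have := dt_cyc d a x
      rw [this]
      exact hx.dax
    have h4 : 0 ≤ dt a c x := by
      rw [dt_swap' a x c]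
      omega
    rw [gx, mul_zero] at i1
    have q1 := mul_nonneg h2 ga
    have q2 := mul_nonneg h3 gc.le
    have q3 := mul_nonneg h4 gd.le
    have z2 : dt a x d = 0 := by
      have : dt a x d * dt u v c = 0 := by omega
      exact (mul_eq_zero.1 this).resolve_right gc.ne'
    have z3 : dt a c x = 0 := by
      have : dt a c x * dt u v d = 0 := by omega
      exact (mul_eq_zero.1 this).resolve_right gd.ne'
    have h5 := plane4 h.la h.lc h.ld lx
    have hacd : 0 < dt a c d := by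
      have := dt_cyc a c d
      rw [← this]
      exact h.cda
    rw [z2, z3, zero_smul, zero_smul, add_zero, add_zero] at h1
    rw [z2, z3, add_zero, add_zero] at h5
    rw [← h5] at h1
    exact smul_right_injective Z3 hacd.ne' h1

/-- opposite vertices are not both on a supporting line -/
theorem QV.opposite {w : Fin 3 → ℝ} {a b c d u v z : Z3} (h : QV η w a b c d)
    (gb : 0 ≤ dt u v b) (gd : 0 ≤ dt u v d) (ga : dt u v a = 0) (gc : dt u v c = 0)
    (hz : dt u v z ≠ 0) : False := by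
  have i1 : dt b c d * dt u v a + dt a b d * dt u v c = dt a c d * dt u v b +
      dt a b c * dt u v d := by
    simp only [dt]; ring
  rw [ga, gc, mul_zero, mul_zero, add_zero] at i1
  have hacd : 0 < dt a c d := by
    have := dt_cyc a c d
    rw [← this]
    exact h.cda
  have q1 := mul_nonneg hacd.le gb
  have q2 := mul_nonneg h.abc.le gd
  have z1 : dt u v b = 0 := by
    have : dt a c d * dt u v b = 0 := by omega
    exact (mul_eq_zero.1 this).resolve_left hacd.ne'
  have i2 : dt a b c * dt u v z = dt z b c * dt u v a + dt a z c * dt u v b +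
      dt a b z * dt u v c := by
    have := congrArg (dt u v) (cramer a b c z)
    rw [dt_smul3, dt_add3, dt_add3, dt_smul3, dt_smul3, dt_smul3] at this
    exact this
  rw [ga, gc, z1, mul_zero, mul_zero, mul_zero, add_zero, add_zero] at i2
  rcases mul_eq_zero.1 i2 with h1 | h1
  · exact h.abc.ne' h1
  · exact hz h1

end Pool.Agent.Lib.MP_a785c8_co
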