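import Pool.Agent.Lib.MP_a785c8_co.Equivariant

/-!
The final double counting: no cone has only quadrangular faces.
-/

set_option autoImplicit false

namespace Pool.Agent.Lib.MP_a785c8_co

open Finset

variable {η : Fin 3 → Fin 3 → ℝ}

/-- the type of labelled quadrangular faces -/
def FX (η : Fin 3 → Fin 3 → ℝ) : Type :=
  {x : Z3 × Z3 × Z3 × Z3 // ∃ ℓ, Quad η ℓ x.1 x.2.1 x.2.2.1 x.2.2.2}

/-- componentwise action -/
def act (f : Z3 ≃+ Z3) (x : Z3 × Z3 × Z3 × Z3) : Z3 × Z3 × Z3 × Z3 :=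
  (f x.1, f x.2.1, f x.2.2.1, f x.2.2.2)

/-- the orbit relation -/
def orbX (η : Fin 3 → Fin 3 → ℝ) : Setoid (FX η) where
  r x y := ∃ f c, InGam η f c ∧ act f x.1 = y.1
  iseqv := by
    refine ⟨fun p => ⟨_, _, InGam.refl η, rfl⟩, ?_, ?_⟩
    · rintro x y ⟨f, c, h, hxy⟩
      refine ⟨_, _, h.symm, ?_⟩
      rw [← hxy]
      simp [act]
    · rintro x y z ⟨f, c, h, hxy⟩ ⟨g, d, h', hyz⟩
      refine ⟨_, _, h.trans h', ?_⟩
      rw [← hyz, ← hxy]
      simp [act]

/-- the orbits are finitely many -/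
theorem finite_orbits (hC : Cone η) : Finite (Quotient (orbX η)) := by
  classical
  obtain ⟨x0, hx0⟩ := hC.exists_pos
  obtain ⟨R, hR1, hR⟩ := hC.coco
  set S0 := yy η 0 x0 + yy η 1 x0 + yy η 2 x0 with hS0
  set B := R * (R * S0) with hB
  have hfin := hC.finite_bounded B
  set V : Set Z3 := {x : Z3 | ∀ i, |yy η i x| ≤ B} with hV
  have key : ∀ x : FX η, ∃ f c, InGam η f c ∧ f x.1.1 ∈ V ∧ f x.1.2.1 ∈ V ∧ f x.1.2.2.1 ∈ V ∧
      f x.1.2.2.2 ∈ V := by
    rintro ⟨⟨a, b, c, d⟩, ℓ, hmin, hq, -⟩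
    simp only at hq ⊢
    obtain ⟨lam, hlam⟩ := hC.exists_comb (rc ℓ)
    have hmin' : ∀ x, Pos η x → 1 ≤ lf (comb η lam) x := by rw [← hlam]; exact hmin
    have hpos := hC.coord_pos hmin'
    have hprod : 0 < lam 0 * lam 1 * lam 2 := mul_pos (mul_pos (hpos 0) (hpos 1)) (hpos 2)
    obtain ⟨Λ, hΛ0, hΛ⟩ : ∃ Λ : ℝ, 0 < Λ ∧ Λ ^ 3 = lam 0 * lam 1 * lam 2 := by
      refine ⟨(lam 0 * lam 1 * lam 2) ^ ((3 : ℕ) : ℝ)⁻¹, Real.rpow_pos_of_pos hprod _, ?_⟩
      exact Real.rpow_inv_natCast_pow hprod.le (by norm_num)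
    obtain ⟨f, cc, hf, hc⟩ := hR (fun i => Λ / lam i) (fun i => div_pos hΛ0 (hpos i)) (by
      have h0 := (hpos 0).ne'
      have h1 := (hpos 1).ne'
      have h2 := (hpos 2).ne'
      field_simp
      rw [hΛ])
    -- lower bound for `Λ`
    have hΛlow : 1 ≤ Λ * (R * S0) := by
      have hx : Pos η (f.symm x0) := by
        rw [← hf.pos_iff, AddEquiv.apply_symm_apply]
        exact hx0
      have h1 := hmin' _ hx
      rw [lf_comb] at h1
      have h2 : ∀ i, lam i * yy η i (f.symm x0) ≤ Λ * R * yy η i x0 := by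
        intro i
        have h3 := hf.symm.scale i x0
        rw [h3]
        have h4 := (hc i).1
        have h5 := hf.pos i
        have h6 := hpos i
        have h7 : lam i * (cc i)⁻¹ ≤ Λ * R := by
          rw [← div_eq_mul_inv, div_le_iff₀ h5]
          have h8 : R * (cc i * (Λ / lam i)) = R * cc i * Λ / lam i := by ring
          rw [h8, le_div_iff₀ h6] at h4
          linarith
        calc lam i * ((cc i)⁻¹ * yy η i x0) = (lam i * (cc i)⁻¹) * yy η i x0 := by ring
          _ ≤ _ := mul_le_mul_of_nonneg_right h7 (hx0 i).le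
      have h3 : Λ * (R * S0) = Λ * R * yy η 0 x0 + Λ * R * yy η 1 x0 + Λ * R * yy η 2 x0 := by
        rw [hS0]; ring
      rw [h3]
      linarith [h2 0, h2 1, h2 2]
    have hvert : ∀ v, Pos η v → lf (rc ℓ) v = 1 → f v ∈ V := by
      intro v pv lv i
      rw [hlam, lf_comb] at lv
      have hi : lam i * yy η i v ≤ 1 := by
        have p0 := mul_pos (hpos 0) (pv 0)
        have p1 := mul_pos (hpos 1) (pv 1)
        have p2 := mul_pos (hpos 2) (pv 2)
        fin_cases i
        · show lam 0 * yy η 0 v ≤ 1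
          linarith
        · show lam 1 * yy η 1 v ≤ 1
          linarith
        · show lam 2 * yy η 2 v ≤ 1
          linarith
      rw [hf.scale, abs_of_pos (mul_pos (hf.pos i) (pv i))]
      have h1 := (hc i).2
      have h2 := hpos i
      have h3 := hf.pos i
      have h4 : cc i * Λ ≤ R * lam i := by
        rw [mul_div_assoc', div_le_iff₀ h2] at h1
        exact h1
      -- y_i(v) ≤ 1 / lam_i
      have h5 : cc i * yy η i v * Λ ≤ R := by
        calc cc i * yy η i v * Λ = (cc i * Λ) * yy η i v := by ring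
          _ ≤ (R * lam i) * yy η i v := mul_le_mul_of_nonneg_right h4 (pv i).le
          _ = R * (lam i * yy η i v) := by ring
          _ ≤ R * 1 := mul_le_mul_of_nonneg_left hi (by linarith)
          _ = R := mul_one R
      have h6 : 0 < cc i * yy η i v := mul_pos h3 (pv i)
      have hRS : 0 < R * S0 := by
        have h0 := hx0 0
        have h1 := hx0 1
        have h2 := hx0 2
        rw [hS0]
        positivity
      calc cc i * yy η i v = (cc i * yy η i v) * 1 := by ring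
        _ ≤ (cc i * yy η i v) * (Λ * (R * S0)) := mul_le_mul_of_nonneg_left hΛlow h6.le
        _ = (cc i * yy η i v * Λ) * (R * S0) := by ring
        _ ≤ R * (R * S0) := mul_le_mul_of_nonneg_right h5 hRS.le
    exact ⟨f, cc, hf, hvert a hq.pa hq.la, hvert b hq.pb hq.lb, hvert c hq.pc hq.lc,
      hvert d hq.pd hq.ld⟩
  -- a finite set of representatives
  have hVfin : Finite V := hfin
  let Y : Type := {y : V × V × V × V // ∃ ℓ, Quad η ℓ y.1.1 y.2.1.1 y.2.2.1.1 y.2.2.2.1}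
  have hY : Finite Y := Subtype.finite
  let g : Y → Quotient (orbX η) := fun y =>
    Quotient.mk (orbX η) ⟨(y.1.1.1, y.1.2.1.1, y.1.2.2.1.1, y.1.2.2.2.1), y.2⟩
  apply Finite.of_surjective g
  intro q
  induction q using Quotient.inductionOn with
  | _ x =>
    obtain ⟨f, c, hf, h1, h2, h3, h4⟩ := key x
    obtain ⟨ℓ, hℓ⟩ := x.2
    refine ⟨⟨(⟨_, h1⟩, ⟨_, h2⟩, ⟨_, h3⟩, ⟨_, h4⟩), hℓ.map hf⟩, ?_⟩
    apply Quotient.sound
    refine ⟨f.symm, _, hf.symm, ?_⟩
    simp [act]

/-- the value of the cochain on a labelled face -/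
noncomputable def val (η : Fin 3 → Fin 3 → ℝ) (G : Z3 → Z3 → ℝ) (x : Z3 × Z3 × Z3 × Z3) : ℝ :=
  seg (theta η G ((om η x.2.1 x.2.2.1 + om η x.2.2.1 x.1 + om η x.1 x.2.1) /
    ((dt x.1 x.2.1 x.2.2.1 : ℤ) : ℝ))) x.1 x.2.1

theorem val_eq (G : Z3 → Z3 → ℝ) {ℓ a b c d : Z3} (h : Quad η ℓ a b c d) :
    val η G (a, b, c, d) = seg (theta η G (kl η (rc ℓ))) a b := by
  have hq := h.2.1
  have h1 := kl_eq η a b c (rc ℓ)
  rw [hq.la, hq.lb, hq.lc, mul_one, mul_one, mul_one] at h1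
  have h2 : ((dt a b c : ℤ) : ℝ) ≠ 0 := by exact_mod_cast hq.abc.ne'
  simp only [val]
  rw [← h1, mul_div_cancel_left₀ _ h2]

theorem val_act {G : Z3 → Z3 → ℝ}
    (hinv : ∀ f c, InGam η f c → ∀ p q, p ≠ 0 → G (f p) (f q) = G p q) {ℓ a b c d : Z3}
    (h : Quad η ℓ a b c d) {f : Z3 ≃+ Z3} {cc : Fin 3 → ℝ} (hf : InGam η f cc) :
    val η G (act f (a, b, c, d)) = val η G (a, b, c, d) := by
  have hq := h.2.1
  simp only [val, act]
  apply seg_map (w := rc ℓ) f _ hq.la hq.lb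
  intro p q hp hq
  have hk : 0 < cc 0 * cc 1 := mul_pos (hf.pos 0) (hf.pos 1)
  simp only [theta]
  rw [hinv f cc hf p q hp, hinv f cc hf q p hq, hf.om_map, hf.om_map, hf.om_map, hf.om_map,
    hf.det]
  congr 1
  rw [← mul_add, ← mul_add, mul_div_assoc, mul_div_mul_left _ _ hk.ne']

/-- **No cone has only quadrangular faces.** -/
theorem no_all_quad (hC : Cone η) (hAll : AllQuad η) : False := by
  classical
  obtain ⟨G, hG, hinv⟩ := exists_pot hC
  haveI := finite_orbits hC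
  haveI : Fintype (Quotient (orbX η)) := Fintype.ofFinite _
  -- the function on the quotient
  let F : Quotient (orbX η) → ℝ := Quotient.lift (fun x : FX η => val η G x.1) (by
    rintro ⟨⟨a, b, c, d⟩, ℓ, h⟩ ⟨y, hy⟩ ⟨f, cc, hf, hxy⟩
    show val η G (a, b, c, d) = val η G y
    rw [← (show act f (a, b, c, d) = y from hxy)]
    exact (val_act hinv h hf).symm)
  -- rotation
  let rt : FX η → FX η := fun x => ⟨(x.1.2.1, x.1.2.2.1, x.1.2.2.2, x.1.1), by
    obtain ⟨ℓ, h⟩ := x.2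
    exact ⟨ℓ, h.rot⟩⟩
  let rtb : Quotient (orbX η) → Quotient (orbX η) := Quotient.map rt (by
    rintro x y ⟨f, cc, hf, hxy⟩
    refine ⟨f, cc, hf, ?_⟩
    show act f (x.1.2.1, x.1.2.2.1, x.1.2.2.2, x.1.1) = (y.1.2.1, y.1.2.2.1, y.1.2.2.2, y.1.1)
    rw [← hxy]
    rfl)
  have hrt4 : ∀ q, rtb (rtb (rtb (rtb q))) = q := by
    intro q
    induction q using Quotient.inductionOn with
    | _ x => rfl
  have hrtbij : Function.Bijective rtb := by
    constructor
    · intro p q hpq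
      rw [← hrt4 p, ← hrt4 q, hpq]
    · intro q
      exact ⟨rtb (rtb (rtb q)), hrt4 q⟩
  -- adjacency
  have hadj : ∀ x : FX η, ∃ y : FX η, y.1.1 = x.1.2.1 ∧ y.1.2.1 = x.1.1 ∧
      0 < val η G x.1 + val η G y.1 := by
    rintro ⟨⟨a, b, c, d⟩, ℓ, h⟩
    obtain ⟨ℓ', e, f, h', t, ht, hx⟩ := h.adj hC hAll
    refine ⟨⟨(b, a, e, f), ℓ', h'⟩, rfl, rfl, ?_⟩
    show 0 < val η G (a, b, c, d) + val η G (b, a, e, f)
    rw [val_eq G h, val_eq G h']
    have hq := h.2.1
    have hom : om η a b ≠ 0 := hC.om_ne a b c hq.abc.ne'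
    apply seg_pos G ht hq.abc hom
    -- the values at the cross product
    have k1 := kl_eq η a b c (rc ℓ)
    have k2 := kl_eq η a b c (rc ℓ')
    have h2 : ((dt a b c : ℤ) : ℝ) ≠ 0 := by exact_mod_cast hq.abc.ne'
    rw [hx, hx, hx, dt_self3, dt_self2] at k2
    apply mul_left_cancel₀ h2
    push_cast at k2
    simp only at k2 ⊢
    linear_combination k2 - k1
  choose ad had1 had2 had3 using hadj
  have huniq : ∀ x y : FX η, x.1.1 = y.1.1 → x.1.2.1 = y.1.2.1 → x = y := by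
    rintro ⟨⟨a, b, c, d⟩, ℓ, h⟩ ⟨⟨a', b', c', d'⟩, ℓ', h'⟩ h1 h2
    simp only at h1 h2 h h'
    subst h1
    subst h2
    obtain ⟨h3, h4, -⟩ := h.unique h'
    subst h3
    subst h4
    rfl
  let adb : Quotient (orbX η) → Quotient (orbX η) := Quotient.map ad (by
    rintro x y ⟨f, cc, hf, hxy⟩
    refine ⟨f, cc, hf, ?_⟩
    obtain ⟨ℓ, h⟩ := (ad x).2
    have h1 : (⟨act f (ad x).1, h.map hf⟩ : FX η) = ad y := by
      apply huniq
      · show f (ad x).1.1 = _
        rw [had1 x, had1 y, ← hxy]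
        rfl
      · show f (ad x).1.2.1 = _
        rw [had2 x, had2 y, ← hxy]
        rfl
    exact congrArg Subtype.val h1)
  have hadinv : ∀ q, adb (adb q) = q := by
    intro q
    induction q using Quotient.inductionOn with
    | _ x =>
      have h1 : ad (ad x) = x := by
        apply huniq
        · rw [had1, had2]
        · rw [had2, had1]
      show Quotient.mk (orbX η) (ad (ad x)) = Quotient.mk (orbX η) x
      rw [h1]
  have hadbij : Function.Bijective adb := by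
    constructor
    · intro p q hpq
      rw [← hadinv p, ← hadinv q, hpq]
    · intro q
      exact ⟨adb q, hadinv q⟩
  -- sums
  have s1 : ∑ q, F (rtb q) = ∑ q, F q := hrtbij.sum_comp F
  have s2 : ∑ q, F (rtb (rtb q)) = ∑ q, F q := by
    rw [← s1]
    exact hrtbij.sum_comp (fun q => F (rtb q))
  have s3 : ∑ q, F (rtb (rtb (rtb q))) = ∑ q, F q := by
    rw [← s2]
    exact hrtbij.sum_comp (fun q => F (rtb (rtb q)))
  have s4 : ∑ q, (F q + F (rtb q) + F (rtb (rtb q)) + F (rtb (rtb (rtb q)))) = 0 := by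
    apply Finset.sum_eq_zero
    intro q _
    induction q using Quotient.inductionOn with
    | _ x =>
      obtain ⟨⟨a, b, c, d⟩, ℓ, h⟩ := x
      show val η G (a, b, c, d) + val η G (b, c, d, a) + val η G (c, d, a, b) +
        val η G (d, a, b, c) = 0
      rw [val_eq G h, val_eq G h.rot, val_eq G h.rot.rot, val_eq G h.rot.rot.rot]
      exact h.boundary hC hG
  rw [Finset.sum_add_distrib, Finset.sum_add_distrib, Finset.sum_add_distrib, s1, s2, s3] at s4
  have s5 : ∑ q, F (adb q) = ∑ q, F q := hadbij.sum_comp F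
  have hne : Nonempty (Quotient (orbX η)) := by
    obtain ⟨w, hw, x1, x2, x3, p1, p2, p3, l1, l2, l3, hdt⟩ := hC.exists_support
    obtain ⟨a, b, c, d, hq, hin⟩ := hAll w hw x1 x2 x3 p1 p2 p3 l1 l2 l3 hdt
    obtain ⟨ℓ, hℓ⟩ := exists_int_form (integral_of_quad hw hq)
    refine ⟨Quotient.mk (orbX η) ⟨(a, b, c, d), ℓ, ?_, ?_, ?_⟩⟩
    · rw [← hℓ]; exact hw
    · rw [← hℓ]; exact hq
    · rw [← hℓ]; exact hin
  have s6 : 0 < ∑ q, (F q + F (adb q)) := by
    apply Finset.sum_pos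
    · intro q _
      induction q using Quotient.inductionOn with
      | _ x => exact had3 x
    · exact Finset.univ_nonempty
  rw [Finset.sum_add_distrib, s5] at s6
  linarith

end Pool.Agent.Lib.MP_a785c8_co
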