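import Pool.Agent.Lib.MP_a785c8_co.Planar2

/-!
A supporting plane which carries a strictly convex quadrilateral of lattice points of the cone
is at integer distance one from the origin.
-/

set_option autoImplicit false

namespace Pool.Agent.Lib.MP_a785c8_co

open Finset

variable {η : Fin 3 → Fin 3 → ℝ} {w : Fin 3 → ℝ}

theorem exists_minQ {a b c d : Z3} (h : QV η w a b c d) :
    ∃ a' b' c' d', MinQ η w a' b' c' d' := by
  classical
  have hex : ∃ n : ℕ, ∃ a b c d : Z3, QV η w a b c d ∧ dt a b c + dt c d a = n := by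
    refine ⟨(dt a b c + dt c d a).toNat, a, b, c, d, h, ?_⟩
    have h1 := h.abc
    have h2 := h.cda
    omega
  obtain ⟨a', b', c', d', hq, hn⟩ := Nat.find_spec hex
  refine ⟨a', b', c', d', hq, fun p q r s h' => ?_⟩
  have h1 := h'.abc
  have h2 := h'.cda
  have h3 := Nat.find_min' hex (m := (dt p q r + dt r s p).toNat)
    ⟨p, q, r, s, h', by omega⟩
  omega

/-- the contradiction for a parallelogram -/
theorem no_par (hmin : ∀ x, Pos η x → 1 ≤ lf w x) {a b c d : Z3} (pa : Pos η a)
    (pb : Pos η b) (pc : Pos η c) (pd : Pos η d) (la : lf w a = 1) (lb : lf w b = 1)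
    (ld : lf w d = 1) (hpar : a + c = b + d) {z : Z3} {D : ℤ} (hD : 2 ≤ D) {k l : ℤ}
    (hz : D • z = a + k • (b - a) + l • (d - a)) (lz : (D : ℝ) * lf w z = 1) : False := by
  have hD0 : (0 : ℝ) < D := by exact_mod_cast (by omega : (0 : ℤ) < D)
  set k' := (-k) % D with hk'
  set l' := (-l) % D with hl'
  have hk0 : 0 ≤ k' := Int.emod_nonneg _ (by omega)
  have hk1 : k' ≤ D - 1 := by
    have := Int.emod_lt_of_pos (-k) (show 0 < D by omega)
    omega
  have hl0 : 0 ≤ l' := Int.emod_nonneg _ (by omega)
  have hl1 : l' ≤ D - 1 := by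
    have := Int.emod_lt_of_pos (-l) (show 0 < D by omega)
    omega
  obtain ⟨K, hK⟩ : ∃ K, k + k' = D * K := by
    refine ⟨-((-k) / D), ?_⟩
    have := Int.emod_add_mul_ediv (-k) D
    rw [hk']
    linarith
  obtain ⟨M, hM⟩ : ∃ M, l + l' = D * M := by
    refine ⟨-((-l) / D), ?_⟩
    have := Int.emod_add_mul_ediv (-l) D
    rw [hl']
    linarith
  set y := a - z + K • (b - a) + M • (d - a) with hy
  have hlin : ∀ v : Fin 3 → ℝ, (D : ℝ) * lf v y = (D - 1 : ℝ) * lf v a + k' * (lf v b - lf v a) +
      l' * (lf v d - lf v a) := by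
    intro v
    have h1 : (D : ℝ) * lf v z = lf v a + k * (lf v b - lf v a) + l * (lf v d - lf v a) := by
      have := congrArg (lf v) hz
      simp only [lf_smul, lf_add, lf_sub] at this
      exact this
    have h2 : lf v y = lf v a - lf v z + K * (lf v b - lf v a) + M * (lf v d - lf v a) := by
      rw [hy]
      simp only [lf_smul, lf_add, lf_sub]
    have h3 : (k : ℝ) + k' = D * K := by exact_mod_cast hK
    have h4 : (l : ℝ) + l' = D * M := by exact_mod_cast hM
    rw [h2]
    calc (D : ℝ) * (lf v a - lf v z + K * (lf v b - lf v a) + M * (lf v d - lf v a))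
        = D * lf v a - D * lf v z + (D * K) * (lf v b - lf v a) +
          (D * M) * (lf v d - lf v a) := by ring
      _ = _ := by rw [h1, ← h3, ← h4]; ring
  have hpos : Pos η y := by
    intro i
    have h1 := hlin (η i)
    have hA := pa i
    have hB := pb i
    have hC := pc i
    have hDd := pd i
    have hpar' : lf (η i) a + lf (η i) c = lf (η i) b + lf (η i) d := by
      rw [← lf_add, ← lf_add, hpar]
    simp only [yy] at hA hB hC hDd ⊢
    have hk0' : (0 : ℝ) ≤ k' := by exact_mod_cast hk0
    have hl0' : (0 : ℝ) ≤ l' := by exact_mod_cast hl0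
    have hk1' : (k' : ℝ) ≤ D - 1 := by exact_mod_cast hk1
    have hl1' : (l' : ℝ) ≤ D - 1 := by exact_mod_cast hl1
    have hD1 : (1 : ℝ) ≤ D - 1 := by exact_mod_cast (by omega : (1 : ℤ) ≤ D - 1)
    generalize lf (η i) a = A at *
    generalize lf (η i) b = B at *
    generalize lf (η i) c = C at *
    generalize lf (η i) d = E at *
    have hfin : 0 < (D : ℝ) * lf (η i) y := by
      rw [h1]
      rcases le_or_gt ((k' : ℝ) + l') (D - 1) with h2 | h2
      · have e : ((D : ℝ) - 1) * A + k' * (B - A) + l' * (E - A) =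
            (D - 1 - (k' + l')) * A + k' * B + l' * E := by ring
        rw [e]
        rcases lt_or_eq_of_le h2 with h3 | h3
        · have q1 := mul_pos (sub_pos.2 h3) hA
          have q2 := mul_nonneg hk0' hB.le
          have q3 := mul_nonneg hl0' hDd.le
          linarith
        · rw [← h3]
          have h5 : 0 < (k' : ℝ) ∨ 0 < (l' : ℝ) := by
            by_contra hcon
            push Not at hcon
            linarith [hcon.1, hcon.2]
          rcases h5 with h5 | h5
          · have q2 := mul_pos h5 hB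
            have q3 := mul_nonneg hl0' hDd.le
            linarith
          · have q2 := mul_nonneg hk0' hB.le
            have q3 := mul_pos h5 hDd
            linarith
      · have e : ((D : ℝ) - 1) * A + k' * (B - A) + l' * (E - A) =
            (k' + l' - (D - 1)) * C + (D - 1 - l') * B + (D - 1 - k') * E := by
          have hA' : A = B + E - C := by linarith
          rw [hA']
          ring
        rw [e]
        have q1 := mul_pos (sub_pos.2 h2) hC
        have q2 := mul_nonneg (sub_nonneg.2 hl1') hB.le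
        have q3 := mul_nonneg (sub_nonneg.2 hk1') hDd.le
        linarith
    exact (mul_pos_iff_of_pos_left hD0).1 hfin
  have h1 := hmin y hpos
  have h2 := hlin w
  rw [la, lb, ld] at h2
  nlinarith

theorem four_in_three : ∀ a b c d : Fin 3,
    ¬ (a ≠ b ∧ a ≠ c ∧ a ≠ d ∧ b ≠ c ∧ b ≠ d ∧ c ≠ d) := by decide

/-- the contradiction for a diamond -/
theorem no_dia (hmin : ∀ x, Pos η x → 1 ≤ lf w x) {a b c d o : Z3} (po : Pos η o) (pa : Pos η a)
    (pb : Pos η b) (pc : Pos η c) (pd : Pos η d) (lo : lf w o = 1) (la : lf w a = 1)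
    (lb : lf w b = 1)
    (hc : c = o - (a - o)) (hd : d = o - (b - o)) {z : Z3} {D : ℤ} (hD : 2 ≤ D) {k l : ℤ}
    (hz : D • z = o + k • (a - o) + l • (b - o)) (lz : (D : ℝ) * lf w z = 1) : False := by
  have hD0 : (0 : ℝ) < D := by exact_mod_cast (by omega : (0 : ℤ) < D)
  -- balanced residues
  have hres : ∀ k : ℤ, ∃ k' K : ℤ, k + k' = D * K ∧ 2 * |k'| ≤ D ∧ (2 * |k'| = D → 0 ≤ k') := by
    intro k
    have h0 : 0 ≤ (-k) % D := Int.emod_nonneg _ (by omega)
    have h1 : (-k) % D < D := Int.emod_lt_of_pos (-k) (show 0 < D by omega)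
    have h2 := Int.emod_add_mul_ediv (-k) D
    by_cases h3 : 2 * ((-k) % D) ≤ D
    · refine ⟨(-k) % D, -((-k) / D), by linarith, ?_, fun _ => h0⟩
      rw [abs_of_nonneg h0]
      exact h3
    · refine ⟨(-k) % D - D, -((-k) / D) - 1, by linarith, ?_, ?_⟩
      · rw [abs_of_neg (by omega)]
        omega
      · rw [abs_of_neg (by omega)]
        omega
  obtain ⟨k', K, hK, hk1, hk2⟩ := hres k
  obtain ⟨l', M, hM, hl1, hl2⟩ := hres l
  set y := o - z + K • (a - o) + M • (b - o) with hy
  have hlin : ∀ v : Fin 3 → ℝ, (D : ℝ) * lf v y = (D - 1 : ℝ) * lf v o + k' * (lf v a - lf v o) +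
      l' * (lf v b - lf v o) := by
    intro v
    have h1 : (D : ℝ) * lf v z = lf v o + k * (lf v a - lf v o) + l * (lf v b - lf v o) := by
      have := congrArg (lf v) hz
      simp only [lf_smul, lf_add, lf_sub] at this
      exact this
    have h2 : lf v y = lf v o - lf v z + K * (lf v a - lf v o) + M * (lf v b - lf v o) := by
      rw [hy]
      simp only [lf_smul, lf_add, lf_sub]
    have h3 : (k : ℝ) + k' = D * K := by exact_mod_cast hK
    have h4 : (l : ℝ) + l' = D * M := by exact_mod_cast hM
    rw [h2]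
    calc (D : ℝ) * (lf v o - lf v z + K * (lf v a - lf v o) + M * (lf v b - lf v o))
        = D * lf v o - D * lf v z + (D * K) * (lf v a - lf v o) +
          (D * M) * (lf v b - lf v o) := by ring
      _ = _ := by rw [h1, ← h3, ← h4]; ring
  have hly : (D : ℝ) * lf w y = D - 1 := by
    have := hlin w
    rw [lo, la, lb] at this
    linarith
  -- values at a form
  have hval : ∀ i, 0 < lf (η i) o ∧ 0 < lf (η i) a ∧ 0 < lf (η i) b ∧
      0 < 2 * lf (η i) o - lf (η i) a ∧ 0 < 2 * lf (η i) o - lf (η i) b := by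
    intro i
    have h1 := pc i
    have h2 := pd i
    simp only [yy, hc, hd, lf_sub] at h1 h2
    exact ⟨po i, pa i, pb i, by linarith, by linarith⟩
  by_cases hsum : |k'| + |l'| ≤ D - 1
  · have hpos : Pos η y := by
      intro i
      obtain ⟨hO, hA, hB, hC, hE⟩ := hval i
      have h1 := hlin (η i)
      have hsum' : |(k' : ℝ)| + |(l' : ℝ)| ≤ D - 1 := by exact_mod_cast hsum
      have hD1 : (1 : ℝ) ≤ D - 1 := by exact_mod_cast (by omega : (1 : ℤ) ≤ D - 1)
      show 0 < lf (η i) y
      generalize lf (η i) o = O at *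
      generalize lf (η i) a = A at *
      generalize lf (η i) b = B at *
      have hfin : 0 < (D : ℝ) * lf (η i) y := by
        rw [h1]
        have hU : |A - O| < O := abs_lt.2 ⟨by linarith, by linarith⟩
        have hV : |B - O| < O := abs_lt.2 ⟨by linarith, by linarith⟩
        have q1 : -(|(k' : ℝ)| * |A - O|) ≤ k' * (A - O) := by
          rw [← abs_mul]; exact neg_abs_le _
        have q2 : -(|(l' : ℝ)| * |B - O|) ≤ l' * (B - O) := by
          rw [← abs_mul]; exact neg_abs_le _
        have q3 : |(k' : ℝ)| * |A - O| ≤ |(k' : ℝ)| * O :=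
          mul_le_mul_of_nonneg_left hU.le (abs_nonneg _)
        have q4 : |(l' : ℝ)| * |B - O| ≤ |(l' : ℝ)| * O :=
          mul_le_mul_of_nonneg_left hV.le (abs_nonneg _)
        have q5 : (|(k' : ℝ)| + |(l' : ℝ)|) * O ≤ (D - 1) * O :=
          mul_le_mul_of_nonneg_right hsum' hO.le
        -- strictness
        by_cases hk : (k' : ℝ) = 0
        · by_cases hl : (l' : ℝ) = 0
          · rw [hk, hl]
            have := mul_pos (show (0 : ℝ) < D - 1 by linarith) hO
            linarith
          · have := mul_lt_mul_of_pos_left hV (abs_pos.2 hl)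
            linarith
        · have := mul_lt_mul_of_pos_left hU (abs_pos.2 hk)
          linarith
      exact (mul_pos_iff_of_pos_left hD0).1 hfin
    have h1 := hmin y hpos
    nlinarith
  · -- the exceptional class
    have hk3 : 2 * |k'| = D := by omega
    have hl3 : 2 * |l'| = D := by omega
    have hk4 := hk2 hk3
    have hl4 := hl2 hl3
    rw [abs_of_nonneg hk4] at hk3
    rw [abs_of_nonneg hl4] at hl3
    have hkl : l' = k' := by omega
    have hDk : (D : ℝ) = 2 * k' := by
      have : D = 2 * k' := by omega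
      exact_mod_cast this
    by_cases hD2 : D = 2
    · have hk'1 : k' = 1 := by omega
      have hy2 : ∀ v : Fin 3 → ℝ, 2 * lf v y = lf v a + lf v b - lf v o := by
        intro v
        have := hlin v
        rw [hkl, hk'1, hD2] at this
        push_cast at this
        linarith
      have hneg : ∀ x : Z3, lf w x < 1 → ∃ i, lf (η i) x ≤ 0 := by
        intro x hx
        by_contra hcon
        push Not at hcon
        have := hmin x (fun i => hcon i)
        linarith
      have w1 := hy2 w
      rw [la, lb, lo] at w1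
      obtain ⟨i1, h1⟩ := hneg y (by linarith)
      obtain ⟨i2, h2⟩ := hneg (y - (a - o)) (by rw [lf_sub, lf_sub, la, lo]; linarith)
      obtain ⟨i3, h3⟩ := hneg (y - (b - o)) (by rw [lf_sub, lf_sub, lb, lo]; linarith)
      obtain ⟨i4, h4⟩ := hneg (y - (a - o) - (b - o)) (by
        rw [lf_sub, lf_sub, lf_sub, lf_sub, la, lb, lo]; linarith)
      rw [lf_sub, lf_sub] at h2 h3
      rw [lf_sub, lf_sub, lf_sub, lf_sub] at h4
      have n12 : i1 ≠ i2 := by
        rintro rfl
        have := hy2 (η i1)
        have := hval i1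
        linarith
      have n13 : i1 ≠ i3 := by
        rintro rfl
        have := hy2 (η i1)
        have := hval i1
        linarith
      have n14 : i1 ≠ i4 := by
        rintro rfl
        have := hy2 (η i1)
        have := hval i1
        linarith
      have n23 : i2 ≠ i3 := by
        rintro rfl
        have := hy2 (η i2)
        have := hval i2
        linarith
      have n24 : i2 ≠ i4 := by
        rintro rfl
        have := hy2 (η i2)
        have := hval i2
        linarith
      have n34 : i3 ≠ i4 := by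
        rintro rfl
        have := hy2 (η i3)
        have := hval i3
        linarith
      exact four_in_three i1 i2 i3 i4 ⟨n12, n13, n14, n23, n24, n34⟩
    · have hD3 : 3 ≤ D := by omega
      set x := y + y - (a - o) - (b - o) - o with hx
      have hxl : ∀ v : Fin 3 → ℝ, (D : ℝ) * lf v x = (D - 2) * lf v o := by
        intro v
        have h1 := hlin v
        rw [hkl] at h1
        have h2 : lf v x = 2 * lf v y - (lf v a - lf v o) - (lf v b - lf v o) - lf v o := by
          rw [hx]
          simp only [lf_add, lf_sub]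
          ring
        rw [h2]
        have h3 : (D : ℝ) * (2 * lf v y - (lf v a - lf v o) - (lf v b - lf v o) - lf v o) =
          2 * (D * lf v y) - D * (lf v a - lf v o) - D * (lf v b - lf v o) - D * lf v o := by
          ring
        rw [h3, h1, hDk]
        ring
      have hD3' : (3 : ℝ) ≤ D := by exact_mod_cast hD3
      have hpos : Pos η x := by
        intro i
        have h1 := hxl (η i)
        have h2 : 0 < (D : ℝ) * lf (η i) x := by
          rw [h1]
          exact mul_pos (by linarith) (po i)
        exact (mul_pos_iff_of_pos_left hD0).1 h2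
      have h1 := hmin x hpos
      have h2 := hxl w
      rw [lo] at h2
      nlinarith

/-- **Integrality.** -/
theorem integral_of_quad (hmin : ∀ x, Pos η x → 1 ≤ lf w x) {a b c d : Z3}
    (h : QV η w a b c d) (x : Z3) : ∃ n : ℤ, lf w x = n := by
  classical
  obtain ⟨a, b, c, d, hM⟩ := exists_minQ h
  have hq := hM.1
  -- all values are multiples of `1 / N`
  set N := dt a b c with hN
  have hN0 : 0 < N := hq.abc
  have hN0' : (0 : ℝ) < N := by exact_mod_cast hN0
  have hint : ∀ x, ∃ n : ℤ, (N : ℝ) * lf w x = n := by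
    intro x
    refine ⟨dt x b c + dt a x c + dt a b x, ?_⟩
    have := lf_cramer w a b c x
    rw [hq.la, hq.lb, hq.lc] at this
    rw [hN, this]
    push_cast
    ring
  -- the least positive value
  have hex : ∃ m : ℕ, 0 < m ∧ ∃ z, (N : ℝ) * lf w z = m := by
    refine ⟨N.toNat, by omega, a, ?_⟩
    rw [hq.la, mul_one]
    have : ((N.toNat : ℤ) : ℝ) = N := by
      rw [Int.toNat_of_nonneg hN0.le]
    exact_mod_cast this.symm
  obtain ⟨hm0, z, hz⟩ := Nat.find_spec hex
  set m := Nat.find hex with hm
  have hm0' : (0 : ℝ) < m := by exact_mod_cast hm0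
  have hlz : 0 < lf w z := by
    have : 0 < (N : ℝ) * lf w z := by rw [hz]; exact hm0'
    exact (mul_pos_iff_of_pos_left hN0').1 this
  have hmult : ∀ x, ∃ k : ℤ, lf w x = k * lf w z := by
    intro x
    obtain ⟨n, hn⟩ := hint x
    refine ⟨n / m, ?_⟩
    have h1 : (N : ℝ) * lf w (x - (n / m : ℤ) • z) = ((n % m : ℤ) : ℝ) := by
      rw [lf_sub, lf_smul, mul_sub, hn, mul_left_comm, hz]
      have := Int.emod_add_mul_ediv n m
      have h2 : ((n % m : ℤ) : ℝ) + m * ((n / m : ℤ) : ℝ) = n := by exact_mod_cast this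
      linarith
    have h2 : 0 ≤ n % (m : ℤ) := Int.emod_nonneg _ (by omega)
    have h3 : n % (m : ℤ) < m := Int.emod_lt_of_pos _ (by omega)
    have h4 : n % (m : ℤ) = 0 := by
      by_contra hcon
      have h5 : 0 < (n % (m : ℤ)).toNat := by omega
      have h6 := Nat.find_min hex (m := (n % (m : ℤ)).toNat) (by omega)
      apply h6
      refine ⟨h5, x - (n / m : ℤ) • z, ?_⟩
      rw [h1]
      have : (((n % (m : ℤ)).toNat : ℤ) : ℝ) = ((n % (m : ℤ) : ℤ) : ℝ) := by
        rw [Int.toNat_of_nonneg h2]
      exact_mod_cast this.symm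
    rw [h4, Int.cast_zero] at h1
    rcases mul_eq_zero.1 h1 with h5 | h5
    · linarith
    · rw [lf_sub, lf_smul, sub_eq_zero] at h5
      exact h5
  obtain ⟨D, hD⟩ := hmult a
  rw [hq.la] at hD
  have hDpos : 0 < D := by
    have : (0 : ℝ) < D := by
      by_contra hcon
      push Not at hcon
      have := mul_nonpos_of_nonpos_of_nonneg hcon hlz.le
      linarith
    exact_mod_cast this
  by_cases hD1 : D = 1
  · rw [hD1, Int.cast_one, one_mul] at hD
    obtain ⟨k, hk⟩ := hmult x
    rw [← hD, mul_one] at hk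
    exact ⟨k, hk⟩
  · exfalso
    have hD2 : 2 ≤ D := by omega
    have hDz : lf w (D • z) = 1 := by rw [lf_smul]; exact hD.symm
    rcases hM.shape with ⟨hpar, hgen⟩ | ⟨o, po, lo, hc, hd, hgen⟩
    · obtain ⟨k, l, hkl⟩ := hgen _ hDz
      exact no_par hmin hq.pa hq.pb hq.pc hq.pd hq.la hq.lb hq.ld hpar hD2 hkl hD.symm
    · obtain ⟨k, l, hkl⟩ := hgen _ hDz
      exact no_dia hmin po hq.pa hq.pb hq.pc hq.pd lo hq.la hq.lb hc hd hD2 hkl hD.symm

end Pool.Agent.Lib.MP_a785c8_co
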