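import Pool.Agent.Lib.MP_a785c8_co.Cone
import Mathlib.LinearAlgebra.Matrix.Charpoly.Coeff
import Mathlib.LinearAlgebra.Matrix.ToLinearEquiv
import Mathlib.LinearAlgebra.Matrix.Adjugate
import Mathlib.RingTheory.PrincipalIdealDomain

/-!
Consequences of irreducibility of the characteristic polynomial.
-/

set_option autoImplicit false

namespace Pool.Agent.Lib.MP_a785c8_co

open Finset Polynomial Matrix

theorem mulVec_apply3 {R : Type} [CommRing R] (A : Matrix (Fin 3) (Fin 3) R) (p : Fin 3 → R)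
    (i : Fin 3) : A.mulVec p i = A i 0 * p 0 + A i 1 * p 1 + A i 2 * p 2 := by
  simp [Matrix.mulVec, dotProduct, Fin.sum_univ_three]

/-- a nonzero vector is cyclic for an operator with irreducible characteristic polynomial -/
theorem cyclic_of_irreducible {A : Matrix (Fin 3) (Fin 3) ℤ}
    (hirr : Irreducible (A.charpoly.map (Int.castRingHom ℚ))) {p : Z3} (hp : p ≠ 0) :
    dt p (A.mulVec p) (A.mulVec (A.mulVec p)) ≠ 0 := by
  intro h0
  set AQ : Matrix (Fin 3) (Fin 3) ℚ := A.map (Int.castRingHom ℚ) with hAQ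
  set pQ : Fin 3 → ℚ := fun i => (p i : ℚ) with hpQ
  have hmul : ∀ q : Z3, AQ.mulVec (fun i => (q i : ℚ)) = fun i => ((A.mulVec q i : ℤ) : ℚ) := by
    intro q
    ext i
    rw [mulVec_apply3, mulVec_apply3]
    simp [hAQ]
  -- a rational linear relation
  obtain ⟨u, hu0, hu⟩ : ∃ u : Fin 3 → ℚ, u ≠ 0 ∧
      u ᵥ* (Matrix.of ![pQ, AQ.mulVec pQ, AQ.mulVec (AQ.mulVec pQ)]) = 0 := by
    rw [Matrix.exists_vecMul_eq_zero_iff, Matrix.det_fin_three]
    have h1 : AQ.mulVec pQ = fun i => ((A.mulVec p i : ℤ) : ℚ) := hmul p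
    rw [h1, hmul]
    have h2 : ((dt p (A.mulVec p) (A.mulVec (A.mulVec p)) : ℤ) : ℚ) = 0 := by
      rw [h0]; simp
    simp only [dt] at h2
    push_cast at h2
    simp only [Matrix.of_apply, Matrix.cons_val_zero, Matrix.cons_val_one, Matrix.cons_val, hpQ]
    linarith
  have hrel : u 0 • pQ + u 1 • AQ.mulVec pQ + u 2 • AQ.mulVec (AQ.mulVec pQ) = 0 := by
    rw [← hu]
    ext j
    simp [Matrix.vecMul, dotProduct, Fin.sum_univ_three]
  set f : ℚ[X] := C (u 0) + C (u 1) * X + C (u 2) * X ^ 2 with hf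
  have hf0 : f ≠ 0 := by
    intro hf0
    apply hu0
    ext i
    have c0 := congrArg (fun g => coeff g 0) hf0
    have c1 := congrArg (fun g => coeff g 1) hf0
    have c2 := congrArg (fun g => coeff g 2) hf0
    simp [hf, coeff_X, coeff_C, coeff_X_pow] at c0 c1 c2
    fin_cases i
    · exact c0
    · exact c1
    · exact c2
  have hdeg : f.natDegree ≤ 2 := by
    rw [hf]
    compute_degree
  set χ := A.charpoly.map (Int.castRingHom ℚ) with hχ
  have hχ' : χ = AQ.charpoly := by rw [hχ, hAQ, Matrix.charpoly_map]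
  have hχdeg : χ.natDegree = 3 := by
    rw [hχ', Matrix.charpoly_natDegree_eq_dim]
    simp
  have hcop : IsCoprime χ f := by
    rw [hirr.coprime_iff_not_dvd]
    intro hdvd
    have := natDegree_le_of_dvd hdvd hf0
    omega
  obtain ⟨a, b, hab⟩ := hcop
  have h1 : aeval AQ (a * χ + b * f) = 1 := by rw [hab, map_one]
  have h2 : aeval AQ χ = 0 := by rw [hχ']; exact Matrix.aeval_self_charpoly AQ
  rw [map_add, map_mul, map_mul, h2, mul_zero, zero_add] at h1
  have h3 : (aeval AQ f).mulVec pQ = 0 := by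
    rw [← hrel, hf]
    simp only [map_add, map_mul, aeval_C, aeval_X, map_pow]
    rw [Matrix.add_mulVec, Matrix.add_mulVec]
    congr 1
    · congr 1
      · rw [Algebra.algebraMap_eq_smul_one, Matrix.smul_mulVec, Matrix.one_mulVec]
      · rw [Algebra.algebraMap_eq_smul_one, smul_mul_assoc, one_mul, Matrix.smul_mulVec]
    · rw [Algebra.algebraMap_eq_smul_one, smul_mul_assoc, one_mul, Matrix.smul_mulVec, pow_two,
        Matrix.mulVec_mulVec]
  have h4 : pQ = 0 := by
    calc pQ = (1 : Matrix (Fin 3) (Fin 3) ℚ).mulVec pQ := (Matrix.one_mulVec pQ).symm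
      _ = (aeval AQ b).mulVec ((aeval AQ f).mulVec pQ) := by rw [← h1, Matrix.mulVec_mulVec]
      _ = 0 := by rw [h3, Matrix.mulVec_zero]
  apply hp
  ext i
  have := congrFun h4 i
  simp only [hpQ, Pi.zero_apply] at this ⊢
  exact_mod_cast this

/-- a real form which is an eigenform and vanishes at a nonzero integer vector is zero -/
theorem form_eq_zero {A : Matrix (Fin 3) (Fin 3) ℤ}
    (hirr : Irreducible (A.charpoly.map (Int.castRingHom ℚ))) {w : Fin 3 → ℝ} {μ : ℝ}
    (hw : ∀ x : Z3, lf w (A.mulVec x) = μ * lf w x) {p : Z3} (hp : p ≠ 0) (h0 : lf w p = 0) :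
    w = 0 := by
  have hd := cyclic_of_irreducible hirr hp
  have hall : ∀ x, lf w x = 0 := by
    intro x
    have h1 := lf_cramer w p (A.mulVec p) (A.mulVec (A.mulVec p)) x
    simp only [hw, h0, mul_zero, add_zero] at h1
    rcases mul_eq_zero.1 h1 with h2 | h2
    · exact absurd (by exact_mod_cast h2) hd
    · exact h2
  have h0 := hall ![1, 0, 0]
  have h1 := hall ![0, 1, 0]
  have h2 := hall ![0, 0, 1]
  simp only [lf, Matrix.cons_val_zero, Matrix.cons_val_one, Matrix.cons_val] at h0 h1 h2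
  push_cast at h0 h1 h2
  apply ext3
  · simp only [Pi.zero_apply]; linarith
  · simp only [Pi.zero_apply]; linarith
  · simp only [Pi.zero_apply]; linarith

end Pool.Agent.Lib.MP_a785c8_co
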