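import Pool.Agent.Lib.MP_a785c8_co.Det

/-!
Four points in convex position can be put in cyclic order.
-/

set_option autoImplicit false

namespace Pool.Agent.Lib.MP_a785c8_co

/-- `p` is not a convex combination of `q, r, s` -/
def Ext (p q r s : Z3) : Prop :=
  ∀ N α β γ : ℤ, 0 < N → 0 ≤ α → 0 ≤ β → 0 ≤ γ → α + β + γ = N →
    N • p = α • q + β • r + γ • s → False

theorem sign_cases (D1 D2 D3 D4 : ℤ) (hsum : D1 - D2 + D3 - D4 = 0)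
    (hne : ¬ (D1 = 0 ∧ D2 = 0 ∧ D3 = 0 ∧ D4 = 0))
    (s1 : ¬ (0 < D1 ∧ 0 ≤ D2 ∧ D3 ≤ 0 ∧ 0 ≤ D4))
    (s1' : ¬ (D1 < 0 ∧ D2 ≤ 0 ∧ 0 ≤ D3 ∧ D4 ≤ 0))
    (s2 : ¬ (0 < D2 ∧ 0 ≤ D1 ∧ 0 ≤ D3 ∧ D4 ≤ 0))
    (s2' : ¬ (D2 < 0 ∧ D1 ≤ 0 ∧ D3 ≤ 0 ∧ 0 ≤ D4))
    (s3 : ¬ (0 < D3 ∧ D1 ≤ 0 ∧ 0 ≤ D2 ∧ 0 ≤ D4))
    (s3' : ¬ (D3 < 0 ∧ 0 ≤ D1 ∧ D2 ≤ 0 ∧ D4 ≤ 0))
    (s4 : ¬ (0 < D4 ∧ 0 ≤ D1 ∧ D2 ≤ 0 ∧ 0 ≤ D3))
    (s4' : ¬ (D4 < 0 ∧ D1 ≤ 0 ∧ 0 ≤ D2 ∧ D3 ≤ 0)) :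
    (0 < D1 ∧ 0 < D2 ∧ 0 < D3 ∧ 0 < D4) ∨ (D1 < 0 ∧ D2 < 0 ∧ D3 < 0 ∧ D4 < 0) ∨
      (0 < D1 ∧ D2 < 0 ∧ D3 < 0 ∧ 0 < D4) ∨ (D1 < 0 ∧ 0 < D2 ∧ 0 < D3 ∧ D4 < 0) ∨
      (0 < D1 ∧ 0 < D2 ∧ D3 < 0 ∧ D4 < 0) ∨ (D1 < 0 ∧ D2 < 0 ∧ 0 < D3 ∧ 0 < D4) := by
  rcases lt_trichotomy D1 0 with h1 | h1 | h1 <;> rcases lt_trichotomy D2 0 with h2 | h2 | h2 <;>
    rcases lt_trichotomy D3 0 with h3 | h3 | h3 <;> rcases lt_trichotomy D4 0 with h4 | h4 | h4 <;>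
    first
    | exact Or.inl ⟨h1, h2, h3, h4⟩
    | exact Or.inr (Or.inl ⟨h1, h2, h3, h4⟩)
    | exact Or.inr (Or.inr (Or.inl ⟨h1, h2, h3, h4⟩))
    | exact Or.inr (Or.inr (Or.inr (Or.inl ⟨h1, h2, h3, h4⟩)))
    | exact Or.inr (Or.inr (Or.inr (Or.inr (Or.inl ⟨h1, h2, h3, h4⟩))))
    | exact Or.inr (Or.inr (Or.inr (Or.inr (Or.inr ⟨h1, h2, h3, h4⟩))))
    | (exfalso; exact hne ⟨h1, h2, h3, h4⟩)
    | (exfalso; clear s1 s1' s2 s2' s3 s3' s4 s4' hne; omega)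
    | (exfalso; exact s1 ⟨h1, by linarith, by linarith, by linarith⟩)
    | (exfalso; exact s1' ⟨h1, by linarith, by linarith, by linarith⟩)
    | (exfalso; exact s2 ⟨h2, by linarith, by linarith, by linarith⟩)
    | (exfalso; exact s2' ⟨h2, by linarith, by linarith, by linarith⟩)
    | (exfalso; exact s3 ⟨h3, by linarith, by linarith, by linarith⟩)
    | (exfalso; exact s3' ⟨h3, by linarith, by linarith, by linarith⟩)
    | (exfalso; exact s4 ⟨h4, by linarith, by linarith, by linarith⟩)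
    | (exfalso; exact s4' ⟨h4, by linarith, by linarith, by linarith⟩)

theorem order4 {w : Fin 3 → ℝ} {a b c d : Z3} (la : lf w a = 1) (lb : lf w b = 1)
    (lc : lf w c = 1) (ld : lf w d = 1) (Ea : Ext a b c d) (Eb : Ext b a c d)
    (Ec : Ext c a b d) (Ed : Ext d a b c)
    (hne : ¬ (dt b c d = 0 ∧ dt a c d = 0 ∧ dt a b d = 0 ∧ dt a b c = 0)) :
    ∃ a' b' c' d', ({a', b', c', d'} : Set Z3) = {a, b, c, d} ∧ 0 < dt a' b' c' ∧
      0 < dt b' c' d' ∧ 0 < dt c' d' a' ∧ 0 < dt d' a' b' := by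
  -- the affine relation
  have hrel : dt b c d • a - dt a c d • b + dt a b d • c - dt a b c • d = 0 := by
    apply ext3 <;>
      simp only [dt, Pi.add_apply, Pi.sub_apply, Pi.smul_apply, smul_eq_mul, Pi.zero_apply] <;>
      ring
  have hsum : dt b c d - dt a c d + dt a b d - dt a b c = 0 := by
    have h1 := congrArg (lf w) hrel
    rw [lf_sub, lf_add, lf_sub, lf_smul, lf_smul, lf_smul, lf_smul, la, lb, lc, ld, lf_zero] at h1
    simp only [mul_one] at h1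
    exact_mod_cast h1
  -- all other orders
  have p1 : dt c d a = dt a c d := dt_cyc a c d
  have p2 : dt d a b = dt a b d := (dt_cyc d a b).symm
  have p3 : dt a d c = - dt a c d := dt_swap' a c d
  have p4 : dt d c b = - dt b c d := by simp only [dt]; ring
  have p5 : dt c b a = - dt a b c := by simp only [dt]; ring
  have p6 : dt b a d = - dt a b d := by simp only [dt]; ring
  have p7 : dt a d b = - dt a b d := by simp only [dt]; ring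
  have p8 : dt d b c = dt b c d := by simp only [dt]; ring
  have p9 : dt b c a = dt a b c := by simp only [dt]; ring
  have p10 : dt c a d = - dt a c d := by simp only [dt]; ring
  have p11 : dt a c b = - dt a b c := by simp only [dt]; ring
  have p12 : dt c b d = - dt b c d := by simp only [dt]; ring
  have p13 : dt b d a = dt a b d := by simp only [dt]; ring
  have p14 : dt d a c = dt a c d := by simp only [dt]; ring
  have p15 : dt c d b = dt b c d := by simp only [dt]; ring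
  have p16 : dt d b a = - dt a b d := by simp only [dt]; ring
  have p17 : dt b a c = - dt a b c := by simp only [dt]; ring
  have p18 : dt b d c = - dt b c d := by simp only [dt]; ring
  have p19 : dt d c a = - dt a c d := by simp only [dt]; ring
  have p20 : dt c a b = dt a b c := by simp only [dt]; ring
  generalize hD1 : dt b c d = D1 at *
  generalize hD2 : dt a c d = D2 at *
  generalize hD3 : dt a b d = D3 at *
  generalize hD4 : dt a b c = D4 at *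
  -- no coefficient has a sign of its own
  have s1 : ¬ (0 < D1 ∧ 0 ≤ D2 ∧ D3 ≤ 0 ∧ 0 ≤ D4) := by
    rintro ⟨h1, h2, h3, h4⟩
    refine Ea D1 D2 (-D3) D4 h1 h2 (by omega) h4 (by omega) ?_
    rw [← sub_eq_zero, ← hrel]
    module
  have s1' : ¬ (D1 < 0 ∧ D2 ≤ 0 ∧ 0 ≤ D3 ∧ D4 ≤ 0) := by
    rintro ⟨h1, h2, h3, h4⟩
    refine Ea (-D1) (-D2) D3 (-D4) (by omega) (by omega) h3 (by omega) (by omega) ?_
    rw [← sub_eq_zero, ← neg_zero, ← hrel]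
    module
  have s2 : ¬ (0 < D2 ∧ 0 ≤ D1 ∧ 0 ≤ D3 ∧ D4 ≤ 0) := by
    rintro ⟨h1, h2, h3, h4⟩
    refine Eb D2 D1 D3 (-D4) h1 h2 h3 (by omega) (by omega) ?_
    rw [← sub_eq_zero, ← neg_zero, ← hrel]
    module
  have s2' : ¬ (D2 < 0 ∧ D1 ≤ 0 ∧ D3 ≤ 0 ∧ 0 ≤ D4) := by
    rintro ⟨h1, h2, h3, h4⟩
    refine Eb (-D2) (-D1) (-D3) D4 (by omega) (by omega) (by omega) h4 (by omega) ?_
    rw [← sub_eq_zero, ← hrel]
    module
  have s3 : ¬ (0 < D3 ∧ D1 ≤ 0 ∧ 0 ≤ D2 ∧ 0 ≤ D4) := by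
    rintro ⟨h1, h2, h3, h4⟩
    refine Ec D3 (-D1) D2 D4 h1 (by omega) h3 h4 (by omega) ?_
    rw [← sub_eq_zero, ← hrel]
    module
  have s3' : ¬ (D3 < 0 ∧ 0 ≤ D1 ∧ D2 ≤ 0 ∧ D4 ≤ 0) := by
    rintro ⟨h1, h2, h3, h4⟩
    refine Ec (-D3) D1 (-D2) (-D4) (by omega) h2 (by omega) (by omega) (by omega) ?_
    rw [← sub_eq_zero, ← neg_zero, ← hrel]
    module
  have s4 : ¬ (0 < D4 ∧ 0 ≤ D1 ∧ D2 ≤ 0 ∧ 0 ≤ D3) := by
    rintro ⟨h1, h2, h3, h4⟩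
    refine Ed D4 D1 (-D2) D3 h1 h2 (by omega) h4 (by omega) ?_
    rw [← sub_eq_zero, ← neg_zero, ← hrel]
    module
  have s4' : ¬ (D4 < 0 ∧ D1 ≤ 0 ∧ 0 ≤ D2 ∧ D3 ≤ 0) := by
    rintro ⟨h1, h2, h3, h4⟩
    refine Ed (-D4) (-D1) D2 (-D3) (by omega) (by omega) h3 (by omega) (by omega) ?_
    rw [← sub_eq_zero, ← hrel]
    module
  have hcases := sign_cases D1 D2 D3 D4 hsum hne s1 s1' s2 s2' s3 s3' s4 s4'
  clear s1 s1' s2 s2' s3 s3' s4 s4' hne hrel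
  rcases hcases with ⟨h1, h2, h3, h4⟩ | ⟨h1, h2, h3, h4⟩ | ⟨h1, h2, h3, h4⟩ | ⟨h1, h2, h3, h4⟩ |
    ⟨h1, h2, h3, h4⟩ | ⟨h1, h2, h3, h4⟩
  · exact ⟨a, b, c, d, rfl, by omega, by omega, by omega, by omega⟩
  · refine ⟨a, d, c, b, ?_, by omega, by omega, by omega, by omega⟩
    ext x; simp only [Set.mem_insert_iff, Set.mem_singleton_iff]; tauto
  · refine ⟨a, d, b, c, ?_, by omega, by omega, by omega, by omega⟩
    ext x; simp only [Set.mem_insert_iff, Set.mem_singleton_iff]; tauto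
  · refine ⟨a, c, b, d, ?_, by omega, by omega, by omega, by omega⟩
    ext x; simp only [Set.mem_insert_iff, Set.mem_singleton_iff]; tauto
  · refine ⟨a, c, d, b, ?_, by omega, by omega, by omega, by omega⟩
    ext x; simp only [Set.mem_insert_iff, Set.mem_singleton_iff]; tauto
  · refine ⟨a, b, d, c, ?_, by omega, by omega, by omega, by omega⟩
    ext x; simp only [Set.mem_insert_iff, Set.mem_singleton_iff]; tauto

end Pool.Agent.Lib.MP_a785c8_co
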