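import Pool.Agent.Lib.MP_a785c8_co.Dual
import Pool.Agent.Lib.MP_a785c8_co.Order4
import Pool.Agent.Lib.MP_a785c8_co.Faces
import Mathlib.Analysis.Convex.KreinMilman
import Mathlib.Analysis.Convex.Topology
import Mathlib.Analysis.LocallyConvex.WithSeminorms
import Mathlib.LinearAlgebra.AffineSpace.AffineSubspace.Basic
import Mathlib.LinearAlgebra.FiniteDimensional.Lemmas

/-!
From faces of the convex hull to quadrangles of integer vectors.
-/

set_option autoImplicit false

namespace Pool.Agent.Lib.MP_a785c8_co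

open Finset

variable {η : Fin 3 → Fin 3 → ℝ}

theorem lr_isLinear (w : Fin 3 → ℝ) : IsLinearMap ℝ (lr w) := by
  constructor
  · intro x y
    simp only [lr, Pi.add_apply]; ring
  · intro c x
    simp only [lr, Pi.smul_apply, smul_eq_mul]; ring

theorem hull_ge {w : Fin 3 → ℝ} {c : ℝ} {T : Set Z3} (h : ∀ z ∈ T, c ≤ lf w z) :
    ∀ X ∈ convexHull ℝ (rc '' T), c ≤ lr w X := by
  have hc : Convex ℝ {X : Fin 3 → ℝ | c ≤ lr w X} := convex_halfSpace_ge (lr_isLinear w) c
  have hsub : rc '' T ⊆ {X : Fin 3 → ℝ | c ≤ lr w X} := by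
    rintro _ ⟨z, hz, rfl⟩
    simp only [Set.mem_setOf_eq, lr_rc]
    exact h z hz
  intro X hX
  exact convexHull_min hsub hc hX

theorem hull_le {w : Fin 3 → ℝ} {c : ℝ} {T : Set Z3} (h : ∀ z ∈ T, lf w z ≤ c) :
    ∀ X ∈ convexHull ℝ (rc '' T), lr w X ≤ c := by
  have hc : Convex ℝ {X : Fin 3 → ℝ | lr w X ≤ c} := convex_halfSpace_le (lr_isLinear w) c
  have hsub : rc '' T ⊆ {X : Fin 3 → ℝ | lr w X ≤ c} := by
    rintro _ ⟨z, hz, rfl⟩
    simp only [Set.mem_setOf_eq, lr_rc]
    exact h z hz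
  intro X hX
  exact convexHull_min hsub hc hX

/-- the face of the hull is the hull of its integer points -/
theorem face_eq {w : Fin 3 → ℝ} (hmin : ∀ x, Pos η x → 1 ≤ lf w x) :
    {X ∈ convexHull ℝ (rc '' {z | Pos η z}) | lr w X = 1} =
      convexHull ℝ (rc '' {z | Pos η z ∧ lf w z = 1}) := by
  apply Set.Subset.antisymm
  · rintro X ⟨hX, hX1⟩
    set Q : Set (Fin 3 → ℝ) := {X | 1 < lr w X ∨ (X ∈ convexHull ℝ
      (rc '' {z | Pos η z ∧ lf w z = 1}))} with hQ
    have hQ1 : ∀ X ∈ Q, 1 ≤ lr w X := by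
      rintro Y (hY | hY)
      · exact hY.le
      · exact hull_ge (fun z hz => hz.2.ge) Y hY
    have hconv : Convex ℝ Q := by
      intro Y hY Z hZ a b ha hb hab
      have hlin : lr w (a • Y + b • Z) = a * lr w Y + b * lr w Z := by
        simp only [lr, Pi.add_apply, Pi.smul_apply, smul_eq_mul]; ring
      have hY1 := hQ1 Y hY
      have hZ1 := hQ1 Z hZ
      rcases eq_or_lt_of_le ha with ha0 | ha0
      · rw [← ha0] at hab ⊢
        have hb1 : b = 1 := by linarith
        rw [hb1, zero_smul, one_smul, zero_add]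
        exact hZ
      rcases eq_or_lt_of_le hb with hb0 | hb0
      · rw [← hb0] at hab ⊢
        have hb1 : a = 1 := by linarith
        rw [hb1, zero_smul, one_smul, add_zero]
        exact hY
      rcases hY with hY | hY
      · left
        show 1 < lr w (a • Y + b • Z)
        rw [hlin]
        nlinarith
      rcases hZ with hZ | hZ
      · left
        show 1 < lr w (a • Y + b • Z)
        rw [hlin]
        nlinarith
      right
      exact (convex_convexHull ℝ _) hY hZ ha hb hab
    have hgen : rc '' {z | Pos η z} ⊆ Q := by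
      rintro _ ⟨z, hz, rfl⟩
      rcases eq_or_lt_of_le (hmin z hz) with h | h
      · right
        exact subset_convexHull ℝ _ ⟨z, ⟨hz, h.symm⟩, rfl⟩
      · left
        show 1 < lr w (rc z)
        rw [lr_rc]
        exact h
    rcases convexHull_min hgen hconv hX with h | h
    · exact absurd hX1 (ne_of_gt h)
    · exact h
  · intro X hX
    refine ⟨convexHull_mono ?_ hX, ?_⟩
    · rintro _ ⟨z, hz, rfl⟩
      exact ⟨z, hz.1, rfl⟩
    · exact le_antisymm (hull_le (fun z hz => hz.2.le) X hX) (hull_ge (fun z hz => hz.2.ge) X hX)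

/-- the dimension of the face -/
theorem face_dim {w : Fin 3 → ℝ} {F : Set (Fin 3 → ℝ)} (hF : ∀ X ∈ F, lr w X = 1)
    {x1 x2 x3 : Z3} (h1 : rc x1 ∈ F) (h2 : rc x2 ∈ F) (h3 : rc x3 ∈ F)
    (hd : dt x1 x2 x3 ≠ 0) : Module.finrank ℝ (vectorSpan ℝ F) = 2 := by
  have hdR : dt (rc x1) (rc x2) (rc x3) ≠ 0 := by
    rw [dt_rc]
    exact_mod_cast hd
  apply le_antisymm
  · -- contained in the kernel
    set φ : (Fin 3 → ℝ) →ₗ[ℝ] ℝ := IsLinearMap.mk' (lr w) (lr_isLinear w) with hφ
    have hle : vectorSpan ℝ F ≤ LinearMap.ker φ := by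
      rw [vectorSpan_def, Submodule.span_le]
      rintro _ ⟨X, hX, Y, hY, rfl⟩
      show φ (X -ᵥ Y) = 0
      rw [vsub_eq_sub, map_sub]
      show lr w X - lr w Y = 0
      rw [hF X hX, hF Y hY, sub_self]
    have hne : vectorSpan ℝ F ≠ ⊤ := by
      intro htop
      have hmem : rc x1 ∈ vectorSpan ℝ F := by rw [htop]; trivial
      have := hle hmem
      have h0 : lr w (rc x1) = 0 := this
      rw [hF _ h1] at h0
      exact one_ne_zero h0
    have := Submodule.finrank_lt hne
    rw [Module.finrank_fin_fun] at this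
    omega
  · have hli : LinearIndependent ℝ ![rc x2 - rc x1, rc x3 - rc x1] := by
      rw [LinearIndependent.pair_iff]
      intro s t hst
      have e : s • rc x2 + t • rc x3 - (s + t) • rc x1 = 0 := by
        rw [← hst, smul_sub, smul_sub, add_smul]
        abel
      have e2 : s * dt (rc x1) (rc x2) (rc x3) = 0 := by
        have : dt (rc x1) (s • rc x2 + t • rc x3 - (s + t) • rc x1) (rc x3) =
            s * dt (rc x1) (rc x2) (rc x3) := by
          simp only [dt, Pi.add_apply, Pi.sub_apply, Pi.smul_apply, smul_eq_mul]; ring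
        rw [← this, e]
        simp [dt]
      have e3 : t * dt (rc x1) (rc x2) (rc x3) = 0 := by
        have : dt (rc x1) (rc x2) (s • rc x2 + t • rc x3 - (s + t) • rc x1) =
            t * dt (rc x1) (rc x2) (rc x3) := by
          simp only [dt, Pi.add_apply, Pi.sub_apply, Pi.smul_apply, smul_eq_mul]; ring
        rw [← this, e]
        simp [dt]
      exact ⟨(mul_eq_zero.1 e2).resolve_right hdR, (mul_eq_zero.1 e3).resolve_right hdR⟩
    have hspan := finrank_span_eq_card hli
    have hspan2 : Module.finrank ℝ (Submodule.span ℝ (Set.range ![rc x2 - rc x1, rc x3 - rc x1]))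
        = 2 := by rw [hspan]; rfl
    rw [← hspan2]
    apply Submodule.finrank_mono
    rw [Submodule.span_le]
    rintro _ ⟨i, rfl⟩
    fin_cases i
    · exact vsub_mem_vectorSpan ℝ h2 h1
    · exact vsub_mem_vectorSpan ℝ h3 h1

/-- three vectors in the plane of two vectors -/
theorem dt_plane {a b x1 x2 x3 r : Z3} (hr : dt a b r ≠ 0) (h1 : dt a b x1 = 0)
    (h2 : dt a b x2 = 0) (h3 : dt a b x3 = 0) : dt x1 x2 x3 = 0 := by
  set D := dt a b r with hD
  have e1 := cramer a b r x1
  have e2 := cramer a b r x2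
  have e3 := cramer a b r x3
  rw [h1, zero_smul, add_zero] at e1
  rw [h2, zero_smul, add_zero] at e2
  rw [h3, zero_smul, add_zero] at e3
  have h : dt (D • x1) (D • x2) (D • x3) = 0 := by
    rw [e1, e2, e3]
    simp only [dt, Pi.add_apply, Pi.smul_apply, smul_eq_mul]
    ring
  rw [dt_smul1, dt_smul2, dt_smul3] at h
  have h' := (mul_eq_zero.1 h).resolve_left hr
  have h'' := (mul_eq_zero.1 h').resolve_left hr
  exact (mul_eq_zero.1 h'').resolve_left hr

/-- an extreme point is not a convex combination of three others -/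
theorem ext_of_extreme {F : Set (Fin 3 → ℝ)} (hF : Convex ℝ F) {p q r s : Z3}
    (hp : rc p ∈ F.extremePoints ℝ) (hq : rc q ∈ F) (hr : rc r ∈ F) (hs : rc s ∈ F)
    (hpq : p ≠ q) (hpr : p ≠ r) (hps : p ≠ s) : Ext p q r s := by
  intro N α β γ hN hα hβ hγ hsum heq
  have hp' := (hF.mem_extremePoints_iff_mem_sdiff_convexHull_sdiff.1 hp).2
  apply hp'
  have hNR : (0 : ℝ) < N := by exact_mod_cast hN
  have e : rc p = ((α : ℝ) / N) • rc q + ((β : ℝ) / N) • rc r + ((γ : ℝ) / N) • rc s := by
    ext i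
    have := congrFun heq i
    simp only [Pi.smul_apply, Pi.add_apply, smul_eq_mul] at this
    have hR : (N : ℝ) * p i = α * q i + β * r i + γ * s i := by exact_mod_cast this
    simp only [Pi.add_apply, Pi.smul_apply, smul_eq_mul, rc_apply]
    field_simp
    linarith
  have hmem : ∀ z : Z3, rc z ∈ F → p ≠ z → rc z ∈ convexHull ℝ (F \ {rc p}) := by
    intro z hz hpz
    apply subset_convexHull
    refine ⟨hz, fun h => hpz ?_⟩
    exact (rc_inj (Set.mem_singleton_iff.1 h)).symm
  have hc := convex_convexHull ℝ (F \ {rc p})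
  have hs1 : (α : ℝ) / N + β / N + γ / N = 1 := by
    have : (α : ℝ) + β + γ = N := by exact_mod_cast hsum
    rw [← add_div, ← add_div, this, div_self hNR.ne']
  have hαR : (0 : ℝ) ≤ (α : ℝ) / N := div_nonneg (by exact_mod_cast hα) hNR.le
  have hβR : (0 : ℝ) ≤ (β : ℝ) / N := div_nonneg (by exact_mod_cast hβ) hNR.le
  have hγR : (0 : ℝ) ≤ (γ : ℝ) / N := div_nonneg (by exact_mod_cast hγ) hNR.le
  have := hc.sum_mem (t := (Finset.univ : Finset (Fin 3)))
    (w := ![(α : ℝ) / N, (β : ℝ) / N, (γ : ℝ) / N]) (z := ![rc q, rc r, rc s])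
    (by
      intro i _
      fin_cases i
      · exact hαR
      · exact hβR
      · exact hγR)
    (by
      rw [Fin.sum_univ_three]
      simpa using hs1)
    (by
      intro i _
      fin_cases i
      · exact hmem q hq hpq
      · exact hmem r hr hpr
      · exact hmem s hs hps)
  rw [Fin.sum_univ_three] at this
  simp only [Matrix.cons_val_zero, Matrix.cons_val_one, Matrix.cons_val] at this
  rw [← e] at this
  exact this

theorem ncard_four {S : Set Z3} (h : S.ncard = 4) : ∃ a b c d, a ≠ b ∧ a ≠ c ∧ a ≠ d ∧ b ≠ c ∧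
    b ≠ d ∧ c ≠ d ∧ S = {a, b, c, d} := by
  have hfin : S.Finite := Set.finite_of_ncard_ne_zero (by omega)
  have hne : S.Nonempty := by
    rw [← Set.ncard_pos hfin]; omega
  obtain ⟨a, ha⟩ := hne
  have h3 : (S \ {a}).ncard = 3 := by
    rw [Set.ncard_sdiff_singleton_of_mem ha, h]
  obtain ⟨b, c, d, hbc, hbd, hcd, hS⟩ := Set.ncard_eq_three.1 h3
  have hb : b ∈ S \ {a} := by rw [hS]; simp
  have hc : c ∈ S \ {a} := by rw [hS]; simp
  have hd : d ∈ S \ {a} := by rw [hS]; simp
  refine ⟨a, b, c, d, fun e => hb.2 e.symm, fun e => hc.2 e.symm, fun e => hd.2 e.symm, hbc, hbd,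
    hcd, ?_⟩
  rw [← hS]
  ext x
  simp only [Set.mem_insert_iff, Set.mem_sdiff, Set.mem_singleton_iff]
  constructor
  · intro hx
    by_cases hxa : x = a
    · exact Or.inl hxa
    · exact Or.inr ⟨hx, hxa⟩
  · rintro (rfl | h)
    · exact ha
    · exact h.1

/-- **From faces to quadrangles.** -/
theorem allQuad_of (hC : Cone η)
    (H : ∀ w : Fin 3 → ℝ, w ≠ 0 → (∀ X ∈ convexHull ℝ (rc '' {z | Pos η z}), 1 ≤ lr w X) →
      Module.finrank ℝ (vectorSpan ℝ {X ∈ convexHull ℝ (rc '' {z | Pos η z}) | lr w X = 1}) = 2 →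
      (Set.extremePoints ℝ {X ∈ convexHull ℝ (rc '' {z | Pos η z}) | lr w X = 1}).ncard = 4) :
    AllQuad η := by
  intro w hmin x1 x2 x3 p1 p2 p3 l1 l2 l3 hd
  have hw : w ≠ 0 := by
    rintro rfl
    simp [lf] at l1
  set SL : Set Z3 := {z | Pos η z ∧ lf w z = 1} with hSL
  set F : Set (Fin 3 → ℝ) := convexHull ℝ (rc '' SL) with hF
  have hface := face_eq hmin
  have hF1 : ∀ X ∈ F, lr w X = 1 := fun X hX =>
    le_antisymm (hull_le (fun z hz => hz.2.le) X hX) (hull_ge (fun z hz => hz.2.ge) X hX)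
  have hmemF : ∀ z ∈ SL, rc z ∈ F := fun z hz => subset_convexHull ℝ _ ⟨z, hz, rfl⟩
  have hFconv : Convex ℝ F := convex_convexHull ℝ _
  have hdim : Module.finrank ℝ (vectorSpan ℝ F) = 2 :=
    face_dim hF1 (hmemF x1 ⟨p1, l1⟩) (hmemF x2 ⟨p2, l2⟩) (hmemF x3 ⟨p3, l3⟩) hd
  have hcard := H w hw (hull_ge hmin) (by rw [hface]; exact hdim)
  rw [hface] at hcard
  -- finiteness
  have hSLfin : SL.Finite := by
    obtain ⟨lam, hlam⟩ := hC.exists_comb w
    have hpos : ∀ i, 0 < lam i := hC.coord_pos (by rw [← hlam]; exact hmin)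
    apply (hC.finite_sub hpos 1).subset
    rintro z ⟨hz, hz1⟩
    refine ⟨hz, ?_⟩
    rw [← hlam]
    exact hz1.le
  have hEsub : Set.extremePoints ℝ F ⊆ rc '' SL := extremePoints_convexHull_subset
  have hEfin : (Set.extremePoints ℝ F).Finite := (hSLfin.image rc).subset hEsub
  have hFE : F = convexHull ℝ (Set.extremePoints ℝ F) := by
    have h1 := closure_convexHull_extremePoints
      ((hSLfin.image rc).isCompact_convexHull ℝ) hFconv
    rw [(hEfin.isClosed_convexHull ℝ).closure_eq] at h1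
    exact h1.symm
  set E : Set Z3 := {z | z ∈ SL ∧ rc z ∈ Set.extremePoints ℝ F} with hE
  have hEimg : Set.extremePoints ℝ F = rc '' E := by
    apply Set.Subset.antisymm
    · intro X hX
      obtain ⟨z, hz, rfl⟩ := hEsub hX
      exact ⟨z, ⟨hz, hX⟩, rfl⟩
    · rintro _ ⟨z, hz, rfl⟩
      exact hz.2
  have hEcard : E.ncard = 4 := by
    rw [hEimg, Set.ncard_image_of_injective _ (fun a b h => rc_inj h)] at hcard
    exact hcard
  obtain ⟨a, b, c, d, hab, hac, had, hbc, hbd, hcd, hEeq⟩ := ncard_four hEcard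
  have ha : a ∈ E := by rw [hEeq]; simp
  have hb : b ∈ E := by rw [hEeq]; simp
  have hc : c ∈ E := by rw [hEeq]; simp
  have hd' : d ∈ E := by rw [hEeq]; simp
  have fa := hmemF a ha.1
  have fb := hmemF b hb.1
  have fc := hmemF c hc.1
  have fd := hmemF d hd'.1
  have Ea : Ext a b c d := ext_of_extreme hFconv ha.2 fb fc fd hab hac had
  have Eb : Ext b a c d := ext_of_extreme hFconv hb.2 fa fc fd hab.symm hbc hbd
  have Ec : Ext c a b d := ext_of_extreme hFconv hc.2 fa fb fd hac.symm hbc.symm hcd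
  have Ed : Ext d a b c := ext_of_extreme hFconv hd'.2 fa fb fc had.symm hbd.symm hcd.symm
  have hFE' : F = convexHull ℝ (rc '' {a, b, c, d}) := by
    rw [← hEeq, ← hEimg]
    exact hFE
  -- non-degeneracy
  have hne : ¬ (dt b c d = 0 ∧ dt a c d = 0 ∧ dt a b d = 0 ∧ dt a b c = 0) := by
    rintro ⟨-, -, hd3, hd4⟩
    obtain ⟨r, hr⟩ := exists_dt_ne ha.1.2 hb.1.2 hab
    have hgen : ∀ z ∈ ({a, b, c, d} : Set Z3), dt a b z = 0 := by
      intro z hz
      simp only [Set.mem_insert_iff, Set.mem_singleton_iff] at hz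
      rcases hz with rfl | rfl | rfl | rfl
      · simp
      · simp
      · exact hd4
      · exact hd3
    have hzero : ∀ X ∈ F, lr (crs a b) X = 0 := by
      intro X hX
      rw [hFE'] at hX
      apply le_antisymm
      · apply hull_le _ X hX
        intro z hz
        rw [lf_crs, hgen z hz]
        simp
      · apply hull_ge _ X hX
        intro z hz
        rw [lf_crs, hgen z hz]
        simp
    have hz : ∀ x, Pos η x → lf w x = 1 → dt a b x = 0 := by
      intro x px lx
      have h := hzero _ (hmemF x ⟨px, lx⟩)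
      rw [lr_rc, lf_crs] at h
      exact_mod_cast h
    exact hd (dt_plane hr (hz x1 p1 l1) (hz x2 p2 l2) (hz x3 p3 l3))
  obtain ⟨a', b', c', d', hset, g1, g2, g3, g4⟩ :=
    order4 ha.1.2 hb.1.2 hc.1.2 hd'.1.2 Ea Eb Ec Ed hne
  have hin : ∀ z ∈ ({a', b', c', d'} : Set Z3), z ∈ SL := by
    intro z hz
    rw [hset, ← hEeq] at hz
    exact hz.1
  have ia := hin a' (by simp)
  have ib := hin b' (by simp)
  have ic := hin c' (by simp)
  have id' := hin d' (by simp)
  refine ⟨a', b', c', d', ⟨ia.1, ib.1, ic.1, id'.1, ia.2, ib.2, ic.2, id'.2, g1, g2, g3, g4⟩, ?_⟩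
  rw [← hset] at hFE'
  intro x px lx
  have hx := hmemF x ⟨px, lx⟩
  rw [hFE'] at hx
  have side : ∀ p q : Z3, (∀ z ∈ ({a', b', c', d'} : Set Z3), 0 ≤ dt p q z) → 0 ≤ dt p q x := by
    intro p q hpq
    have h : (0 : ℝ) ≤ lr (crs p q) (rc x) := by
      apply hull_ge _ _ hx
      intro z hz
      rw [lf_crs]
      exact_mod_cast hpq z hz
    rw [lr_rc, lf_crs] at h
    exact_mod_cast h
  have cyc : ∀ p q r : Z3, dt q r p = dt p q r := fun p q r => dt_cyc p q r
  constructor
  · apply side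
    intro z hz
    simp only [Set.mem_insert_iff, Set.mem_singleton_iff] at hz
    rcases hz with rfl | rfl | rfl | rfl
    · simp
    · simp
    · exact g1.le
    · rw [cyc]; exact g4.le
  · apply side
    intro z hz
    simp only [Set.mem_insert_iff, Set.mem_singleton_iff] at hz
    rcases hz with rfl | rfl | rfl | rfl
    · rw [cyc]; exact g1.le
    · simp
    · simp
    · exact g2.le
  · apply side
    intro z hz
    simp only [Set.mem_insert_iff, Set.mem_singleton_iff] at hz
    rcases hz with rfl | rfl | rfl | rfl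
    · exact g3.le
    · rw [cyc]; exact g2.le
    · simp
    · simp
  · apply side
    intro z hz
    simp only [Set.mem_insert_iff, Set.mem_singleton_iff] at hz
    rcases hz with rfl | rfl | rfl | rfl
    · simp
    · exact g4.le
    · rw [cyc]; exact g3.le
    · simp

end Pool.Agent.Lib.MP_a785c8_co
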