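import Pool.Agent.Lib.MP_a785c8_co.Link
import Pool.Agent.Lib.MP_a785c8_co.Final

/-!
The main theorem: no algebraic sail has only quadrangular faces.
-/

set_option autoImplicit false

namespace Pool.Agent.Lib.MP_a785c8_co

/-- no algebraic sail has only quadrangular faces -/
theorem main_false {A : Matrix (Fin 3) (Fin 3) ℤ} {v : Fin 3 → (Fin 3 → ℝ)} {μ : Fin 3 → ℝ}
    (hirr : Irreducible (A.charpoly.map (Int.castRingHom ℚ)))
    (hli : LinearIndependent ℝ v)
    (heig : ∀ i, (A.map (fun a : ℤ => (a : ℝ))).mulVec (v i) = μ i • v i)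
    (H : ∀ (w : Fin 3 → ℝ) (c : ℝ),
        w ≠ 0 →
        (∀ x ∈ convexHull ℝ
            {x : Fin 3 → ℝ |
              (∃ t : Fin 3 → ℝ, (∀ i, 0 ≤ t i) ∧ x = ∑ i, t i • v i) ∧
              ∃ z : Fin 3 → ℤ, z ≠ 0 ∧ x = fun j => (z j : ℝ)},
            c ≤ dotProduct w x) →
        Module.finrank ℝ (vectorSpan ℝ
          {x ∈ convexHull ℝ
            {x : Fin 3 → ℝ |
              (∃ t : Fin 3 → ℝ, (∀ i, 0 ≤ t i) ∧ x = ∑ i, t i • v i) ∧
              ∃ z : Fin 3 → ℤ, z ≠ 0 ∧ x = fun j => (z j : ℝ)} |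
            dotProduct w x = c}) = 2 →
        (Set.extremePoints ℝ
          {x ∈ convexHull ℝ
            {x : Fin 3 → ℝ |
              (∃ t : Fin 3 → ℝ, (∀ i, 0 ≤ t i) ∧ x = ∑ i, t i • v i) ∧
              ∃ z : Fin 3 → ℤ, z ≠ 0 ∧ x = fun j => (z j : ℝ)} |
            dotProduct w x = c}).ncard = 4) : False := by
  obtain ⟨η, hC, hcoord, hexp⟩ := exists_dual hirr hli heig
  have hS : {x : Fin 3 → ℝ |
      (∃ t : Fin 3 → ℝ, (∀ i, 0 ≤ t i) ∧ x = ∑ i, t i • v i) ∧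
      ∃ z : Fin 3 → ℤ, z ≠ 0 ∧ x = fun j => (z j : ℝ)} = rc '' {z | Pos η z} := by
    ext x
    constructor
    · rintro ⟨⟨t, ht, hx⟩, z, hz, hxz⟩
      refine ⟨z, fun i => ?_, hxz.symm⟩
      have h1 : yy η i z = t i := by
        show lf (η i) z = t i
        rw [← lr_rc]
        have h2 : rc z = x := hxz.symm
        rw [h2, hx]
        exact hcoord t i
      have h3 : yy η i z ≠ 0 := hC.y_ne i z hz
      rw [h1] at h3 ⊢
      exact lt_of_le_of_ne (ht i) (Ne.symm h3)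
    · rintro ⟨z, hz, rfl⟩
      refine ⟨⟨fun j => lr (η j) (rc z), fun i => ?_, hexp (rc z)⟩, z, ?_, rfl⟩
      · show 0 ≤ lr (η i) (rc z)
        rw [lr_rc]
        exact (hz i).le
      · rintro rfl
        have := hz 0
        simp [yy] at this
  rw [hS] at H
  refine no_all_quad hC (allQuad_of hC (fun w hw h1 h2 => ?_))
  have hF : {x ∈ convexHull ℝ (rc '' {z | Pos η z}) | dotProduct w x = 1} =
      {x ∈ convexHull ℝ (rc '' {z | Pos η z}) | lr w x = 1} := by
    ext x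
    simp only [lr_dot]
  have h := H w 1 hw (fun x hx => by rw [lr_dot]; exact h1 x hx)
  rw [hF] at h
  exact h h2

end Pool.Agent.Lib.MP_a785c8_co
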