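import Pool.Agent.Lib.MP_a785c8_co.Det

/-!
Lattice geometry in an affine plane: empty triangles generate the plane lattice, and a
strictly convex quadrilateral of minimal area is a parallelogram or a diamond.
-/

set_option autoImplicit false

namespace Pool.Agent.Lib.MP_a785c8_co

open Finset

section Plane4

variable {w : Fin 3 → ℝ}

theorem plane4 {a b c x : Z3} (ha : lf w a = 1) (hb : lf w b = 1) (hc : lf w c = 1)
    (hx : lf w x = 1) : dt a b c = dt x b c + dt a x c + dt a b x := by
  have h := lf_cramer w a b c x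
  rw [ha, hb, hc, hx] at h
  simp only [mul_one] at h
  exact_mod_cast h

/-- An empty triangle generates the lattice of its plane. -/
theorem empty_generates {p q r : Z3} (hp : lf w p = 1) (hq : lf w q = 1) (hr : lf w r = 1)
    (hD : 0 < dt p q r)
    (hempty : ∀ x, lf w x = 1 → 0 ≤ dt x q r → 0 ≤ dt p x r → 0 ≤ dt p q x →
      x = p ∨ x = q ∨ x = r) (x : Z3) (hx : lf w x = 1) :
    ∃ m n : ℤ, x = p + m • (q - p) + n • (r - p) := by
  set D := dt p q r with hDdef
  set m := dt p x r / D with hm
  set n := dt p q x / D with hn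
  refine ⟨m, n, ?_⟩
  set x' := x - m • (q - p) - n • (r - p) with hx'
  have hx'1 : lf w x' = 1 := by
    rw [hx', lf_sub, lf_sub, lf_smul, lf_smul, lf_sub, lf_sub, hp, hq, hr, hx]
    ring
  have hβ : dt p x' r = dt p x r - m * D := by
    rw [hx', dt_sub2, dt_sub2, dt_smul2, dt_smul2, dt_sub2, dt_sub2, dt_self1, dt_self2]
    ring
  have hγ : dt p q x' = dt p q x - n * D := by
    rw [hx', dt_sub3, dt_sub3, dt_smul3, dt_smul3, dt_sub3, dt_sub3, dt_self2, dt_self3]
    ring
  have hβ' : dt p x' r = dt p x r % D := by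
    rw [hβ, hm]
    have := Int.emod_add_mul_ediv (dt p x r) D
    linarith
  have hγ' : dt p q x' = dt p q x % D := by
    rw [hγ, hn]
    have := Int.emod_add_mul_ediv (dt p q x) D
    linarith
  have b1 : 0 ≤ dt p x' r := by rw [hβ']; exact Int.emod_nonneg _ hD.ne'
  have b2 : dt p x' r < D := by rw [hβ']; exact Int.emod_lt_of_pos _ hD
  have c1 : 0 ≤ dt p q x' := by rw [hγ']; exact Int.emod_nonneg _ hD.ne'
  have c2 : dt p q x' < D := by rw [hγ']; exact Int.emod_lt_of_pos _ hD
  have hsum := plane4 hp hq hr hx'1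
  have hxx : x' = p → x = p + m • (q - p) + n • (r - p) := by
    intro h
    have h' : x - m • (q - p) - n • (r - p) = p := h
    calc x = (x - m • (q - p) - n • (r - p)) + m • (q - p) + n • (r - p) := by abel
      _ = p + m • (q - p) + n • (r - p) := by rw [h']
  by_cases hα : 0 ≤ dt x' q r
  · rcases hempty x' hx'1 hα b1 c1 with h | h | h
    · exact hxx h
    · exfalso
      rw [h] at b2
      exact lt_irrefl _ b2
    · exfalso
      rw [h] at c2
      exact lt_irrefl _ c2
  · exfalso
    set x'' := q + r - x' with hx''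
    have hx''1 : lf w x'' = 1 := by
      rw [hx'', lf_sub, lf_add, hq, hr, hx'1]
      ring
    have e1 : dt p x'' r = D - dt p x' r := by
      rw [hx'', dt_sub2, dt_add2, dt_self2]
      ring
    have e2 : dt p q x'' = D - dt p q x' := by
      rw [hx'', dt_sub3, dt_add3, dt_self2]
      ring
    have e3 : dt x'' q r = - dt x' q r := by
      rw [hx'', dt_sub1, dt_add1, dt_self1, dt_self3]
      ring
    rcases hempty x'' hx''1 (by rw [e3]; omega) (by rw [e1]; omega) (by rw [e2]; omega) with
      h | h | h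
    · rw [h, dt_self1] at e1
      omega
    · rw [h, dt_self2] at e2
      omega
    · rw [h, dt_self2] at e1
      omega

end Plane4

/-- positivity of all three forms -/
def Pos (η : Fin 3 → Fin 3 → ℝ) (x : Z3) : Prop := ∀ i, 0 < yy η i x

variable {η : Fin 3 → Fin 3 → ℝ} {w : Fin 3 → ℝ}

theorem pos_of_triangle {a b c x : Z3} (ha : lf w a = 1) (hb : lf w b = 1) (hc : lf w c = 1)
    (hx : lf w x = 1) (pa : Pos η a) (pb : Pos η b) (pc : Pos η c) (hD : 0 < dt a b c)
    (h1 : 0 ≤ dt x b c) (h2 : 0 ≤ dt a x c) (h3 : 0 ≤ dt a b x) : Pos η x := by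
  intro i
  have h := lf_cramer (η i) a b c x
  have hs := plane4 ha hb hc hx
  have hD' : (0 : ℝ) < (dt a b c : ℤ) := by exact_mod_cast hD
  have h1' : (0 : ℝ) ≤ (dt x b c : ℤ) := by exact_mod_cast h1
  have h2' : (0 : ℝ) ≤ (dt a x c : ℤ) := by exact_mod_cast h2
  have h3' : (0 : ℝ) ≤ (dt a b x : ℤ) := by exact_mod_cast h3
  have hs' : ((dt a b c : ℤ) : ℝ) = (dt x b c : ℤ) + (dt a x c : ℤ) + (dt a b x : ℤ) := by
    exact_mod_cast hs
  have pai := pa i
  have pbi := pb i
  have pci := pc i
  show 0 < lf (η i) x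
  have hpos : 0 < ((dt a b c : ℤ) : ℝ) * lf (η i) x := by
    rw [h]
    by_contra hcon
    push Not at hcon
    have q1 := mul_nonneg h1' pai.le
    have q2 := mul_nonneg h2' pbi.le
    have q3 := mul_nonneg h3' pci.le
    have z1 : ((dt x b c : ℤ) : ℝ) * yy η i a = 0 := by
      simp only [yy] at q1 q2 q3 ⊢
      linarith
    have z2 : ((dt a x c : ℤ) : ℝ) * yy η i b = 0 := by
      simp only [yy] at q1 q2 q3 ⊢
      linarith
    have z3 : ((dt a b x : ℤ) : ℝ) * yy η i c = 0 := by
      simp only [yy] at q1 q2 q3 ⊢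
      linarith
    rcases mul_eq_zero.1 z1 with z1 | z1
    swap
    · linarith
    rcases mul_eq_zero.1 z2 with z2 | z2
    swap
    · linarith
    rcases mul_eq_zero.1 z3 with z3 | z3
    swap
    · linarith
    linarith
  exact (mul_pos_iff_of_pos_left hD').1 hpos

/-- a strictly convex quadrilateral of positive vectors in the plane `w = 1` -/
structure QV (η : Fin 3 → Fin 3 → ℝ) (w : Fin 3 → ℝ) (a b c d : Z3) : Prop where
  pa : Pos η a
  pb : Pos η b
  pc : Pos η c
  pd : Pos η d
  la : lf w a = 1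
  lb : lf w b = 1
  lc : lf w c = 1
  ld : lf w d = 1
  abc : 0 < dt a b c
  bcd : 0 < dt b c d
  cda : 0 < dt c d a
  dab : 0 < dt d a b

theorem QV.rot {a b c d : Z3} (h : QV η w a b c d) : QV η w b c d a :=
  ⟨h.pb, h.pc, h.pd, h.pa, h.lb, h.lc, h.ld, h.la, h.bcd, h.cda, h.dab, h.abc⟩

theorem QV.area {a b c d : Z3} (h : QV η w a b c d) :
    dt a b c + dt c d a = dt b c d + dt d a b := by
  have := plane4 h.la h.lb h.lc h.ld
  have e1 : dt d b c = dt b c d := (dt_cyc d b c).symm
  have e2 : dt a d c = - dt a c d := dt_swap' a c d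
  have e4 : dt d a b = dt a b d := (dt_cyc d a b).symm
  have e5 : dt c d a = dt a c d := dt_cyc a c d
  omega

/-- minimality of the area -/
def MinQ (η : Fin 3 → Fin 3 → ℝ) (w : Fin 3 → ℝ) (a b c d : Z3) : Prop :=
  QV η w a b c d ∧ ∀ a' b' c' d', QV η w a' b' c' d' →
    dt a b c + dt c d a ≤ dt a' b' c' + dt c' d' a'

theorem MinQ.rot {a b c d : Z3} (h : MinQ η w a b c d) : MinQ η w b c d a := by
  refine ⟨h.1.rot, fun a' b' c' d' h' => ?_⟩
  have h1 := h.2 a' b' c' d' h'
  rw [h.1.area] at h1
  exact h1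

/-- membership in the closed quadrilateral -/
structure InQ (a b c d x : Z3) : Prop where
  abx : 0 ≤ dt a b x
  bcx : 0 ≤ dt b c x
  cdx : 0 ≤ dt c d x
  dax : 0 ≤ dt d a x

theorem InQ.rot {a b c d x : Z3} (h : InQ a b c d x) : InQ b c d a x :=
  ⟨h.bcx, h.cdx, h.dax, h.abx⟩

theorem MinQ.side {a b c d x : Z3} (h : MinQ η w a b c d) (px : Pos η x) (lx : lf w x = 1)
    (hx : InQ a b c d x) (hxa : x ≠ a) : dt b d x ≤ 0 := by
  by_contra hcon
  push Not at hcon
  obtain ⟨hq, hmin⟩ := h
  have c1 : dt d x b = dt b d x := dt_cyc b d x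
  have c2 : dt x b c = dt b c x := (dt_cyc x b c).symm
  have habd : 0 < dt a b d := by
    have := dt_cyc d a b
    rw [this]
    exact hq.dab
  -- the point is not on the line `bc`
  have k1 : 0 < dt b c x := by
    rcases lt_or_eq_of_le hx.bcx with h1 | h1
    · exact h1
    · exfalso
      have id1 : dt a b x * dt b c d = dt b x d * dt a b c + dt b c x * dt a b d := by
        simp only [dt]; ring
      rw [← h1] at id1
      have e : dt b x d = - dt b d x := dt_swap' b d x
      rw [e] at id1
      have := hx.abx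
      nlinarith [hq.bcd, hq.abc, mul_pos hcon hq.abc, mul_nonneg this hq.bcd.le]
  have k2 : 0 < dt c d x := by
    rcases lt_or_eq_of_le hx.cdx with h1 | h1
    · exact h1
    · exfalso
      have id1 : dt d a x * dt b c d = dt c d x * dt d a b + dt b x d * dt d a c := by
        simp only [dt]; ring
      rw [← h1] at id1
      have e : dt b x d = - dt b d x := dt_swap' b d x
      have e2 : dt d a c = dt c d a := dt_cyc c d a
      rw [e, e2] at id1
      have := hx.dax
      nlinarith [hq.bcd, hq.cda, mul_pos hcon hq.cda, mul_nonneg this hq.bcd.le]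
  have hQ : QV η w x b c d := by
    refine ⟨px, hq.pb, hq.pc, hq.pd, lx, hq.lb, hq.lc, hq.ld, ?_, hq.bcd, k2, ?_⟩
    · rw [c2]; exact k1
    · rw [c1]; exact hcon
  have h1 := hmin _ _ _ _ hQ
  rw [hq.area, hQ.area] at h1
  -- compare the triangles `abd` and `xbd`
  have h2 := plane4 hq.la hq.lb hq.ld lx
  have e1 : dt d a b = dt a b d := (dt_cyc d a b).symm
  have e2 : dt d x b = dt x b d := (dt_cyc d x b).symm
  have e3 : dt a x d = dt d a x := by
    have := dt_cyc d a x
    rw [← this]
  have hzero1 : dt a x d = 0 := by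
    have := hx.abx
    have := hx.dax
    omega
  have hzero2 : dt a b x = 0 := by
    have := hx.abx
    have := hx.dax
    omega
  apply hxa
  have h3 := cramer a b d x
  rw [hzero1, hzero2, zero_smul, zero_smul, add_zero, add_zero] at h3
  have h4 : dt x b d = dt a b d := by omega
  rw [h4] at h3
  exact smul_right_injective Z3 habd.ne' h3

theorem MinQ.cross {a b c d x : Z3} (h : MinQ η w a b c d) (px : Pos η x) (lx : lf w x = 1)
    (hx : InQ a b c d x) (hxa : x ≠ a) (hxb : x ≠ b) (hxc : x ≠ c) (hxd : x ≠ d) :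
    dt b d x = 0 ∧ dt a c x = 0 := by
  have h1 := h.side px lx hx hxa
  have h2 := h.rot.side px lx hx.rot hxb
  have h3 := h.rot.rot.side px lx hx.rot.rot hxc
  have h4 := h.rot.rot.rot.side px lx hx.rot.rot.rot hxd
  have e1 : dt d b x = - dt b d x := dt_swap b d x
  have e2 : dt c a x = - dt a c x := dt_swap a c x
  constructor <;> omega

end Pool.Agent.Lib.MP_a785c8_co
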