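import Pool.Agent.Lib.MP_a785c8_co.Planar

/-!
The two shapes of a quadrilateral of minimal area, and integrality of the supporting form.
-/

set_option autoImplicit false

namespace Pool.Agent.Lib.MP_a785c8_co

open Finset

variable {η : Fin 3 → Fin 3 → ℝ} {w : Fin 3 → ℝ}

/-- `p, q, r` generate the lattice of the plane `w = 1` -/
def Gen (w : Fin 3 → ℝ) (p q r : Z3) : Prop :=
  ∀ x, lf w x = 1 → ∃ m n : ℤ, x = p + m • (q - p) + n • (r - p)

theorem Gen.dvd {p q r x y z : Z3} (h : Gen w p q r) (hx : lf w x = 1) (hy : lf w y = 1)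
    (hz : lf w z = 1) : dt p q r ∣ dt x y z := by
  obtain ⟨m1, n1, rfl⟩ := h x hx
  obtain ⟨m2, n2, rfl⟩ := h y hy
  obtain ⟨m3, n3, rfl⟩ := h z hz
  refine ⟨(m2 - m1) * (n3 - n1) - (n2 - n1) * (m3 - m1), ?_⟩
  simp only [dt, Pi.add_apply, Pi.smul_apply, Pi.sub_apply, smul_eq_mul]
  ring

theorem eq_of_gen {p q r x y z : Z3} (h1 : Gen w p q r) (h2 : Gen w x y z)
    (hp : lf w p = 1) (hq : lf w q = 1) (hr : lf w r = 1)
    (hx : lf w x = 1) (hy : lf w y = 1) (hz : lf w z = 1)
    (d1 : 0 < dt p q r) (d2 : 0 < dt x y z) : dt p q r = dt x y z :=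
  le_antisymm (Int.le_of_dvd d2 (h1.dvd hx hy hz)) (Int.le_of_dvd d1 (h2.dvd hp hq hr))

/-- an empty corner triangle, when the quadrilateral has no further points -/
theorem QV.corner {a b c d : Z3} (h : QV η w a b c d)
    (hno : ∀ x, Pos η x → lf w x = 1 → InQ a b c d x → x = a ∨ x = b ∨ x = c ∨ x = d) :
    Gen w a b c := by
  intro x hx
  apply empty_generates h.la h.lb h.lc h.abc _ x hx
  intro x hx h1 h2 h3
  have hpos := pos_of_triangle h.la h.lb h.lc hx h.pa h.pb h.pc h.abc h1 h2 h3
  have i1 : dt a b c * dt c d x = dt x b c * dt c d a + dt a x c * dt b c d := by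
    simp only [dt]; ring
  have i2 : dt a b c * dt d a x = dt a x c * dt d a b + dt a b x * dt c d a := by
    simp only [dt]; ring
  have hin : InQ a b c d x := by
    refine ⟨h3, ?_, ?_, ?_⟩
    · rw [← dt_cyc x b c] at h1
      exact h1
    · have : 0 ≤ dt a b c * dt c d x := by
        rw [i1]
        exact add_nonneg (mul_nonneg h1 h.cda.le) (mul_nonneg h2 h.bcd.le)
      exact nonneg_of_mul_nonneg_right this h.abc
    · have : 0 ≤ dt a b c * dt d a x := by
        rw [i2]
        exact add_nonneg (mul_nonneg h2 h.dab.le) (mul_nonneg h3 h.cda.le)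
      exact nonneg_of_mul_nonneg_right this h.abc
  rcases hno x hpos hx hin with h4 | h4 | h4 | h4
  · exact Or.inl h4
  · exact Or.inr (Or.inl h4)
  · exact Or.inr (Or.inr h4)
  · exfalso
    rw [h4] at h2
    have e1 : dt a d c = - dt a c d := dt_swap' a c d
    have e2 : dt c d a = dt a c d := dt_cyc a c d
    have := h.cda
    omega

theorem QV.parallelogram {a b c d : Z3} (h : QV η w a b c d)
    (hno : ∀ x, Pos η x → lf w x = 1 → InQ a b c d x → x = a ∨ x = b ∨ x = c ∨ x = d) :
    a + c = b + d ∧ Gen w a b d := by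
  have g1 : Gen w a b c := h.corner hno
  have g2 : Gen w b c d := h.rot.corner (fun x p1 p2 p3 => by
    rcases hno x p1 p2 p3.rot.rot.rot with h | h | h | h
    · exact Or.inr (Or.inr (Or.inr h))
    · exact Or.inl h
    · exact Or.inr (Or.inl h)
    · exact Or.inr (Or.inr (Or.inl h)))
  have g3 : Gen w c d a := h.rot.rot.corner (fun x p1 p2 p3 => by
    rcases hno x p1 p2 p3.rot.rot with h | h | h | h
    · exact Or.inr (Or.inr (Or.inl h))
    · exact Or.inr (Or.inr (Or.inr h))
    · exact Or.inl h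
    · exact Or.inr (Or.inl h))
  have g4 : Gen w d a b := h.rot.rot.rot.corner (fun x p1 p2 p3 => by
    rcases hno x p1 p2 p3.rot with h | h | h | h
    · exact Or.inr (Or.inl h)
    · exact Or.inr (Or.inr (Or.inl h))
    · exact Or.inr (Or.inr (Or.inr h))
    · exact Or.inl h)
  have e1 := eq_of_gen g1 g2 h.la h.lb h.lc h.lb h.lc h.ld h.abc h.bcd
  have e2 := eq_of_gen g1 g3 h.la h.lb h.lc h.lc h.ld h.la h.abc h.cda
  have e3 := eq_of_gen g1 g4 h.la h.lb h.lc h.ld h.la h.lb h.abc h.dab
  have hc := cramer a b c d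
  have f1 : dt d b c = dt a b c := by rw [e1, dt_cyc d b c]
  have f2 : dt a d c = - dt a b c := by rw [e2, dt_swap' a c d, dt_cyc a c d]
  have f3 : dt a b d = dt a b c := by rw [e3, dt_cyc d a b]
  rw [f1, f2, f3] at hc
  have hd : d = a - b + c := by
    have h1 : dt a b c • d = dt a b c • (a - b + c) := by
      rw [hc]
      module
    exact smul_right_injective Z3 h.abc.ne' h1
  refine ⟨by rw [hd]; abel, ?_⟩
  intro x hx
  obtain ⟨m, n, hmn⟩ := g4 x hx
  refine ⟨n, 1 - m - n, ?_⟩
  rw [hmn]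
  module

/-- geometry around the crossing point -/
theorem QV.side_pos {a b c d o : Z3} (h : QV η w a b c d) (lo : lf w o = 1)
    (ho : InQ a b c d o) (hoa : o ≠ a) (hc : dt a c o = 0) : 0 < dt a b o := by
  rcases lt_or_eq_of_le ho.abx with h1 | h1
  · exact h1
  · exfalso
    apply hoa
    have h2 := cramer a b c o
    have h3 := plane4 h.la h.lb h.lc lo
    have e1 : dt a o c = 0 := by rw [dt_swap' a c o, hc, neg_zero]
    rw [e1, ← h1, zero_smul, zero_smul, add_zero, add_zero] at h2
    rw [e1, ← h1, add_zero, add_zero] at h3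
    rw [← h3] at h2
    exact smul_right_injective Z3 h.abc.ne' h2

theorem MinQ.center {a b c d o : Z3} (h : MinQ η w a b c d) (po : Pos η o) (lo : lf w o = 1)
    (ho : InQ a b c d o) (hoa : o ≠ a) (hob : o ≠ b) (hoc : o ≠ c) (hod : o ≠ d) :
    0 < dt o a b ∧ Gen w o a b := by
  obtain ⟨c1, c2⟩ := h.cross po lo ho hoa hob hoc hod
  have hq := h.1
  have c1' : dt d b o = 0 := by rw [dt_swap b d o, c1, neg_zero]
  have c2' : dt c a o = 0 := by rw [dt_swap a c o, c2, neg_zero]
  have s1 := hq.side_pos lo ho hoa c2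
  have s2 := hq.rot.side_pos lo ho.rot hob c1
  have s3 := hq.rot.rot.side_pos lo ho.rot.rot hoc c2'
  have s4 := hq.rot.rot.rot.side_pos lo ho.rot.rot.rot hod c1'
  have e0 : dt o a b = dt a b o := (dt_cyc o a b).symm
  refine ⟨by rw [e0]; exact s1, ?_⟩
  intro x hx
  apply empty_generates lo hq.la hq.lb (by rw [e0]; exact s1) _ x hx
  intro x hx h1 h2 h3
  have hpos := pos_of_triangle lo hq.la hq.lb hx po hq.pa hq.pb (by rw [e0]; exact s1) h1 h2 h3
  have i1 : dt a b o * dt b c x = dt o x b * dt a b c + dt x a b * dt b c o := by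
    simp only [dt]; ring
  have i2 : dt a b o * dt c d x = dt o x b * dt c d a + dt o a x * dt b c d +
      dt x a b * dt c d o := by
    simp only [dt]; ring
  have i3 : dt a b o * dt d a x = dt o a x * dt d a b + dt x a b * dt d a o := by
    simp only [dt]; ring
  have hin : InQ a b c d x := by
    refine ⟨?_, ?_, ?_, ?_⟩
    · rw [← dt_cyc x a b] at h1
      exact h1
    · have : 0 ≤ dt a b o * dt b c x := by
        rw [i1]
        exact add_nonneg (mul_nonneg h2 hq.abc.le) (mul_nonneg h1 s2.le)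
      exact nonneg_of_mul_nonneg_right this s1
    · have : 0 ≤ dt a b o * dt c d x := by
        rw [i2]
        exact add_nonneg (add_nonneg (mul_nonneg h2 hq.cda.le) (mul_nonneg h3 hq.bcd.le))
          (mul_nonneg h1 s3.le)
      exact nonneg_of_mul_nonneg_right this s1
    · have : 0 ≤ dt a b o * dt d a x := by
        rw [i3]
        exact add_nonneg (mul_nonneg h3 hq.dab.le) (mul_nonneg h1 s4.le)
      exact nonneg_of_mul_nonneg_right this s1
  by_cases hxa : x = a
  · exact Or.inr (Or.inl hxa)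
  by_cases hxb : x = b
  · exact Or.inr (Or.inr hxb)
  have hxc : x ≠ c := by
    rintro rfl
    have : dt o x b = - dt b x o := by simp only [dt]; ring
    omega
  have hxd : x ≠ d := by
    rintro rfl
    have : dt o a x = - dt x a o := by simp only [dt]; ring
    omega
  left
  obtain ⟨k1, k2⟩ := h.cross hpos hx hin hxa hxb hxc hxd
  -- both points are the intersection of the diagonals
  have hc1 := cramer a b c x
  have hc2 := cramer a b c o
  have p1 := plane4 hq.la hq.lb hq.lc hx
  have p2 := plane4 hq.la hq.lb hq.lc lo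
  have q1 : dt a x c = 0 := by rw [dt_swap' a c x, k2, neg_zero]
  have q2 : dt a o c = 0 := by rw [dt_swap' a c o, c2, neg_zero]
  have r1 : dt a b c * dt b d x = dt x b c * dt d a b + dt a x c * 0 - dt a b x * dt b c d := by
    simp only [dt]; ring
  have r2 : dt a b c * dt b d o = dt o b c * dt d a b + dt a o c * 0 - dt a b o * dt b c d := by
    simp only [dt]; ring
  rw [k1, q1] at r1
  rw [c1, q2] at r2
  rw [q1] at p1 hc1
  rw [q2] at p2 hc2
  have hsum : 0 < dt d a b + dt b c d := by
    have := hq.dab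
    have := hq.bcd
    omega
  have heq : dt x b c = dt o b c := by
    have t1 : dt x b c * (dt d a b + dt b c d) = dt o b c * (dt d a b + dt b c d) := by
      have u1 : dt a b x = dt a b c - dt x b c := by omega
      have u2 : dt a b o = dt a b c - dt o b c := by omega
      rw [u1] at r1
      rw [u2] at r2
      linarith
    exact mul_right_cancel₀ hsum.ne' t1
  have heq2 : dt a b x = dt a b o := by omega
  rw [heq, heq2, ← hc2] at hc1
  exact smul_right_injective Z3 hq.abc.ne' hc1

theorem MinQ.diamond {a b c d o : Z3} (h : MinQ η w a b c d) (po : Pos η o) (lo : lf w o = 1)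
    (ho : InQ a b c d o) (hoa : o ≠ a) (hob : o ≠ b) (hoc : o ≠ c) (hod : o ≠ d) :
    c = o - (a - o) ∧ Gen w o a b := by
  obtain ⟨s1, g1⟩ := h.center po lo ho hoa hob hoc hod
  obtain ⟨s2, g2⟩ := h.rot.center po lo ho.rot hob hoc hod hoa
  obtain ⟨c1, c2⟩ := h.cross po lo ho hoa hob hoc hod
  have hq := h.1
  refine ⟨?_, g1⟩
  have he := eq_of_gen g1 g2 lo hq.la hq.lb lo hq.lb hq.lc s1 s2
  obtain ⟨m, n, hmn⟩ := g1 c hq.lc
  have hn : n = 0 := by
    have h1 : dt a c o = n * dt o a b := by
      rw [hmn]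
      simp only [dt, Pi.add_apply, Pi.smul_apply, Pi.sub_apply, smul_eq_mul]
      ring
    rw [c2] at h1
    rcases mul_eq_zero.1 h1.symm with h2 | h2
    · exact h2
    · omega
  subst hn
  have hm : m = -1 := by
    have h1 : dt o b c = - m * dt o a b := by
      rw [hmn]
      simp only [dt, Pi.add_apply, Pi.smul_apply, Pi.sub_apply, smul_eq_mul]
      ring
    rw [← he] at h1
    have h2 : (1 + m) * dt o a b = 0 := by linarith
    rcases mul_eq_zero.1 h2 with h3 | h3
    · omega
    · omega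
  rw [hmn, hm]
  module

/-- the two shapes -/
theorem MinQ.shape {a b c d : Z3} (h : MinQ η w a b c d) :
    (a + c = b + d ∧ Gen w a b d) ∨
    ∃ o, Pos η o ∧ lf w o = 1 ∧ c = o - (a - o) ∧ d = o - (b - o) ∧ Gen w o a b := by
  by_cases hno : ∀ x, Pos η x → lf w x = 1 → InQ a b c d x → x = a ∨ x = b ∨ x = c ∨ x = d
  · exact Or.inl (h.1.parallelogram hno)
  · right
    push Not at hno
    obtain ⟨o, po, lo, ho, hoa, hob, hoc, hod⟩ := hno
    obtain ⟨h1, h2⟩ := h.diamond po lo ho hoa hob hoc hod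
    obtain ⟨h3, -⟩ := h.rot.diamond po lo ho.rot hob hoc hod hoa
    exact ⟨o, po, lo, h1, h3, h2⟩

end Pool.Agent.Lib.MP_a785c8_co
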