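import Mathlib.Tactic
import Mathlib.Dynamics.FixedPoints.Basic
import Mathlib.Algebra.Order.Floor.Ring
import Mathlib.Data.Real.Archimedean

/-!
A potential on the primitive vectors of a plane lattice, with prescribed increments along
unimodular pairs.
-/

set_option autoImplicit false

namespace Pool.Agent.Lib.MP_a785c8_co

open Finset

/-- A functional graph without coincidences along orbits has a potential with prescribed
increments. -/
theorem exists_potential {X : Type} (N : X → X)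
    (hN : ∀ (x : X) (m n : ℕ), N^[m] x = N^[n] x → m = n) (c : X → ℝ) :
    ∃ G : X → ℝ, ∀ x, G (N x) = G x + c x := by
  classical
  let S : ℕ → X → ℝ := fun n x => ∑ i ∈ range n, c (N^[i] x)
  have hS : ∀ (m n : ℕ) (x : X), S (m + n) x = S m x + S n (N^[m] x) := by
    intro m n x
    show ∑ i ∈ range (m + n), c (N^[i] x) = ∑ i ∈ range m, c (N^[i] x) +
      ∑ i ∈ range n, c (N^[i] (N^[m] x))
    rw [sum_range_add]
    congr 1
    refine sum_congr rfl fun i _ => ?_
    rw [← Function.iterate_add_apply, add_comm]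
  have key : ∀ (x r : X) (a b a' b' : ℕ), N^[a] x = N^[b] r → N^[a'] x = N^[b'] r →
      S b r - S a x = S b' r - S a' x := by
    have aux : ∀ (x r : X) (a b a' b' : ℕ), a ≤ a' → N^[a] x = N^[b] r →
        N^[a'] x = N^[b'] r → S b r - S a x = S b' r - S a' x := by
      intro x r a b a' b' haa h1 h2
      obtain ⟨d, rfl⟩ := Nat.exists_eq_add_of_le haa
      have h3 : N^[b + d] r = N^[b'] r := by
        rw [← h2, add_comm b d, Function.iterate_add_apply, ← h1, ← Function.iterate_add_apply,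
          add_comm d a]
      have h4 := hN _ _ _ h3
      subst h4
      rw [hS, hS, h1]
      ring
    intro x r a b a' b' h1 h2
    rcases le_total a a' with h | h
    · exact aux x r a b a' b' h h1 h2
    · exact (aux x r a' b' a b h h2 h1).symm
  -- the equivalence relation of eventually meeting orbits
  let s : Setoid X :=
    { r := fun x y => ∃ a b : ℕ, N^[a] x = N^[b] y
      iseqv := by
        refine ⟨fun x => ⟨0, 0, rfl⟩, ?_, ?_⟩
        · rintro x y ⟨a, b, h⟩
          exact ⟨b, a, h.symm⟩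
        · rintro x y z ⟨a, b, h⟩ ⟨a', b', h'⟩
          refine ⟨a' + a, b + b', ?_⟩
          rw [Function.iterate_add_apply, h, ← Function.iterate_add_apply, add_comm a' b,
            Function.iterate_add_apply, h', ← Function.iterate_add_apply] }
  have hrep : ∀ x : X, ∃ ab : ℕ × ℕ, N^[ab.1] x = N^[ab.2] (Quotient.mk s x).out := by
    intro x
    have h : s (Quotient.mk s x).out x := Quotient.mk_out x
    obtain ⟨a, b, hab⟩ := h
    exact ⟨(b, a), hab.symm⟩
  choose ab hab using hrep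
  refine ⟨fun x => S (ab x).2 (Quotient.mk s x).out - S (ab x).1 x, fun x => ?_⟩
  have hq : (Quotient.mk s (N x)) = (Quotient.mk s x) := by
    apply Quotient.sound
    exact ⟨0, 1, rfl⟩
  have h1 := hab (N x)
  rw [hq] at h1
  have h2 : N^[(ab (N x)).1 + 1] x = N^[(ab (N x)).2] (Quotient.mk s x).out := by
    rw [Function.iterate_add_apply]
    exact h1
  have h3 := key x _ _ _ _ _ (hab x) h2
  have h4 := hS 1 (ab (N x)).1 x
  have h5 : S 1 x = c x := by
    show ∑ i ∈ range 1, c (N^[i] x) = c x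
    simp
  rw [add_comm 1] at h4
  rw [h4, h5] at h3
  have h6 : N^[1] x = N x := rfl
  rw [h6] at h3
  simp only [hq]
  linarith

section Plane

variable (α β : ℝ)

/-- the linear form on the plane lattice -/
def xi (u : ℤ × ℤ) : ℝ := u.1 * α + u.2 * β

/-- the determinant on the plane lattice -/
def d2 (u v : ℤ × ℤ) : ℤ := u.1 * v.2 - u.2 * v.1

/-- the prescribed increment -/
noncomputable def inc (x y : ℝ) : ℝ := 3 - (if x * y < 0 then 6 else 0) - (y / x + x / y)

theorem xi_add (u v : ℤ × ℤ) : xi α β (u + v) = xi α β u + xi α β v := by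
  simp only [xi, Prod.fst_add, Prod.snd_add, Int.cast_add]
  ring

theorem xi_sub (u v : ℤ × ℤ) : xi α β (u - v) = xi α β u - xi α β v := by
  simp only [xi, Prod.fst_sub, Prod.snd_sub, Int.cast_sub]
  ring

theorem xi_neg (u : ℤ × ℤ) : xi α β (-u) = - xi α β u := by
  simp only [xi, Prod.fst_neg, Prod.snd_neg, Int.cast_neg]
  ring

theorem xi_smul (k : ℤ) (u : ℤ × ℤ) : xi α β (k • u) = k * xi α β u := by
  simp only [xi, Prod.smul_fst, Prod.smul_snd, smul_eq_mul, Int.cast_mul]
  ring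

theorem inc_triangle {x y : ℝ} (hx : 0 < x) (hy : 0 < y) :
    inc x y = inc x (x + y) + inc (x + y) y := by
  have h1 : ¬ x * y < 0 := by nlinarith
  have h2 : ¬ x * (x + y) < 0 := by nlinarith
  have h3 : ¬ (x + y) * y < 0 := by nlinarith
  simp only [inc, h1, h2, h3, if_false]
  have hxy : 0 < x + y := by linarith
  field_simp
  ring

/-- **The potential.** -/
theorem exists_plane_potential' (ξ : ℤ × ℤ → ℝ) (xsub : ∀ u v, ξ (u - v) = ξ u - ξ v)
    (xsmul : ∀ (k : ℤ) u, ξ (k • u) = k * ξ u) (xneg : ∀ u, ξ (-u) = - ξ u)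
    (h : ∀ u : ℤ × ℤ, u ≠ 0 → ξ u ≠ 0) :
    ∃ G : ℤ × ℤ → ℝ, ∀ u v, d2 u v = 1 → G v - G u = inc (ξ u) (ξ v) := by
  classical
  -- vectors with a unimodular partner and positive form
  let X : Type := {u : ℤ × ℤ // 0 < ξ u ∧ ∃ v, d2 u v = 1}
  have hnext : ∀ u : ℤ × ℤ, 0 < ξ u → (∃ v, d2 u v = 1) →
      ∃ v, d2 u v = 1 ∧ 0 < ξ v ∧ ξ v < ξ u := by
    rintro u hu ⟨v, hv⟩
    -- reduce `v` modulo `u`
    set k : ℤ := ⌊ξ v / ξ u⌋ with hk
    have h1 : d2 u (v - k • u) = 1 := by
      rw [← hv]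
      simp only [d2, Prod.fst_sub, Prod.snd_sub, Prod.smul_fst, Prod.smul_snd, smul_eq_mul]
      ring
    have hval : ξ (v - k • u) = ξ v - k * ξ u := by
      rw [xsub, xsmul]
    have hlo : (k : ℝ) * ξ u ≤ ξ v := by
      have := Int.floor_le (ξ v / ξ u)
      rw [← hk, le_div_iff₀ hu] at this
      exact this
    have hhi : ξ v < (k + 1) * ξ u := by
      have := Int.lt_floor_add_one (ξ v / ξ u)
      rw [← hk, div_lt_iff₀ hu] at this
      exact this
    have hne : v - k • u ≠ 0 := by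
      intro h0
      rw [h0] at h1
      simp [d2] at h1
    refine ⟨v - k • u, h1, ?_, ?_⟩
    · have h2 := h _ hne
      rcases lt_or_gt_of_ne h2 with h3 | h3
      · rw [hval] at h3
        linarith
      · exact h3
    · rw [hval]
      linarith
  have hpart : ∀ {u v : ℤ × ℤ}, d2 u v = 1 → ∃ w, d2 v w = 1 := by
    intro u v huv
    refine ⟨-u, ?_⟩
    rw [← huv]
    simp only [d2, Prod.fst_neg, Prod.snd_neg]
    ring
  choose nx hnx1 hnx2 hnx3 using hnext
  let N : X → X := fun u => ⟨nx u.1 u.2.1 u.2.2, hnx2 _ _ _, hpart (hnx1 u.1 u.2.1 u.2.2)⟩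
  have hNval : ∀ u : X, ξ (N u).1 < ξ u.1 := fun u => hnx3 _ _ _
  have hNdet : ∀ u : X, d2 u.1 (N u).1 = 1 := fun u => hnx1 _ _ _
  -- uniqueness of the next vector
  have huniq : ∀ (u : X) (v : ℤ × ℤ), d2 u.1 v = 1 → 0 < ξ v → ξ v < ξ u.1 → v = (N u).1 := by
    intro u v hv h1 h2
    have h3 := hNdet u
    have h4 := hNval u
    have h5 := (N u).2.1
    -- the difference is a multiple of u
    set w := (N u).1 with hw
    have hd : d2 u.1 (v - w) = 0 := by
      simp only [d2, Prod.fst_sub, Prod.snd_sub] at hv h3 ⊢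
      linarith
    have hmul : v - w = (d2 (v - w) w) • u.1 := by
      simp only [d2, Prod.fst_sub, Prod.snd_sub] at hv h3 hd ⊢
      ext
      · simp only [Prod.fst_sub, Prod.smul_fst, smul_eq_mul]
        have : (v.1 - w.1) * (u.1.1 * w.2 - u.1.2 * w.1) =
            ((v.1 - w.1) * w.2 - (v.2 - w.2) * w.1) * u.1.1 +
            (u.1.1 * (v.2 - w.2) - u.1.2 * (v.1 - w.1)) * w.1 := by ring
        rw [h3, hd] at this
        linarith
      · simp only [Prod.snd_sub, Prod.smul_snd, smul_eq_mul]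
        have : (v.2 - w.2) * (u.1.1 * w.2 - u.1.2 * w.1) =
            ((v.1 - w.1) * w.2 - (v.2 - w.2) * w.1) * u.1.2 +
            (u.1.1 * (v.2 - w.2) - u.1.2 * (v.1 - w.1)) * w.2 := by ring
        rw [h3, hd] at this
        linarith
    set k := d2 (v - w) w with hk
    have hξk : ξ v - ξ w = k * ξ u.1 := by
      rw [← xsub, ← xsmul, hmul]
    have hu := u.2.1
    have hk0 : k = 0 := by
      have h6 : (k : ℝ) * ξ u.1 < 1 * ξ u.1 := by rw [← hξk]; linarith
      have h7 : (-1 : ℝ) * ξ u.1 < k * ξ u.1 := by rw [← hξk]; linarith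
      have h8 := lt_of_mul_lt_mul_right h6 hu.le
      have h9 := lt_of_mul_lt_mul_right h7 hu.le
      have h10 : k < 1 := by exact_mod_cast h8
      have h11 : -1 < k := by exact_mod_cast h9
      omega
    rw [hk0, zero_smul, sub_eq_zero] at hmul
    exact hmul
  -- orbits have no coincidences
  have hiter : ∀ (x : X) (m n : ℕ), N^[m] x = N^[n] x → m = n := by
    have hmono : ∀ (x : X) (n : ℕ), ξ (N^[n + 1] x).1 < ξ (N^[n] x).1 := by
      intro x n
      rw [Function.iterate_succ_apply']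
      exact hNval _
    have hanti : ∀ x : X, StrictAnti (fun n => ξ (N^[n] x).1) := fun x =>
      strictAnti_nat_of_succ_lt (hmono x)
    intro x m n hmn
    exact (hanti x).injective (congrArg (fun z : X => ξ z.1) hmn)
  obtain ⟨G0, hG0⟩ := exists_potential N hiter (fun u => inc (ξ u.1) (ξ (N u).1))
  -- relation for smaller second vector
  have hA : ∀ (u v : X), d2 u.1 v.1 = 1 → ξ v.1 < ξ u.1 →
      G0 v - G0 u = inc (ξ u.1) (ξ v.1) := by
    intro u v huv hlt
    have h1 : v = N u := Subtype.ext (huniq u v.1 huv v.2.1 hlt)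
    rw [h1, hG0]
    ring
  -- relation for larger second vector
  have hB : ∀ (n : ℕ) (u v : X), d2 u.1 v.1 = 1 → ξ u.1 < ξ v.1 → ξ v.1 < n * ξ u.1 →
      G0 v - G0 u = inc (ξ u.1) (ξ v.1) := by
    intro n
    induction n with
    | zero =>
      intro u v _ _ h3
      have := v.2.1
      simp only [Nat.cast_zero, zero_mul] at h3
      linarith
    | succ n ih =>
      intro u v huv hlt hn
      have hdw : d2 u.1 (v.1 - u.1) = 1 := by
        simp only [d2, Prod.fst_sub, Prod.snd_sub] at huv ⊢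
        linarith
      have hwv : ξ (v.1 - u.1) = ξ v.1 - ξ u.1 := xsub _ _
      have hwpos : 0 < ξ (v.1 - u.1) := by rw [hwv]; linarith
      let w : X := ⟨v.1 - u.1, hwpos, hpart hdw⟩
      have hvw : d2 v.1 w.1 = 1 := by
        simp only [w, d2, Prod.fst_sub, Prod.snd_sub] at huv ⊢
        linarith
      have hw1 : ξ w.1 = ξ v.1 - ξ u.1 := hwv
      have hvw' : ξ w.1 < ξ v.1 := by
        have := u.2.1
        linarith
      have e1 := hA v w hvw hvw'
      have e2 : G0 w - G0 u = inc (ξ u.1) (ξ w.1) := by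
        have hne : ξ w.1 ≠ ξ u.1 := by
          intro heq
          have hwu : w.1 - u.1 ≠ 0 := by
            intro h0
            have : w.1 = u.1 := sub_eq_zero.1 h0
            have hdw' : d2 u.1 w.1 = 1 := hdw
            rw [this] at hdw'
            simp only [d2] at hdw'
            have : u.1.1 * u.1.2 - u.1.2 * u.1.1 = 0 := by ring
            omega
          apply h _ hwu
          rw [xsub]
          exact sub_eq_zero.2 heq
        rcases lt_or_gt_of_ne hne with hlt' | hgt'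
        · exact hA u w hdw hlt'
        · apply ih u w hdw hgt'
          rw [hw1]
          push_cast at hn
          linarith
      have hu := u.2.1
      have hw := w.2.1
      have e3 := inc_triangle hu hw
      have e4 : ξ u.1 + ξ w.1 = ξ v.1 := by rw [hw1]; ring
      rw [e4] at e3
      linarith
  have hC : ∀ (u v : X), d2 u.1 v.1 = 1 → G0 v - G0 u = inc (ξ u.1) (ξ v.1) := by
    intro u v huv
    have hne : ξ u.1 ≠ ξ v.1 := by
      intro heq
      have hwu : u.1 - v.1 ≠ 0 := by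
        intro h0
        have : u.1 = v.1 := sub_eq_zero.1 h0
        rw [this] at huv
        simp only [d2] at huv
        have : v.1.1 * v.1.2 - v.1.2 * v.1.1 = 0 := by ring
        omega
      apply h _ hwu
      rw [xsub]
      exact sub_eq_zero.2 heq
    rcases lt_or_gt_of_ne hne with hlt | hgt
    · obtain ⟨n, hn⟩ := exists_nat_gt (ξ v.1 / ξ u.1)
      rw [div_lt_iff₀ u.2.1] at hn
      exact hB n u v huv hlt hn
    · exact hA u v huv hgt
  -- extend to all vectors
  refine ⟨fun u => if hu : 0 < ξ u ∧ ∃ v, d2 u v = 1 then G0 ⟨u, hu⟩ else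
    if hu : 0 < ξ (-u) ∧ ∃ v, d2 (-u) v = 1 then G0 ⟨-u, hu⟩ else 0, ?_⟩
  intro u v huv
  have hu0 : u ≠ 0 := by
    rintro rfl
    simp [d2] at huv
  have hv0 : v ≠ 0 := by
    rintro rfl
    simp [d2] at huv
  have hu1 := h u hu0
  have hv1 := h v hv0
  have nu : ξ (-u) = - ξ u := xneg u
  have nv : ξ (-v) = - ξ v := xneg v
  have p1 : d2 (-u) (-v) = 1 := by
    rw [← huv]; simp only [d2, Prod.fst_neg, Prod.snd_neg]; ring
  have p2 : d2 (-v) u = 1 := by
    rw [← huv]; simp only [d2, Prod.fst_neg, Prod.snd_neg]; ring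
  have p3 : d2 v (-u) = 1 := by
    rw [← huv]; simp only [d2, Prod.fst_neg, Prod.snd_neg]; ring
  rcases lt_or_gt_of_ne hu1 with hu | hu <;> rcases lt_or_gt_of_ne hv1 with hv | hv
  · -- both negative
    have hu' : ¬ (0 < ξ u ∧ ∃ v, d2 u v = 1) := fun hh => by linarith [hh.1]
    have hv' : ¬ (0 < ξ v ∧ ∃ w, d2 v w = 1) := fun hh => by linarith [hh.1]
    have hu'' : 0 < ξ (-u) ∧ ∃ v, d2 (-u) v = 1 := ⟨by rw [nu]; linarith, _, p1⟩
    have hv'' : 0 < ξ (-v) ∧ ∃ w, d2 (-v) w = 1 := ⟨by rw [nv]; linarith, _, p2⟩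
    simp only [dif_neg hu', dif_neg hv', dif_pos hu'', dif_pos hv'']
    rw [hC ⟨-u, hu''⟩ ⟨-v, hv''⟩ p1]
    simp only [nu, nv, inc, neg_mul_neg, neg_div_neg_eq]
  · -- u negative, v positive
    have hu' : ¬ (0 < ξ u ∧ ∃ v, d2 u v = 1) := fun hh => by linarith [hh.1]
    have hv' : 0 < ξ v ∧ ∃ w, d2 v w = 1 := ⟨hv, _, p3⟩
    have hu'' : 0 < ξ (-u) ∧ ∃ v, d2 (-u) v = 1 := ⟨by rw [nu]; linarith, _, p1⟩
    simp only [dif_neg hu', dif_pos hv', dif_pos hu'']
    have h1 := hC ⟨v, hv'⟩ ⟨-u, hu''⟩ p3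
    simp only [nu, inc] at h1
    have h2 : ¬ ξ v * -ξ u < 0 := by nlinarith
    have h3 : ξ u * ξ v < 0 := by nlinarith
    rw [if_neg h2] at h1
    simp only [inc, if_pos h3]
    have h4 : -ξ u / ξ v = -(ξ u / ξ v) := by ring
    have h5 : ξ v / -ξ u = -(ξ v / ξ u) := by rw [div_neg]
    rw [h4, h5] at h1
    linarith
  · -- u positive, v negative
    have hu' : 0 < ξ u ∧ ∃ v, d2 u v = 1 := ⟨hu, _, huv⟩
    have hv' : ¬ (0 < ξ v ∧ ∃ w, d2 v w = 1) := fun hh => by linarith [hh.1]
    have hv'' : 0 < ξ (-v) ∧ ∃ w, d2 (-v) w = 1 := ⟨by rw [nv]; linarith, _, p2⟩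
    simp only [dif_pos hu', dif_neg hv', dif_pos hv'']
    have h1 := hC ⟨-v, hv''⟩ ⟨u, hu'⟩ p2
    simp only [nv, inc] at h1
    have h2 : ¬ -ξ v * ξ u < 0 := by nlinarith
    have h3 : ξ u * ξ v < 0 := by nlinarith
    rw [if_neg h2] at h1
    simp only [inc, if_pos h3]
    have h4 : -ξ v / ξ u = -(ξ v / ξ u) := by ring
    have h5 : ξ u / -ξ v = -(ξ u / ξ v) := by rw [div_neg]
    rw [h4, h5] at h1
    linarith
  · -- both positive
    have hu' : 0 < ξ u ∧ ∃ v, d2 u v = 1 := ⟨hu, _, huv⟩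
    have hv' : 0 < ξ v ∧ ∃ w, d2 v w = 1 := ⟨hv, _, p3⟩
    simp only [dif_pos hu', dif_pos hv']
    exact hC ⟨u, hu'⟩ ⟨v, hv'⟩ huv

theorem exists_plane_potential (h : ∀ u : ℤ × ℤ, u ≠ 0 → xi α β u ≠ 0) :
    ∃ G : ℤ × ℤ → ℝ, ∀ u v, d2 u v = 1 → G v - G u = inc (xi α β u) (xi α β v) :=
  exists_plane_potential' _ (xi_sub α β) (xi_smul α β) (xi_neg α β) h

end Plane

end Pool.Agent.Lib.MP_a785c8_co
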