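import Pool.Agent.Lib.MP_a785c8_co.Irr
import Mathlib.Data.Real.Sqrt
import Mathlib.Data.Fintype.BigOperators
import Mathlib.Combinatorics.Pigeonhole

/-!
Cocompactness of the group of unimodular symmetries, by the pigeonhole principle.
-/

set_option autoImplicit false

namespace Pool.Agent.Lib.MP_a785c8_co

open Finset Matrix

variable {η : Fin 3 → Fin 3 → ℝ}

/-- the pigeonhole principle -/
theorem dirichlet (η : Fin 3 → Fin 3 → ℝ) : ∃ W : ℝ, 0 < W ∧ ∀ s : Fin 3 → ℝ, (∀ i, 0 < s i) →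
    s 0 * s 1 * s 2 = 1 → ∃ x : Z3, x ≠ 0 ∧ ∀ i, |yy η i x| * s i ≤ W := by
  classical
  set H : ℝ := 1 + ∑ i, ∑ j, |η i j| with hH
  have hHi : ∀ i, |η i 0| + |η i 1| + |η i 2| ≤ H := by
    intro i
    have h1 : ∑ j, |η i j| ≤ ∑ i, ∑ j, |η i j| :=
      single_le_sum (f := fun i => ∑ j, |η i j|)
        (fun i _ => sum_nonneg fun j _ => abs_nonneg _) (mem_univ i)
    rw [Fin.sum_univ_three] at h1
    linarith
  have hH1 : 1 ≤ H := by
    have : 0 ≤ ∑ i, ∑ j, |η i j| := sum_nonneg fun i _ => sum_nonneg fun j _ => abs_nonneg _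
    linarith
  have hH0 : 0 < H := by linarith
  refine ⟨4 * H, by positivity, fun s hs hprod => ?_⟩
  -- choose the size of the box
  obtain ⟨N, hN⟩ : ∃ N : ℕ, ∀ i, 4 ≤ (N : ℝ) * s i := by
    obtain ⟨N0, h0⟩ := exists_nat_ge (4 / s 0)
    obtain ⟨N1, h1⟩ := exists_nat_ge (4 / s 1)
    obtain ⟨N2, h2⟩ := exists_nat_ge (4 / s 2)
    rw [div_le_iff₀ (hs 0)] at h0
    rw [div_le_iff₀ (hs 1)] at h1
    rw [div_le_iff₀ (hs 2)] at h2
    refine ⟨N0 + N1 + N2, fun i => ?_⟩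
    have hi := hs i
    have e0 : (0 : ℝ) ≤ N0 * s i := by positivity
    have e1 : (0 : ℝ) ≤ N1 * s i := by positivity
    have e2 : (0 : ℝ) ≤ N2 * s i := by positivity
    push_cast
    have hi3 : i = 0 ∨ i = 1 ∨ i = 2 := by
      have : ∀ i : Fin 3, i = 0 ∨ i = 1 ∨ i = 2 := by decide
      exact this i
    rcases hi3 with rfl | rfl | rfl <;> linarith
  have hN0 : (0 : ℝ) ≤ N := Nat.cast_nonneg N
  let cell : Z3 → (Fin 3 → ℤ) := fun x i => ⌊yy η i x * s i / (4 * H)⌋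
  let src : Finset Z3 := Fintype.piFinset (fun _ : Fin 3 => Finset.Icc (0 : ℤ) N)
  let tgt : Finset (Fin 3 → ℤ) := Fintype.piFinset (fun i : Fin 3 =>
    Finset.Icc ⌊-((N : ℝ) * s i / 4)⌋ ⌊(N : ℝ) * s i / 4⌋)
  have hsrc : src.card = (N + 1) ^ 3 := by
    simp only [src, Fintype.card_piFinset, Int.card_Icc, sub_zero]
    rw [prod_const, card_univ, Fintype.card_fin]
    congr 1
  have hni : ∀ i : Fin 3, (((Finset.Icc ⌊-((N : ℝ) * s i / 4)⌋ ⌊(N : ℝ) * s i / 4⌋).card : ℕ) : ℝ)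
      ≤ N * s i := by
    intro i
    rw [Int.card_Icc]
    have h1 := Int.floor_le ((N : ℝ) * s i / 4)
    have h2 := Int.lt_floor_add_one (-((N : ℝ) * s i / 4))
    have h3 := hN i
    have h4 : (0 : ℤ) ≤ ⌊(N : ℝ) * s i / 4⌋ + 1 - ⌊-((N : ℝ) * s i / 4)⌋ := by
      have : ⌊-((N : ℝ) * s i / 4)⌋ ≤ ⌊(N : ℝ) * s i / 4⌋ := Int.floor_le_floor (by linarith)
      omega
    have h5 : (((⌊(N : ℝ) * s i / 4⌋ + 1 - ⌊-((N : ℝ) * s i / 4)⌋).toNat : ℤ) : ℝ) =
        ((⌊(N : ℝ) * s i / 4⌋ + 1 - ⌊-((N : ℝ) * s i / 4)⌋ : ℤ) : ℝ) := by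
      rw [Int.toNat_of_nonneg h4]
    rw [Int.cast_natCast] at h5
    rw [h5]
    push_cast
    linarith
  have htgt : ((tgt.card : ℕ) : ℝ) ≤ (N : ℝ) ^ 3 := by
    simp only [tgt, Fintype.card_piFinset]
    rw [Fin.prod_univ_three]
    push_cast
    have h0 := hni 0
    have h1 := hni 1
    have h2 := hni 2
    have e0 : (0 : ℝ) ≤ N * s 0 := by linarith [hN 0]
    have e1 : (0 : ℝ) ≤ N * s 1 := by linarith [hN 1]
    calc _ ≤ ((N : ℝ) * s 0) * ((N : ℝ) * s 1) * ((N : ℝ) * s 2) := by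
          apply mul_le_mul (mul_le_mul h0 h1 (Nat.cast_nonneg _) e0) h2 (Nat.cast_nonneg _)
          positivity
      _ = (N : ℝ) ^ 3 * (s 0 * s 1 * s 2) := by ring
      _ = (N : ℝ) ^ 3 := by rw [hprod, mul_one]
  have hlt : tgt.card < src.card := by
    rw [hsrc]
    have h1 : tgt.card ≤ N ^ 3 := by exact_mod_cast htgt
    calc tgt.card ≤ N ^ 3 := h1
      _ < (N + 1) ^ 3 := Nat.pow_lt_pow_left (Nat.lt_succ_self N) (by norm_num)
  have hmaps : ∀ x ∈ src, cell x ∈ tgt := by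
    intro x hx
    simp only [src, Fintype.mem_piFinset, Finset.mem_Icc] at hx
    simp only [tgt, Fintype.mem_piFinset, Finset.mem_Icc, cell]
    intro i
    have hx' : ∀ j, (0 : ℝ) ≤ x j ∧ (x j : ℝ) ≤ N := by
      intro j
      exact ⟨by exact_mod_cast (hx j).1, by exact_mod_cast (hx j).2⟩
    have hb : |yy η i x| ≤ H * N := by
      have q : ∀ j, |η i j * x j| ≤ |η i j| * N := by
        intro j
        rw [abs_mul, abs_of_nonneg (hx' j).1]
        exact mul_le_mul_of_nonneg_left (hx' j).2 (abs_nonneg _)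
      calc |yy η i x| ≤ |η i 0 * x 0| + |η i 1 * x 1| + |η i 2 * x 2| := abs_add_three _ _ _
        _ ≤ |η i 0| * N + |η i 1| * N + |η i 2| * N := by linarith [q 0, q 1, q 2]
        _ = (|η i 0| + |η i 1| + |η i 2|) * N := by ring
        _ ≤ H * N := mul_le_mul_of_nonneg_right (hHi i) hN0
    obtain ⟨hb1, hb2⟩ := abs_le.1 hb
    have e : (N : ℝ) * s i / 4 = (H * N) * s i / (4 * H) := by
      field_simp
    constructor
    · apply Int.floor_le_floor
      rw [e, ← neg_div]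
      apply div_le_div_of_nonneg_right _ (by positivity)
      have := mul_le_mul_of_nonneg_right hb1 (hs i).le
      linarith
    · apply Int.floor_le_floor
      rw [e]
      apply div_le_div_of_nonneg_right _ (by positivity)
      exact mul_le_mul_of_nonneg_right hb2 (hs i).le
  obtain ⟨x, hx, y, hy, hxy, hcell⟩ := Finset.exists_ne_map_eq_of_card_lt_of_maps_to hlt hmaps
  refine ⟨x - y, sub_ne_zero.2 hxy, fun i => ?_⟩
  have h1 := congrFun hcell i
  simp only [cell] at h1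
  have h2 := Int.abs_sub_lt_one_of_floor_eq_floor h1
  have h3 : yy η i x * s i / (4 * H) - yy η i y * s i / (4 * H) =
      yy η i (x - y) * s i / (4 * H) := by
    simp only [yy]
    rw [lf_sub]
    ring
  rw [h3, abs_div, abs_mul, abs_of_pos (hs i), abs_of_pos (by positivity : 0 < 4 * H),
    div_lt_one (by positivity)] at h2
  exact h2.le

/-- data of an integer matrix with three real left eigenvectors -/
structure Eig (A : Matrix (Fin 3) (Fin 3) ℤ) (η : Fin 3 → Fin 3 → ℝ) (μ : Fin 3 → ℝ) : Prop where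
  irr : Irreducible (A.charpoly.map (Int.castRingHom ℚ))
  eig : ∀ i (x : Z3), lf (η i) (A.mulVec x) = μ i * lf (η i) x
  hη : dt (η 0) (η 1) (η 2) ≠ 0

variable {A : Matrix (Fin 3) (Fin 3) ℤ} {μ : Fin 3 → ℝ}

theorem Eig.ne_zero (h : Eig A η μ) (i : Fin 3) : η i ≠ 0 := by
  intro h0
  apply h.hη
  have hi3 : i = 0 ∨ i = 1 ∨ i = 2 := by
    have : ∀ i : Fin 3, i = 0 ∨ i = 1 ∨ i = 2 := by decide
    exact this i
  rcases hi3 with rfl | rfl | rfl <;> rw [h0] <;> simp [dt]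

theorem Eig.y_ne (h : Eig A η μ) (i : Fin 3) {p : Z3} (hp : p ≠ 0) : yy η i p ≠ 0 := by
  intro h0
  exact h.ne_zero i (form_eq_zero h.irr (h.eig i) hp h0)

/-- the coordinate map to `Real` is multiplicative on determinants -/
theorem dt_coord (x y z : Z3) :
    dt (fun i => yy η i x) (fun i => yy η i y) (fun i => yy η i z) =
      dt (η 0) (η 1) (η 2) * ((dt x y z : ℤ) : ℝ) := by
  simp only [dt, yy, lf]
  push_cast
  ring

theorem dt_mulVec (M : Matrix (Fin 3) (Fin 3) ℤ) (x y z : Z3) :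
    dt (M.mulVec x) (M.mulVec y) (M.mulVec z) = M.det * dt x y z := by
  simp only [dt, mulVec_apply3, Matrix.det_fin_three]
  ring

/-- determinant of a matrix which scales the forms -/
theorem det_of_scale (h : Eig A η μ) {M : Matrix (Fin 3) (Fin 3) ℤ} {m : Fin 3 → ℝ}
    (hm : ∀ i (x : Z3), yy η i (M.mulVec x) = m i * yy η i x) :
    ((M.det : ℤ) : ℝ) = m 0 * m 1 * m 2 := by
  have h1 := dt_coord (η := η) (M.mulVec ![1, 0, 0]) (M.mulVec ![0, 1, 0]) (M.mulVec ![0, 0, 1])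
  have h2 := dt_coord (η := η) ![1, 0, 0] ![0, 1, 0] ![0, 0, 1]
  have h3 : dt (![1, 0, 0] : Z3) ![0, 1, 0] ![0, 0, 1] = 1 := by simp [dt]
  rw [dt_mulVec, h3, mul_one] at h1
  rw [h3] at h2
  simp only [hm] at h1
  have h4 : ∀ (x y z : Fin 3 → ℝ), dt (fun i => m i * x i) (fun i => m i * y i)
      (fun i => m i * z i) = m 0 * m 1 * m 2 * dt x y z := by
    intro x y z
    simp only [dt]
    ring
  rw [h4, h2] at h1
  have h5 := h.hη
  rw [Int.cast_one, mul_one] at h1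
  have h6 : dt (η 0) (η 1) (η 2) * (((M.det : ℤ) : ℝ) - m 0 * m 1 * m 2) = 0 := by
    linarith
  have := (mul_eq_zero.1 h6).resolve_left h5
  linarith

/-- multiplication matrices -/
def mm (A : Matrix (Fin 3) (Fin 3) ℤ) (e x : Z3) : Matrix (Fin 3) (Fin 3) ℤ :=
  dt x (A.mulVec e) (A.mulVec (A.mulVec e)) • (1 : Matrix (Fin 3) (Fin 3) ℤ) +
    dt e x (A.mulVec (A.mulVec e)) • A + dt e (A.mulVec e) x • (A * A)

theorem mm_sub (e x y : Z3) : mm A e (x - y) = mm A e x - mm A e y := by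
  simp only [mm, dt_sub1, dt_sub2, dt_sub3, sub_smul]
  abel

theorem mm_smul (e x : Z3) (k : ℤ) : mm A e (k • x) = k • mm A e x := by
  simp only [mm, dt_smul1, dt_smul2, dt_smul3, mul_smul, smul_add]

theorem mm_scale (h : Eig A η μ) (e x : Z3) (he : e ≠ 0) (i : Fin 3) (z : Z3) :
    yy η i ((mm A e x).mulVec z) =
      (((dt e (A.mulVec e) (A.mulVec (A.mulVec e)) : ℤ) : ℝ) / yy η i e * yy η i x) *
        yy η i z := by
  have he0 := h.y_ne i he
  have e1 := h.eig i z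
  have e2 := h.eig i (A.mulVec z)
  have e3 := h.eig i e
  have e4 := h.eig i (A.mulVec e)
  have hc := lf_cramer (η i) e (A.mulVec e) (A.mulVec (A.mulVec e)) x
  have h1 : (mm A e x).mulVec z = dt x (A.mulVec e) (A.mulVec (A.mulVec e)) • z +
      dt e x (A.mulVec (A.mulVec e)) • A.mulVec z +
      dt e (A.mulVec e) x • A.mulVec (A.mulVec z) := by
    simp only [mm, Matrix.add_mulVec, Matrix.smul_mulVec, Matrix.one_mulVec,
      ← Matrix.mulVec_mulVec]
  show lf (η i) _ = _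
  rw [h1, lf_add, lf_add, lf_smul, lf_smul, lf_smul, e2, e1]
  rw [e4, e3] at hc
  simp only [yy] at he0 ⊢
  rw [div_mul_eq_mul_div, hc]
  field_simp

/-- the norm form -/
def nrm (A : Matrix (Fin 3) (Fin 3) ℤ) (e x : Z3) : ℤ := (mm A e x).det

/-- a matrix of determinant one as an additive equivalence -/
def toEquiv (U : Matrix (Fin 3) (Fin 3) ℤ) (hU : U.det = 1) : Z3 ≃+ Z3 where
  toFun x := U.mulVec x
  invFun x := U.adjugate.mulVec x
  left_inv x := by
    show U.adjugate.mulVec (U.mulVec x) = x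
    rw [Matrix.mulVec_mulVec, Matrix.adjugate_mul, hU, one_smul, Matrix.one_mulVec]
  right_inv x := by
    show U.mulVec (U.adjugate.mulVec x) = x
    rw [Matrix.mulVec_mulVec, Matrix.mul_adjugate, hU, one_smul, Matrix.one_mulVec]
  map_add' x y := Matrix.mulVec_add U x y

/-- units from congruent vectors of equal norm -/
theorem exists_unit (h : Eig A η μ) {e x x' w : Z3} (he : e ≠ 0) (hx : x ≠ 0) (hx' : x' ≠ 0)
    (hn : nrm A e x = nrm A e x') (hw : x - x' = nrm A e x' • w) :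
    ∃ U : Matrix (Fin 3) (Fin 3) ℤ, U.det = 1 ∧
      ∀ i z, yy η i (U.mulVec z) = (yy η i x / yy η i x') * yy η i z := by
  set n := nrm A e x' with hndef
  set d : ℝ := ((dt e (A.mulVec e) (A.mulVec (A.mulVec e)) : ℤ) : ℝ) with hd
  have hd0 : d ≠ 0 := by
    rw [hd]
    exact_mod_cast cyclic_of_irreducible h.irr he
  have hprod : ∀ x, ((nrm A e x : ℤ) : ℝ) = (d / yy η 0 e * yy η 0 x) * (d / yy η 1 e * yy η 1 x) *
      (d / yy η 2 e * yy η 2 x) := fun x => det_of_scale h (fun i z => mm_scale h e x he i z)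
  have hn0 : n ≠ 0 := by
    intro h0
    have h1 := hprod x'
    rw [← hndef, h0, Int.cast_zero] at h1
    have a0 : d / yy η 0 e * yy η 0 x' ≠ 0 :=
      mul_ne_zero (div_ne_zero hd0 (h.y_ne 0 he)) (h.y_ne 0 hx')
    have a1 : d / yy η 1 e * yy η 1 x' ≠ 0 :=
      mul_ne_zero (div_ne_zero hd0 (h.y_ne 1 he)) (h.y_ne 1 hx')
    have a2 : d / yy η 2 e * yy η 2 x' ≠ 0 :=
      mul_ne_zero (div_ne_zero hd0 (h.y_ne 2 he)) (h.y_ne 2 hx')
    exact mul_ne_zero (mul_ne_zero a0 a1) a2 h1.symm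
  set U : Matrix (Fin 3) (Fin 3) ℤ := 1 + mm A e w * (mm A e x').adjugate with hU
  have hUM : U * mm A e x' = mm A e x := by
    have h1 : mm A e x - mm A e x' = n • mm A e w := by
      rw [← mm_sub, hw, mm_smul]
    rw [hU, add_mul, one_mul, mul_assoc, Matrix.adjugate_mul]
    have h2 : (mm A e x').det = n := rfl
    rw [h2, mul_smul_comm, mul_one, ← h1]
    abel
  refine ⟨U, ?_, fun i z => ?_⟩
  · have h1 := congrArg Matrix.det hUM
    rw [Matrix.det_mul] at h1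
    have h2 : (mm A e x').det = n := rfl
    have h3 : (mm A e x).det = n := hn
    rw [h2, h3] at h1
    exact mul_right_cancel₀ hn0 (by rw [h1, one_mul])
  · -- test on vectors in the image of `mm A e x'`
    have h1 : U.mulVec ((mm A e x').mulVec ((mm A e x').adjugate.mulVec z)) =
        (mm A e x).mulVec ((mm A e x').adjugate.mulVec z) := by
      rw [Matrix.mulVec_mulVec, hUM]
    have h2 : (mm A e x').mulVec ((mm A e x').adjugate.mulVec z) = n • z := by
      rw [Matrix.mulVec_mulVec, Matrix.mul_adjugate]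
      have h2 : (mm A e x').det = n := rfl
      rw [h2, Matrix.smul_mulVec, Matrix.one_mulVec]
    have h3 := mm_scale h e x he i ((mm A e x').adjugate.mulVec z)
    have h4 := mm_scale h e x' he i ((mm A e x').adjugate.mulVec z)
    rw [h2] at h4 h1
    rw [← h1, Matrix.mulVec_smul] at h3
    simp only [yy, lf_smul] at h3 h4 ⊢
    rw [← hd] at h3 h4
    have e0 := h.y_ne i he
    have x0 := h.y_ne i hx'
    simp only [yy] at e0 x0
    have hnR : ((n : ℤ) : ℝ) ≠ 0 := by exact_mod_cast hn0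
    generalize lf (η i) ((mm A e x').adjugate.mulVec z) = q at *
    apply mul_left_cancel₀ hnR
    rw [h3]
    have : (n : ℝ) * (lf (η i) x / lf (η i) x' * lf (η i) z) =
        lf (η i) x / lf (η i) x' * ((n : ℝ) * lf (η i) z) := by ring
    rw [this, h4]
    field_simp

/-- **Cocompactness.** -/
theorem cocompact (h : Eig A η μ) : ∃ R : ℝ, 1 ≤ R ∧ ∀ t : Fin 3 → ℝ, (∀ i, 0 < t i) →
    t 0 * t 1 * t 2 = 1 →
    ∃ f c, InGam η f c ∧ ∀ i, 1 ≤ R * (c i * t i) ∧ c i * t i ≤ R := by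
  classical
  obtain ⟨W, hW, hD⟩ := dirichlet η
  set e : Z3 := ![1, 0, 0] with he
  have he0 : e ≠ 0 := by
    intro h0
    have := congrFun h0 0
    simp [he] at this
  set d : ℝ := ((dt e (A.mulVec e) (A.mulVec (A.mulVec e)) : ℤ) : ℝ) with hd
  have hprod : ∀ x, ((nrm A e x : ℤ) : ℝ) = (d / yy η 0 e * yy η 0 x) * (d / yy η 1 e * yy η 1 x) *
      (d / yy η 2 e * yy η 2 x) := fun x => det_of_scale h (fun i z => mm_scale h e x he0 i z)
  -- bound on the norms which occur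
  set C0 : ℝ := |d / yy η 0 e| * |d / yy η 1 e| * |d / yy η 2 e| * W ^ 3 with hC0
  obtain ⟨K, hK⟩ := exists_nat_ge C0
  set S : Set Z3 := {x | x ≠ 0 ∧ |nrm A e x| ≤ K ∧ nrm A e x ≠ 0} with hS
  let key : Z3 → ℤ × (Fin 3 → ℤ) := fun x => (nrm A e x, fun j => x j % nrm A e x)
  have hkeyfin : (key '' S).Finite := by
    apply ((Set.finite_Icc (-(K : ℤ)) K).prod
      (Set.finite_Icc (fun _ : Fin 3 => (0 : ℤ)) (fun _ => (K : ℤ)))).subset
    rintro _ ⟨x, ⟨hx, hxK, hx0⟩, rfl⟩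
    refine ⟨⟨(abs_le.1 hxK).1, (abs_le.1 hxK).2⟩, ?_, ?_⟩
    · intro j
      exact Int.emod_nonneg _ hx0
    · intro j
      have h1 := Int.emod_lt_abs (x j) hx0
      exact h1.le.trans hxK
  -- representatives
  have hch : ∀ κ : ℤ × (Fin 3 → ℤ), ∃ x : Z3, κ ∈ key '' S → x ∈ S ∧ key x = κ := by
    intro κ
    by_cases hκ : κ ∈ key '' S
    · obtain ⟨x, hx, hk⟩ := hκ
      exact ⟨x, fun _ => ⟨hx, hk⟩⟩
    · exact ⟨0, fun h => absurd h hκ⟩
  choose rep hrep using hch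
  obtain ⟨C, hC⟩ := (hkeyfin.image (fun κ => |yy η 0 (rep κ)|⁻¹ + |yy η 1 (rep κ)|⁻¹ +
    |yy η 2 (rep κ)|⁻¹)).bddAbove
  set R1 : ℝ := max 1 (W * C) with hR1
  have hR11 : 1 ≤ R1 := le_max_left _ _
  refine ⟨R1 ^ 4, one_le_pow₀ hR11, fun t ht hprodt => ?_⟩
  have hs : ∀ i, 0 < Real.sqrt (t i) := fun i => Real.sqrt_pos.2 (ht i)
  have hsprod : Real.sqrt (t 0) * Real.sqrt (t 1) * Real.sqrt (t 2) = 1 := by
    rw [← Real.sqrt_mul (ht 0).le, ← Real.sqrt_mul (mul_pos (ht 0) (ht 1)).le, hprodt,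
      Real.sqrt_one]
  obtain ⟨x, hx0, hx⟩ := hD (fun i => Real.sqrt (t i)) hs hsprod
  have hnx : nrm A e x ≠ 0 := by
    intro h0
    have h1 := hprod x
    rw [h0, Int.cast_zero] at h1
    have hd0 : d ≠ 0 := by
      rw [hd]
      exact_mod_cast cyclic_of_irreducible h.irr he0
    have a0 : d / yy η 0 e * yy η 0 x ≠ 0 :=
      mul_ne_zero (div_ne_zero hd0 (h.y_ne 0 he0)) (h.y_ne 0 hx0)
    have a1 : d / yy η 1 e * yy η 1 x ≠ 0 :=
      mul_ne_zero (div_ne_zero hd0 (h.y_ne 1 he0)) (h.y_ne 1 hx0)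
    have a2 : d / yy η 2 e * yy η 2 x ≠ 0 :=
      mul_ne_zero (div_ne_zero hd0 (h.y_ne 2 he0)) (h.y_ne 2 hx0)
    exact mul_ne_zero (mul_ne_zero a0 a1) a2 h1.symm
  have hxS : x ∈ S := by
    refine ⟨hx0, ?_, hnx⟩
    have h1 : |((nrm A e x : ℤ) : ℝ)| ≤ C0 := by
      rw [hprod]
      have b0 := hx 0
      have b1 := hx 1
      have b2 := hx 2
      have q : |yy η 0 x| * |yy η 1 x| * |yy η 2 x| ≤ W ^ 3 := by
        have s0 := hs 0
        have s1 := hs 1
        have s2 := hs 2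
        calc |yy η 0 x| * |yy η 1 x| * |yy η 2 x|
            = |yy η 0 x| * |yy η 1 x| * |yy η 2 x| *
              (Real.sqrt (t 0) * Real.sqrt (t 1) * Real.sqrt (t 2)) := by rw [hsprod, mul_one]
          _ = (|yy η 0 x| * Real.sqrt (t 0)) * (|yy η 1 x| * Real.sqrt (t 1)) *
              (|yy η 2 x| * Real.sqrt (t 2)) := by ring
          _ ≤ W * W * W := by
              apply mul_le_mul (mul_le_mul b0 b1 (by positivity) hW.le) b2 (by positivity)
              positivity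
          _ = W ^ 3 := by ring
      rw [abs_mul, abs_mul, abs_mul, abs_mul, abs_mul, hC0]
      calc |d / yy η 0 e| * |yy η 0 x| * (|d / yy η 1 e| * |yy η 1 x|) *
            (|d / yy η 2 e| * |yy η 2 x|)
          = |d / yy η 0 e| * |d / yy η 1 e| * |d / yy η 2 e| *
            (|yy η 0 x| * |yy η 1 x| * |yy η 2 x|) := by ring
        _ ≤ _ := mul_le_mul_of_nonneg_left q (by positivity)
    have h2 : |((nrm A e x : ℤ) : ℝ)| ≤ K := h1.trans hK
    exact_mod_cast h2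
  have hκ : key x ∈ key '' S := ⟨x, hxS, rfl⟩
  obtain ⟨hx'S, hkey⟩ := hrep (key x) hκ
  set x' := rep (key x) with hx'
  have hnn : nrm A e x' = nrm A e x := congrArg Prod.fst hkey
  obtain ⟨w, hw⟩ : ∃ w : Z3, x - x' = nrm A e x' • w := by
    have h1 : ∀ j, x' j % nrm A e x' = x j % nrm A e x := fun j =>
      congrFun (congrArg Prod.snd hkey) j
    refine ⟨fun j => x j / nrm A e x - x' j / nrm A e x', ?_⟩
    ext j
    simp only [Pi.sub_apply, Pi.smul_apply, smul_eq_mul]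
    have h2 := h1 j
    rw [hnn] at h2 ⊢
    have h3 := Int.emod_add_mul_ediv (x j) (nrm A e x)
    have h4 := Int.emod_add_mul_ediv (x' j) (nrm A e x)
    rw [h2] at h4
    linarith
  obtain ⟨U, hU, hUs⟩ := exists_unit h he0 hx0 hx'S.1 hnn.symm hw
  set u : Fin 3 → ℝ := fun i => yy η i x / yy η i x' with hu
  have hune : ∀ i, u i ≠ 0 := fun i => div_ne_zero (h.y_ne i hx0) (h.y_ne i hx'S.1)
  -- product of the scaling factors
  have huprod : u 0 * u 1 * u 2 = 1 := by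
    have := det_of_scale h hUs
    rw [hU, Int.cast_one] at this
    exact this.symm
  have hub : ∀ i, |u i| * Real.sqrt (t i) ≤ R1 := by
    intro i
    have h1 : |yy η i x'|⁻¹ ≤ C := by
      have h2 : |yy η 0 x'|⁻¹ + |yy η 1 x'|⁻¹ + |yy η 2 x'|⁻¹ ≤ C :=
        hC ⟨key x, hκ, rfl⟩
      have p0 : 0 ≤ |yy η 0 x'|⁻¹ := by positivity
      have p1 : 0 ≤ |yy η 1 x'|⁻¹ := by positivity
      have p2 : 0 ≤ |yy η 2 x'|⁻¹ := by positivity
      have hi3 : i = 0 ∨ i = 1 ∨ i = 2 := by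
        have : ∀ i : Fin 3, i = 0 ∨ i = 1 ∨ i = 2 := by decide
        exact this i
      rcases hi3 with rfl | rfl | rfl <;> linarith
    have h2 := hx i
    have h3 : |u i| * Real.sqrt (t i) = (|yy η i x| * Real.sqrt (t i)) * |yy η i x'|⁻¹ := by
      simp only [hu]
      rw [abs_div]
      ring
    rw [h3]
    calc (|yy η i x| * Real.sqrt (t i)) * |yy η i x'|⁻¹ ≤ W * C :=
          mul_le_mul h2 h1 (by positivity) hW.le
      _ ≤ R1 := le_max_right _ _
  have hvprod : (|u 0| * Real.sqrt (t 0)) * (|u 1| * Real.sqrt (t 1)) *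
      (|u 2| * Real.sqrt (t 2)) = 1 := by
    have : (|u 0| * Real.sqrt (t 0)) * (|u 1| * Real.sqrt (t 1)) * (|u 2| * Real.sqrt (t 2)) =
        |u 0 * u 1 * u 2| * (Real.sqrt (t 0) * Real.sqrt (t 1) * Real.sqrt (t 2)) := by
      rw [abs_mul, abs_mul]; ring
    rw [this, huprod, hsprod, abs_one, one_mul]
  have hlow : ∀ i, 1 ≤ R1 ^ 2 * (|u i| * Real.sqrt (t i)) := by
    have hp : ∀ i, 0 < |u i| * Real.sqrt (t i) := fun i => mul_pos (abs_pos.2 (hune i)) (hs i)
    have gen : ∀ a b c : ℝ, 0 < a → 0 < b → 0 < c → a * b * c = 1 → b ≤ R1 → c ≤ R1 →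
        1 ≤ R1 ^ 2 * a := by
      intro a b c ha hb hc habc hb' hc'
      have h1 : b * c ≤ R1 * R1 := mul_le_mul hb' hc' hc.le (by linarith)
      calc 1 = a * (b * c) := by rw [← habc]; ring
        _ ≤ a * (R1 * R1) := mul_le_mul_of_nonneg_left h1 ha.le
        _ = R1 ^ 2 * a := by ring
    intro i
    have hi3 : i = 0 ∨ i = 1 ∨ i = 2 := by
      have : ∀ i : Fin 3, i = 0 ∨ i = 1 ∨ i = 2 := by decide
      exact this i
    rcases hi3 with rfl | rfl | rfl
    · exact gen _ _ _ (hp 0) (hp 1) (hp 2) hvprod (hub 1) (hub 2)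
    · exact gen _ _ _ (hp 1) (hp 0) (hp 2) (by rw [← hvprod]; ring) (hub 0) (hub 2)
    · exact gen _ _ _ (hp 2) (hp 0) (hp 1) (by rw [← hvprod]; ring) (hub 0) (hub 1)
  -- the square of the unit
  refine ⟨(toEquiv U hU).trans (toEquiv U hU), fun i => u i ^ 2, ⟨?_, ?_, ?_⟩, fun i => ?_⟩
  · intro i
    have := hune i
    positivity
  · intro i p
    show yy η i (U.mulVec (U.mulVec p)) = _
    rw [hUs, hUs]
    ring
  · intro p q r
    show dt (U.mulVec (U.mulVec p)) (U.mulVec (U.mulVec q)) (U.mulVec (U.mulVec r)) = _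
    rw [dt_mulVec, dt_mulVec, hU, one_mul, one_mul]
  · have e1 : u i ^ 2 * t i = (|u i| * Real.sqrt (t i)) ^ 2 := by
      rw [mul_pow, sq_abs, Real.sq_sqrt (ht i).le]
    have hp : 0 ≤ |u i| * Real.sqrt (t i) := by positivity
    rw [e1]
    constructor
    · have h1 := hlow i
      calc (1 : ℝ) = 1 ^ 2 := by norm_num
        _ ≤ (R1 ^ 2 * (|u i| * Real.sqrt (t i))) ^ 2 := pow_le_pow_left₀ (by norm_num) h1 2
        _ = R1 ^ 4 * (|u i| * Real.sqrt (t i)) ^ 2 := by ring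
    · calc (|u i| * Real.sqrt (t i)) ^ 2 ≤ R1 ^ 2 := pow_le_pow_left₀ hp (hub i) 2
        _ ≤ R1 ^ 4 := pow_le_pow_right₀ hR11 (by norm_num)

end Pool.Agent.Lib.MP_a785c8_co
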